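import Pool.Agent.Work.MP_b30479_gt.GA.Val

/-!
# Paths: two-bridge links
-/

namespace Pool.Agent.Work.MP_b30479_gt.GA

open Finset
open Pool.Agent.Work.MP_b30479_gt.LT
open Polynomial (X C aeval eval)

/-- the path with the weights `b, l`, rooted at its first vertex -/
def pathTree : ℤ → List ℤ → ArbTree
  | b, [] => .twist b
  | b, c :: l => .attach (.twist b) (pathTree c l)

lemma Pb_vec (s : ℕ) (b : ℤ) (x : Fin (2 * s + 1) → ℂ) :
    (aeval (DD s) (pol s ((Pb s b).mulVec (ev s 0)))).mulVec x = (Pb s b).mulVec x := by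
  conv_lhs => rw [← aeval_pol x]
  conv_rhs => rw [← aeval_pol x]
  rw [Matrix.mulVec_mulVec, Matrix.mulVec_mulVec, ← map_mul,
    mul_comm (pol s ((Pb s b).mulVec (ev s 0))), map_mul,
    ← aeval_comm, ← Matrix.mulVec_mulVec, ← Matrix.mulVec_mulVec, aeval_pol]

lemma wv_path (s : ℕ) : ∀ (l : List ℤ) (b : ℤ) (k : Fin (2 * s + 1)),
    wv s (pathTree b l) (Fin.rev k) = CS s (b :: l) k
  | [], b, k => by
    have hk := k.isLt
    show (Pb s b).mulVec (ev s 0) (Fin.rev k) = KK s b k 0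
    rw [mulVec_ev (by omega)]
    have e1 := Pb_KK s b (Fin.rev k) 0
    rw [Fin.val_rev, show 2 * s - (2 * s + 1 - ((k : ℕ) + 1)) = k by omega] at e1
    exact e1
  | c :: l, b, k => by
    have hk := k.isLt
    show (aeval (DD s) (pol s ((Pb s b).mulVec (ev s 0)))).mulVec
      (fun j => wv s (pathTree c l) (Fin.rev j)) (Fin.rev k) =
      ∑ y' : Fin (2 * s + 1), KK s b k y' * CS s (c :: l) y'
    rw [Pb_vec]
    show ∑ j : Fin (2 * s + 1), Pb s b (Fin.rev k) j * wv s (pathTree c l) (Fin.rev j) = _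
    refine Finset.sum_congr rfl fun j _ => ?_
    rw [wv_path s l c j, Pb_KK, Fin.val_rev, show 2 * s - (2 * s + 1 - ((k : ℕ) + 1)) = k by omega]

/-- The invariant of a path is the invariant of the two-bridge link of the word `ltWord`. -/
theorem path_two_bridge (b : ℤ) (l : List ℤ) (δ : ℤ) {s : ℕ} (hs : 1 ≤ s) :
    arbKashaev (pathTree b l) (orientedWrithe (ltWord (b :: l)) ![1, δ, -δ]) (2 * s + 1) =
      twoBridgeKashaev (ltWord (b :: l)) δ (2 * s + 1) := by
  rw [val _ _ hs]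
  have e1 : (2 * s + 1 - 1) / 2 = s := by omega
  unfold twoBridgeKashaev
  rw [e1]
  set u : ℂˣ := Units.mk0 (Complex.exp (2 * Real.pi * Complex.I / ((2 * s + 1 : ℕ) : ℂ)))
    (Complex.exp_ne_zero _) with hu0
  have hu : (u : ℂ) = TB.tt s := rfl
  unfold twoBridgeJones
  congr 1
  · rw [Units.val_zpow_eq_zpow_val, hu]
    unfold TB.tt
    rw [← Complex.exp_int_mul]
    congr 1
    push_cast
    ring
  · rw [tangle_rep hu]
    have e2 := (row s (b :: l) (by simp) 0).1
    have e3 := wv_path s l b 0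
    rw [Fin.rev_zero] at e3
    rw [e3]
    exact e2.symm

end Pool.Agent.Work.MP_b30479_gt.GA
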