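import Pool.Agent.Work.MP_b30479_gt.TB.CommF

/-!
# The braiding commutes with `E` on the whole of `V ⊗ V`
-/

namespace Pool.Agent.Work.MP_b30479_gt.GA

open Finset TB

/-- `CommC` without the restriction to low weights -/
def CommFull (s : ℕ) (t : ℂ) (e : Ent) : Prop :=
  ∀ i j a b : ℕ, i ≤ 2 * s → j ≤ 2 * s → i + j = a + b + 1 →
    (1 - t⁻¹ ^ (a + 1)) * t ^ ((s : ℤ) - b) * e i j (a + 1) b + (1 - t⁻¹ ^ (b + 1)) * e i j a (b + 1)
      = (1 - t⁻¹ ^ i) * t ^ ((s : ℤ) - j) * e (i - 1) j a b + (1 - t⁻¹ ^ j) * e i (j - 1) a b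

section
variable {s : ℕ} {u : ℂˣ} (h : IsPrimitiveRoot (u : ℂ) (2 * s + 1))
include h

theorem commF_true : CommFull s (u : ℂ) (entry s u true) := by
  intro i j a b hi0 hj0 hij
  have hinv : IsPrimitiveRoot (u : ℂ)⁻¹ (2 * s + 1) := h.inv
  have h0 : (u : ℂ) ≠ 0 := u.ne_zero
  rcases lt_trichotomy (a + 1) j with hlt | heq | hgt
  · rw [entry_true_zero _ _ _ _ _ _ hlt, entry_true_zero _ _ _ _ _ _ (by omega),
      entry_true_zero _ _ _ _ _ _ (by omega), entry_true_zero _ _ _ _ _ _ (by omega)]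
    ring
  · subst heq
    have hb : b = i := by omega
    subst hb
    have e1 := entry_true s u b (a + 1) 0 b (by omega)
    have e2 := entry_true s u b a 0 b (by omega)
    rw [Nat.add_zero] at e1 e2
    rw [e1, entry_true_zero s u b (a + 1) a (b + 1) (by omega),
      entry_true_zero s u (b - 1) (a + 1) a b (by omega)]
    rw [Nat.add_sub_cancel, e2, coeffPos_zero, coeffPos_zero]
    have e3 : (u : ℂ) ^ ((s : ℤ) - b) * (u : ℂ) ^ (((s : ℤ) - b) * ((s : ℤ) - ((a + 1 : ℕ) : ℤ))) =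
        (u : ℂ) ^ (((s : ℤ) - b) * ((s : ℤ) - a)) := by
      rw [← zpow_add₀ h0]
      congr 1
      push_cast
      ring
    linear_combination (1 - (u : ℂ)⁻¹ ^ (a + 1)) * e3
  · obtain ⟨k, rfl⟩ : ∃ k, a = j + k := ⟨a - j, by omega⟩
    have hi : i = b + k + 1 := by omega
    subst hi
    have p1 := entry_true s u (b + k + 1) j (k + 1) b (by omega)
    rw [← Nat.add_assoc] at p1
    have p2 := entry_true s u (b + k + 1) j k (b + 1) (by omega)
    have p3 := entry_true s u (b + k) j k b (by omega)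
    rw [p1, p2, Nat.add_sub_cancel, p3]
    -- closed forms
    have c1 := coeffPos_closed h (i := b + k + 1) (j := j) (k := k + 1) (by omega) (by omega)
      (by omega)
    have c2 := coeffPos_closed h (i := b + k + 1) (j := j) (k := k) (by omega) (by omega)
      (by omega)
    have c3 := coeffPos_closed h (i := b + k) (j := j) (k := k) (by omega) (by omega)
      (by omega)
    rw [show b + k + 1 - (k + 1) = b by omega, show j + (k + 1) = j + k + 1 by ring] at c1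
    rw [show b + k + 1 - k = b + 1 by omega] at c2
    rw [show b + k - k = b by omega] at c3
    have nb : qf (u : ℂ)⁻¹ b ≠ 0 := qf_ne_zero hinv (by omega)
    have nb1 : 1 - (u : ℂ)⁻¹ ^ (b + 1) ≠ 0 := one_sub_pow_ne hinv (by omega) (by omega)
    have nk : qf (u : ℂ) k ≠ 0 := qf_ne_zero h (by omega)
    have nk1 : 1 - (u : ℂ) ^ (k + 1) ≠ 0 := one_sub_pow_ne h (by omega) (by omega)
    have nj : qf (u : ℂ) j ≠ 0 := qf_ne_zero h (by omega)
    set E : ℂ := (u : ℂ) ^ ((k.choose 2 : ℤ) - s * k +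
      ((s : ℤ) - (b + k + 1 : ℕ) + k) * ((s : ℤ) - j - k)) with hE
    set D : ℂ := (-1) ^ k * (qf (u : ℂ)⁻¹ (b + k) * qf (u : ℂ) (j + k) /
      (qf (u : ℂ)⁻¹ b * (qf (u : ℂ) k * (1 - (u : ℂ) ^ (k + 1))) * qf (u : ℂ) j)) with hD
    have hP1 : (u : ℂ) ^ ((s : ℤ) - b) * coeffPos s u (b + k + 1) j (k + 1) =
        -(E * (u : ℂ)⁻¹ ^ j * (1 - (u : ℂ)⁻¹ ^ (b + k + 1)) * (1 - (u : ℂ) ^ (j + k + 1)) * D) := by
      rw [c1, qf_succ _ (b + k), qf_succ _ (j + k), qf_succ _ k]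
      have e1 : (u : ℂ) ^ ((s : ℤ) - b) * (u : ℂ) ^ (((k + 1).choose 2 : ℤ) - s * ((k + 1 : ℕ) : ℤ) +
          ((s : ℤ) - (b + k + 1 : ℕ) + ((k + 1 : ℕ) : ℤ)) * ((s : ℤ) - j - ((k + 1 : ℕ) : ℤ))) =
          E * (u : ℂ)⁻¹ ^ j := by
        rw [hE, inv_pow, ← zpow_natCast, ← zpow_neg, ← zpow_add₀ h0, ← zpow_add₀ h0]
        congr 1
        rw [Nat.choose_succ_succ' k 1, Nat.choose_one_right]
        push_cast
        ring
      rw [hD, pow_succ]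
      calc _ = ((u : ℂ) ^ ((s : ℤ) - b) * (u : ℂ) ^ (((k + 1).choose 2 : ℤ) -
          s * ((k + 1 : ℕ) : ℤ) + ((s : ℤ) - (b + k + 1 : ℕ) + ((k + 1 : ℕ) : ℤ)) *
          ((s : ℤ) - j - ((k + 1 : ℕ) : ℤ)))) * ((-1) ^ k * -1) *
          (qf (u : ℂ)⁻¹ (b + k) * (1 - (u : ℂ)⁻¹ ^ (b + k + 1)) *
            (qf (u : ℂ) (j + k) * (1 - (u : ℂ) ^ (j + k + 1))) /
              (qf (u : ℂ)⁻¹ b * (qf (u : ℂ) k * (1 - (u : ℂ) ^ (k + 1))) * qf (u : ℂ) j)) := by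
            ring
        _ = _ := by rw [e1]; ring
    have hP2 : (1 - (u : ℂ)⁻¹ ^ (b + 1)) * coeffPos s u (b + k + 1) j k =
        E * (1 - (u : ℂ)⁻¹ ^ (b + k + 1)) * (1 - (u : ℂ) ^ (k + 1)) * D := by
      rw [c2, qf_succ _ (b + k), qf_succ _ b, hD]
      have : (1 - (u : ℂ)⁻¹ ^ (b + 1)) * (qf (u : ℂ)⁻¹ (b + k) * (1 - (u : ℂ)⁻¹ ^ (b + k + 1)) *
          qf (u : ℂ) (j + k) / (qf (u : ℂ)⁻¹ b * (1 - (u : ℂ)⁻¹ ^ (b + 1)) * qf (u : ℂ) k *
            qf (u : ℂ) j)) = (1 - (u : ℂ)⁻¹ ^ (b + k + 1)) * (1 - (u : ℂ) ^ (k + 1)) *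
          (qf (u : ℂ)⁻¹ (b + k) * qf (u : ℂ) (j + k) /
      (qf (u : ℂ)⁻¹ b * (qf (u : ℂ) k * (1 - (u : ℂ) ^ (k + 1))) * qf (u : ℂ) j)) := by
        generalize qf (u : ℂ)⁻¹ b = B at *
        generalize qf (u : ℂ)⁻¹ (b + k) = B' at *
        generalize (u : ℂ)⁻¹ ^ (b + 1) = B2 at *
        generalize (u : ℂ)⁻¹ ^ (b + k + 1) = B3 at *
        field_simp
      linear_combination (E * (-1) ^ k) * this
    have hP3 : (u : ℂ) ^ ((s : ℤ) - j) * coeffPos s u (b + k) j k =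
        E * ((u : ℂ)⁻¹ ^ j) ^ 2 * (u : ℂ)⁻¹ ^ (k + 1) * (1 - (u : ℂ) ^ (k + 1)) * D := by
      rw [c3, hD]
      have e1 : (u : ℂ) ^ ((s : ℤ) - j) * (u : ℂ) ^ ((k.choose 2 : ℤ) - s * (k : ℤ) +
          ((s : ℤ) - (b + k : ℕ) + (k : ℤ)) * ((s : ℤ) - j - (k : ℤ))) =
          E * ((u : ℂ)⁻¹ ^ j) ^ 2 * (u : ℂ)⁻¹ ^ (k + 1) := by
        have e2 : (u : ℂ) ^ (2 * (s : ℤ) + 1) = 1 := by
          have := h.pow_eq_one
          rw [← zpow_natCast] at this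
          push_cast at this
          exact this
        rw [hE, ← pow_mul, inv_pow, inv_pow, ← zpow_natCast, ← zpow_natCast, ← zpow_neg,
          ← zpow_neg, ← zpow_add₀ h0, ← zpow_add₀ h0, ← zpow_add₀ h0]
        rw [← mul_one ((u : ℂ) ^ ((k.choose 2 : ℤ) - s * k +
          ((s : ℤ) - (b + k + 1 : ℕ) + k) * ((s : ℤ) - j - k) + -((j * 2 : ℕ) : ℤ) +
            -((k + 1 : ℕ) : ℤ))), ← e2, ← zpow_add₀ h0]
        congr 1
        push_cast
        ring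
      have e3 : qf (u : ℂ)⁻¹ (b + k) * qf (u : ℂ) (j + k) /
          (qf (u : ℂ)⁻¹ b * qf (u : ℂ) k * qf (u : ℂ) j) = (1 - (u : ℂ) ^ (k + 1)) *
          (qf (u : ℂ)⁻¹ (b + k) * qf (u : ℂ) (j + k) /
      (qf (u : ℂ)⁻¹ b * (qf (u : ℂ) k * (1 - (u : ℂ) ^ (k + 1))) * qf (u : ℂ) j)) := by
        generalize qf (u : ℂ)⁻¹ b = B at *
        generalize qf (u : ℂ)⁻¹ (b + k) = B' at *
        field_simp
      rw [e3]
      linear_combination ((-1) ^ k * (1 - (u : ℂ) ^ (k + 1)) *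
          (qf (u : ℂ)⁻¹ (b + k) * qf (u : ℂ) (j + k) /
      (qf (u : ℂ)⁻¹ b * (qf (u : ℂ) k * (1 - (u : ℂ) ^ (k + 1))) * qf (u : ℂ) j))) * e1
    have hP4 : (1 - (u : ℂ)⁻¹ ^ j) * entry s u true (b + k + 1) (j - 1) (j + k) b =
        -((1 - (u : ℂ)⁻¹ ^ j) * (E * (u : ℂ)⁻¹ ^ j * (1 - (u : ℂ)⁻¹ ^ (b + k + 1)) *
          (1 - (u : ℂ) ^ j) * D)) := by
      cases j with
      | zero => simp
      | succ j =>
        have p4 := entry_true s u (b + k + 1) j (k + 1) b (by omega)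
        rw [show j + (k + 1) = j + 1 + k by ring] at p4
        have c4 := coeffPos_closed h (i := b + k + 1) (j := j) (k := k + 1) (by omega) (by omega)
          (by omega)
        rw [show b + k + 1 - (k + 1) = b by omega, show j + (k + 1) = j + 1 + k by ring] at c4
        rw [Nat.add_sub_cancel, p4, c4]
        have e1 : (u : ℂ) ^ (((k + 1).choose 2 : ℤ) - s * ((k + 1 : ℕ) : ℤ) +
            ((s : ℤ) - (b + k + 1 : ℕ) + ((k + 1 : ℕ) : ℤ)) * ((s : ℤ) - j - ((k + 1 : ℕ) : ℤ))) =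
            E * (u : ℂ)⁻¹ ^ (j + 1) := by
          rw [hE, inv_pow, ← zpow_natCast, ← zpow_neg, ← zpow_add₀ h0]
          congr 1
          rw [Nat.choose_succ_succ' k 1, Nat.choose_one_right]
          push_cast
          ring
        have nj' : qf (u : ℂ) j ≠ 0 := qf_ne_zero h (by omega)
        have nj1 : 1 - (u : ℂ) ^ (j + 1) ≠ 0 := one_sub_pow_ne h (by omega) (by omega)
        rw [e1, hD, qf_succ _ (b + k), qf_succ _ k, qf_succ _ j, pow_succ]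
        generalize qf (u : ℂ)⁻¹ b = B at *
        generalize qf (u : ℂ)⁻¹ (b + k) = B' at *
        generalize (u : ℂ)⁻¹ ^ (b + k + 1) = B3 at *
        generalize (u : ℂ)⁻¹ ^ (j + 1) = B4 at *
        generalize E = E' at *
        field_simp
        ring
    have hX : (u : ℂ) ^ j ≠ 0 := pow_ne_zero _ h0
    have hY : (u : ℂ) ^ (k + 1) ≠ 0 := pow_ne_zero _ h0
    have key := alg_pos ((u : ℂ) ^ j) ((u : ℂ) ^ (k + 1)) hX hY
    simp only [← inv_pow] at key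
    have q1 : (u : ℂ)⁻¹ ^ (j + k + 1) = (u : ℂ)⁻¹ ^ j * (u : ℂ)⁻¹ ^ (k + 1) := by
      rw [← pow_add, Nat.add_assoc]
    have q2 : (u : ℂ) ^ (j + k + 1) = (u : ℂ) ^ j * (u : ℂ) ^ (k + 1) := by
      rw [← pow_add, Nat.add_assoc]
    rw [q2] at hP1
    rw [q1]
    linear_combination (1 - (u : ℂ)⁻¹ ^ j * (u : ℂ)⁻¹ ^ (k + 1)) * hP1 + hP2 -
      (1 - (u : ℂ)⁻¹ ^ (b + k + 1)) * hP3 - hP4 +
      (E * (1 - (u : ℂ)⁻¹ ^ (b + k + 1)) * D) * key

theorem commF_false : CommFull s (u : ℂ) (entry s u false) := by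
  intro i j a b hi0 hj0 hij
  have hinv : IsPrimitiveRoot (u : ℂ)⁻¹ (2 * s + 1) := h.inv
  have h0 : (u : ℂ) ≠ 0 := u.ne_zero
  have e2s : (u : ℂ) ^ (2 * (s : ℤ) + 1) = 1 := by
    have := h.pow_eq_one
    rw [← zpow_natCast] at this
    push_cast at this
    exact this
  rcases lt_trichotomy (b + 1) i with hlt | heq | hgt
  · rw [entry_false_zero _ _ _ _ _ _ hlt, entry_false_zero _ _ _ _ _ _ (by omega),
      entry_false_zero _ _ _ _ _ _ (by omega), entry_false_zero _ _ _ _ _ _ (by omega)]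
    ring
  · subst heq
    have hb : a = j := by omega
    subst hb
    have e1 := entry_false s u (b + 1) a 0 a (by omega)
    have e2 := entry_false s u b a 0 a (by omega)
    rw [Nat.add_zero] at e1 e2
    rw [e1, entry_false_zero s u (b + 1) a (a + 1) b (by omega),
      entry_false_zero s u (b + 1) (a - 1) a b (by omega)]
    rw [Nat.add_sub_cancel, e2, coeffNeg_zero, coeffNeg_zero]
    have e3 : (u : ℂ) ^ ((s : ℤ) - a) * (u : ℂ) ^ (-(((s : ℤ) - b) * ((s : ℤ) - a))) =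
        (u : ℂ) ^ (-(((s : ℤ) - ((b + 1 : ℕ) : ℤ)) * ((s : ℤ) - a))) := by
      rw [← zpow_add₀ h0]
      congr 1
      push_cast
      ring
    linear_combination -(1 - (u : ℂ)⁻¹ ^ (b + 1)) * e3
  · obtain ⟨k, rfl⟩ : ∃ k, b = i + k := ⟨b - i, by omega⟩
    have hi : j = a + k + 1 := by omega
    subst hi
    have p1 := entry_false s u i (a + k + 1) k (a + 1) (by omega)
    have p2 := entry_false s u i (a + k + 1) (k + 1) a (by omega)
    rw [← Nat.add_assoc] at p2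
    have p4 := entry_false s u i (a + k) k a (by omega)
    rw [p1, p2, Nat.add_sub_cancel, p4]
    -- closed forms
    have c1 := coeffNeg_closed h (i := i) (j := a + k + 1) (k := k) (by omega) (by omega)
      (by omega)
    have c2 := coeffNeg_closed h (i := i) (j := a + k + 1) (k := k + 1) (by omega) (by omega)
      (by omega)
    have c4 := coeffNeg_closed h (i := i) (j := a + k) (k := k) (by omega) (by omega)
      (by omega)
    rw [show a + k + 1 - k = a + 1 by omega] at c1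
    rw [show a + k + 1 - (k + 1) = a by omega, show i + (k + 1) = i + k + 1 by ring] at c2
    rw [show a + k - k = a by omega] at c4
    have nb : qf (u : ℂ)⁻¹ a ≠ 0 := qf_ne_zero hinv (by omega)
    have nb1 : 1 - (u : ℂ)⁻¹ ^ (a + 1) ≠ 0 := one_sub_pow_ne hinv (by omega) (by omega)
    have nk : qf (u : ℂ) k ≠ 0 := qf_ne_zero h (by omega)
    have nk1 : 1 - (u : ℂ) ^ (k + 1) ≠ 0 := one_sub_pow_ne h (by omega) (by omega)
    have nj : qf (u : ℂ) i ≠ 0 := qf_ne_zero h (by omega)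
    set E : ℂ := (u : ℂ) ^ (-(s : ℤ) * k - ((s : ℤ) - i) * ((s : ℤ) - (a + k + 1 : ℕ)) - s)
      with hE
    set D : ℂ := (qf (u : ℂ)⁻¹ (a + k) * qf (u : ℂ) (i + k) /
      (qf (u : ℂ)⁻¹ a * (qf (u : ℂ) k * (1 - (u : ℂ) ^ (k + 1))) * qf (u : ℂ) i)) with hD
    have hP1 : (1 - (u : ℂ)⁻¹ ^ (a + 1)) * ((u : ℂ) ^ ((s : ℤ) - ((i + k : ℕ) : ℤ)) *
        coeffNeg s u i (a + k + 1) k) =
        E * ((u : ℂ)⁻¹ ^ i * (u : ℂ)⁻¹ ^ (k + 1)) * (1 - (u : ℂ)⁻¹ ^ (a + k + 1)) *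
          (1 - (u : ℂ) ^ (k + 1)) * D := by
      rw [c1, qf_succ _ (a + k), qf_succ _ a]
      have e1 : (u : ℂ) ^ ((s : ℤ) - ((i + k : ℕ) : ℤ)) * (u : ℂ) ^ (-(s : ℤ) * (k : ℤ) -
          ((s : ℤ) - i) * ((s : ℤ) - ((a + k + 1 : ℕ) : ℤ))) =
          E * ((u : ℂ)⁻¹ ^ i * (u : ℂ)⁻¹ ^ (k + 1)) := by
        rw [hE, ← pow_add, inv_pow, ← zpow_natCast, ← zpow_neg, ← zpow_add₀ h0, ← zpow_add₀ h0]
        rw [← mul_one ((u : ℂ) ^ (-(s : ℤ) * k - ((s : ℤ) - i) * ((s : ℤ) -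
          (a + k + 1 : ℕ)) - s + -((i + (k + 1) : ℕ) : ℤ))), ← e2s, ← zpow_add₀ h0]
        congr 1
        push_cast
        ring
      have e2 : (1 - (u : ℂ)⁻¹ ^ (a + 1)) * (qf (u : ℂ)⁻¹ (a + k) *
          (1 - (u : ℂ)⁻¹ ^ (a + k + 1)) * qf (u : ℂ) (i + k) / (qf (u : ℂ)⁻¹ a *
          (1 - (u : ℂ)⁻¹ ^ (a + 1)) * qf (u : ℂ) k * qf (u : ℂ) i)) =
          (1 - (u : ℂ)⁻¹ ^ (a + k + 1)) * (1 - (u : ℂ) ^ (k + 1)) * D := by
        rw [hD]
        generalize qf (u : ℂ)⁻¹ a = B at *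
        generalize qf (u : ℂ)⁻¹ (a + k) = B' at *
        generalize (u : ℂ)⁻¹ ^ (a + 1) = B2 at *
        generalize (u : ℂ)⁻¹ ^ (a + k + 1) = B3 at *
        field_simp
      linear_combination (1 - (u : ℂ)⁻¹ ^ (a + 1)) * (qf (u : ℂ)⁻¹ (a + k) *
          (1 - (u : ℂ)⁻¹ ^ (a + k + 1)) * qf (u : ℂ) (i + k) / (qf (u : ℂ)⁻¹ a *
          (1 - (u : ℂ)⁻¹ ^ (a + 1)) * qf (u : ℂ) k * qf (u : ℂ) i)) * e1 +
          E * ((u : ℂ)⁻¹ ^ i * (u : ℂ)⁻¹ ^ (k + 1)) * e2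
    have hP2 : coeffNeg s u i (a + k + 1) (k + 1) =
        E * (1 - (u : ℂ)⁻¹ ^ (a + k + 1)) * (1 - (u : ℂ) ^ (i + k + 1)) * D := by
      rw [c2, qf_succ _ (a + k), qf_succ _ (i + k), qf_succ _ k, hD]
      have e1 : (u : ℂ) ^ (-(s : ℤ) * ((k + 1 : ℕ) : ℤ) -
          ((s : ℤ) - i) * ((s : ℤ) - ((a + k + 1 : ℕ) : ℤ))) = E := by
        rw [hE]
        congr 1
        push_cast
        ring
      rw [e1]
      ring
    have hP3 : (1 - (u : ℂ)⁻¹ ^ i) * ((u : ℂ) ^ ((s : ℤ) - ((a + k + 1 : ℕ) : ℤ)) *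
        entry s u false (i - 1) (a + k + 1) a (i + k)) =
        (1 - (u : ℂ)⁻¹ ^ i) * (E * (1 - (u : ℂ)⁻¹ ^ (a + k + 1)) * (1 - (u : ℂ) ^ i) * D) := by
      cases i with
      | zero => simp
      | succ i =>
        have p3 := entry_false s u i (a + k + 1) (k + 1) a (by omega)
        rw [show i + (k + 1) = i + 1 + k by ring] at p3
        have c3 := coeffNeg_closed h (i := i) (j := a + k + 1) (k := k + 1) (by omega) (by omega)
          (by omega)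
        rw [show a + k + 1 - (k + 1) = a by omega, show i + (k + 1) = i + 1 + k by ring] at c3
        rw [Nat.add_sub_cancel, p3, c3]
        have e1 : (u : ℂ) ^ ((s : ℤ) - ((a + k + 1 : ℕ) : ℤ)) *
            (u : ℂ) ^ (-(s : ℤ) * ((k + 1 : ℕ) : ℤ) -
            ((s : ℤ) - i) * ((s : ℤ) - ((a + k + 1 : ℕ) : ℤ))) = E := by
          rw [hE, ← zpow_add₀ h0]
          congr 1
          push_cast
          ring
        have nj' : qf (u : ℂ) i ≠ 0 := qf_ne_zero h (by omega)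
        have nj1 : 1 - (u : ℂ) ^ (i + 1) ≠ 0 := one_sub_pow_ne h (by omega) (by omega)
        have e2 : qf (u : ℂ)⁻¹ (a + k + 1) * qf (u : ℂ) (i + 1 + k) /
            (qf (u : ℂ)⁻¹ a * qf (u : ℂ) (k + 1) * qf (u : ℂ) i) =
            (1 - (u : ℂ)⁻¹ ^ (a + k + 1)) * (1 - (u : ℂ) ^ (i + 1)) * D := by
          rw [hD, qf_succ _ (a + k), qf_succ _ k, qf_succ _ i]
          generalize qf (u : ℂ)⁻¹ a = B at *
          generalize qf (u : ℂ)⁻¹ (a + k) = B' at *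
          generalize (u : ℂ)⁻¹ ^ (a + k + 1) = B3 at *
          field_simp
        rw [e2]
        linear_combination (1 - (u : ℂ)⁻¹ ^ (i + 1)) * ((1 - (u : ℂ)⁻¹ ^ (a + k + 1)) *
          (1 - (u : ℂ) ^ (i + 1)) * D) * e1
    have hP4 : coeffNeg s u i (a + k) k = E * (u : ℂ) ^ i * (1 - (u : ℂ) ^ (k + 1)) * D := by
      rw [c4, hD]
      have e1 : (u : ℂ) ^ (-(s : ℤ) * (k : ℤ) -
          ((s : ℤ) - i) * ((s : ℤ) - ((a + k : ℕ) : ℤ))) = E * (u : ℂ) ^ i := by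
        rw [hE, ← zpow_natCast, ← zpow_add₀ h0]
        congr 1
        push_cast
        ring
      have e3 : qf (u : ℂ)⁻¹ (a + k) * qf (u : ℂ) (i + k) /
          (qf (u : ℂ)⁻¹ a * qf (u : ℂ) k * qf (u : ℂ) i) = (1 - (u : ℂ) ^ (k + 1)) *
          (qf (u : ℂ)⁻¹ (a + k) * qf (u : ℂ) (i + k) /
      (qf (u : ℂ)⁻¹ a * (qf (u : ℂ) k * (1 - (u : ℂ) ^ (k + 1))) * qf (u : ℂ) i)) := by
        generalize qf (u : ℂ)⁻¹ a = B at *
        generalize qf (u : ℂ)⁻¹ (a + k) = B' at *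
        field_simp
      rw [e3, e1]
      ring
    have hX : (u : ℂ) ^ i ≠ 0 := pow_ne_zero _ h0
    have hY : (u : ℂ) ^ (k + 1) ≠ 0 := pow_ne_zero _ h0
    have key := alg_neg ((u : ℂ) ^ i) ((u : ℂ) ^ (k + 1)) hX hY
    simp only [← inv_pow] at key
    have q1 : (u : ℂ)⁻¹ ^ (i + k + 1) = (u : ℂ)⁻¹ ^ i * (u : ℂ)⁻¹ ^ (k + 1) := by
      rw [← pow_add, Nat.add_assoc]
    have q2 : (u : ℂ) ^ (i + k + 1) = (u : ℂ) ^ i * (u : ℂ) ^ (k + 1) := by
      rw [← pow_add, Nat.add_assoc]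
    rw [q2] at hP2
    rw [q1]
    linear_combination hP1 + (1 - (u : ℂ)⁻¹ ^ i * (u : ℂ)⁻¹ ^ (k + 1)) * hP2 - hP3 -
      (1 - (u : ℂ)⁻¹ ^ (a + k + 1)) * hP4 +
      (E * (1 - (u : ℂ)⁻¹ ^ (a + k + 1)) * D) * key

lemma isDag_entry (S : ℕ) (hS : S ≤ 2 * s) : IsDag S (entry s u true) (entry s u false) := by
  intro i j a b hij hab
  have hinv : IsPrimitiveRoot (u : ℂ)⁻¹ (2 * s + 1) := h.inv
  have h0 : (u : ℂ) ≠ 0 := u.ne_zero
  have e2s : (u : ℂ) ^ (2 * (s : ℤ) + 1) = 1 := by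
    have := h.pow_eq_one
    rw [← zpow_natCast] at this
    push_cast at this
    exact this
  rcases lt_or_ge a j with hlt | hge
  · rw [entry_true_zero _ _ _ _ _ _ hlt, entry_false_zero _ _ _ _ _ _ (by omega), star_zero]
  · obtain ⟨k, rfl⟩ : ∃ k, a = j + k := ⟨a - j, by omega⟩
    have hi : i = b + k := by omega
    subst hi
    rw [entry_true s u (b + k) j k b rfl, entry_false s u b (j + k) k j rfl]
    rw [coeffPos_closed h (by omega) (by omega) (by omega),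
      coeffNeg_closed h (by omega) (by omega) (by omega),
      show b + k - k = b by omega, show j + k - k = j by omega]
    rw [star_mul', star_mul', star_div₀, star_mul', star_mul', star_mul', star_pow, star_neg,
      star_one, star_zpow₀, star_root h]
    have r1 : ∀ m, star (qf (u : ℂ) m) = qf (u : ℂ)⁻¹ m := fun m => star_qf h m
    have r2 : ∀ m, star (qf (u : ℂ)⁻¹ m) = qf (u : ℂ) m := fun m => by
      rw [star_qf hinv, inv_inv]
    rw [r1, r1, r1, r2, r2]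
    have hq := qf_inv h k
    have nk : qf (u : ℂ)⁻¹ k ≠ 0 := qf_ne_zero hinv (by omega)
    have nk' : qf (u : ℂ) k ≠ 0 := qf_ne_zero h (by omega)
    have nj : qf (u : ℂ)⁻¹ j ≠ 0 := qf_ne_zero hinv (by omega)
    have nb : qf (u : ℂ) b ≠ 0 := qf_ne_zero h (by omega)
    have e1 : (u : ℂ)⁻¹ ^ ((k.choose 2 : ℤ) - s * k + ((s : ℤ) - ((b + k : ℕ) : ℤ) + k) *
        ((s : ℤ) - j - k)) * (u : ℂ) ^ ((k + 1).choose 2) =
        (u : ℂ) ^ (-(s : ℤ) * k - ((s : ℤ) - b) * ((s : ℤ) - ((j + k : ℕ) : ℤ))) := by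
      rw [inv_zpow, ← zpow_neg, ← zpow_natCast, ← zpow_add₀ h0]
      have e3 : ((u : ℂ) ^ (2 * (s : ℤ) + 1)) ^ (k : ℤ) = 1 := by rw [e2s, one_zpow]
      rw [← mul_one ((u : ℂ) ^ (-(s : ℤ) * k - ((s : ℤ) - b) * ((s : ℤ) -
        ((j + k : ℕ) : ℤ)))), ← e3, ← zpow_mul, ← zpow_add₀ h0]
      congr 1
      rw [Nat.choose_succ_succ' k 1, Nat.choose_one_right]
      push_cast
      ring
    rw [← e1]
    generalize (u : ℂ)⁻¹ ^ ((k.choose 2 : ℤ) - s * k + ((s : ℤ) - ((b + k : ℕ) : ℤ) + k) *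
        ((s : ℤ) - j - k)) = W
    have e4 : ((-1 : ℂ)) ^ k / qf (u : ℂ)⁻¹ k = (u : ℂ) ^ ((k + 1).choose 2) / qf (u : ℂ) k := by
      rw [div_eq_div_iff nk nk', ← hq]
      ring
    calc W * (-1) ^ k * (qf (↑u) (b + k) * qf (↑u)⁻¹ (j + k) /
          (qf (↑u) b * qf (↑u)⁻¹ k * qf (↑u)⁻¹ j))
        = W * ((-1) ^ k / qf (↑u)⁻¹ k) * (qf (↑u) (b + k) * qf (↑u)⁻¹ (j + k) /
          (qf (↑u) b * qf (↑u)⁻¹ j)) := by
          generalize qf (u : ℂ)⁻¹ k = A1 at *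
          generalize qf (u : ℂ)⁻¹ j = A2 at *
          generalize qf (u : ℂ)⁻¹ (j + k) = A3 at *
          field_simp
      _ = _ := by
          rw [e4]
          generalize qf (u : ℂ)⁻¹ k = A1 at *
          generalize qf (u : ℂ)⁻¹ j = A2 at *
          generalize qf (u : ℂ)⁻¹ (j + k) = A3 at *
          field_simp

end

end Pool.Agent.Work.MP_b30479_gt.GA
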