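import Pool.Agent.Work.MP_b30479_gt.GA.Lam

/-!
# Coordinates: the Casimir operators, the two cups, the trace functional
-/

namespace Pool.Agent.Work.MP_b30479_gt.GA

open Finset
open Pool.Agent.Work.MP_b30479_gt.TB hiding PP EE
open Pool.Agent.Work.MP_b30479_gt.LT
open Pool.Agent.Work.MP_b30479_gt.AX (fS)
open Polynomial (X C aeval eval)

/-! ### scalars -/

lemma tt_ee (s : ℕ) : tt s = Complex.exp (2 * Real.pi * Complex.I / ((2 * s + 1 : ℕ) : ℂ)) := rfl

/-- the eigenvalues of the Casimir operator -/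
lemma cc_cn (s k : ℕ) : cc s (tt s) k = cn s k := by
  have hn : ((2 * s + 1 : ℕ) : ℂ) ≠ 0 := DT.nn_ne s
  unfold cc cn
  rw [tt_ee, inv_pow, ← Complex.exp_nat_mul, ← Complex.exp_nat_mul, ← Complex.exp_nat_mul,
    ← Complex.exp_neg, ← Complex.exp_add, ← Complex.exp_add]
  set θ : ℂ := 2 * Real.pi * (k + 1 / 2) / ((2 * s + 1 : ℕ) : ℂ) with hθ
  have hs2 : (2 : ℂ) * s = ((2 * s + 1 : ℕ) : ℂ) - 1 := by
    push_cast
    ring
  have e1 : (s : ℂ) * (2 * Real.pi * Complex.I / ((2 * s + 1 : ℕ) : ℂ)) +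
      -((k : ℂ) * (2 * Real.pi * Complex.I / ((2 * s + 1 : ℕ) : ℂ))) =
      Real.pi * Complex.I + -θ * Complex.I := by
    rw [hθ, ← sub_eq_zero]
    have e : (s : ℂ) * (2 * Real.pi * Complex.I / ((2 * s + 1 : ℕ) : ℂ)) +
        -((k : ℂ) * (2 * Real.pi * Complex.I / ((2 * s + 1 : ℕ) : ℂ))) -
        (Real.pi * Complex.I + -(2 * Real.pi * (k + 1 / 2) / ((2 * s + 1 : ℕ) : ℂ)) *
          Complex.I) = Real.pi * Complex.I / ((2 * s + 1 : ℕ) : ℂ) *
          (2 * s - (((2 * s + 1 : ℕ) : ℂ) - 1)) := by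
      generalize ((2 * s + 1 : ℕ) : ℂ) = N at *
      field_simp
      ring
    rw [e, hs2, sub_self, mul_zero]
  have e2 : ((s + 1 : ℕ) : ℂ) * (2 * Real.pi * Complex.I / ((2 * s + 1 : ℕ) : ℂ)) +
      (k : ℂ) * (2 * Real.pi * Complex.I / ((2 * s + 1 : ℕ) : ℂ)) =
      Real.pi * Complex.I + θ * Complex.I := by
    rw [hθ, ← sub_eq_zero]
    have e : ((s + 1 : ℕ) : ℂ) * (2 * Real.pi * Complex.I / ((2 * s + 1 : ℕ) : ℂ)) +
        (k : ℂ) * (2 * Real.pi * Complex.I / ((2 * s + 1 : ℕ) : ℂ)) -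
        (Real.pi * Complex.I + (2 * Real.pi * (k + 1 / 2) / ((2 * s + 1 : ℕ) : ℂ)) *
          Complex.I) = Real.pi * Complex.I / ((2 * s + 1 : ℕ) : ℂ) *
          (2 * s - (((2 * s + 1 : ℕ) : ℂ) - 1)) := by
      generalize ((2 * s + 1 : ℕ) : ℂ) = N at *
      push_cast
      field_simp
      ring
    rw [e, hs2, sub_self, mul_zero]
  rw [e1, e2, Complex.exp_add, Complex.exp_add, Complex.exp_pi_mul_I]
  have e3 : (((2 * Real.cos (2 * Real.pi * (k + 1 / 2) / (2 * s + 1 : ℕ)) : ℝ)) : ℂ) =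
      2 * Complex.cos θ := by
    rw [hθ]
    push_cast
    rfl
  rw [e3, Complex.cos]
  ring

lemma gg_eq (s k : ℕ) : (1 - tt s ^ k) * (1 - (tt s)⁻¹ ^ k) = gg s k := by
  have hn : ((2 * s + 1 : ℕ) : ℂ) ≠ 0 := DT.nn_ne s
  unfold gg
  rw [tt_ee, inv_pow, ← Complex.exp_nat_mul, ← Complex.exp_neg]
  set θ : ℂ := Real.pi * k / ((2 * s + 1 : ℕ) : ℂ) with hθ
  have e1 : (k : ℂ) * (2 * Real.pi * Complex.I / ((2 * s + 1 : ℕ) : ℂ)) =
      θ * Complex.I + θ * Complex.I := by
    rw [hθ]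
    ring
  rw [e1, Complex.exp_neg, Complex.exp_add]
  have e3 : ((((2 * Real.sin (Real.pi * k / (2 * s + 1 : ℕ))) ^ 2 : ℝ)) : ℂ) =
      (2 * Complex.sin θ) ^ 2 := by
    rw [hθ]
    push_cast
    rfl
  rw [e3, Complex.sin, neg_mul, Complex.exp_neg]
  have h0 : Complex.exp (θ * Complex.I) ≠ 0 := Complex.exp_ne_zero _
  have hI : Complex.I ^ 2 = -1 := Complex.I_sq
  field_simp
  rw [hI]
  ring

lemma qq_succ {s k : ℕ} (hk : k + 1 ≤ 2 * s) : qq s (k + 1) = gg s (k + 1) * qq s k := by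
  rw [qq_fS hk, qq_fS (by omega), fS_gg]

/-! ### the Casimir operators in coordinates -/

lemma DD_mulVec {s : ℕ} (w : Fin (2 * s + 1) → ℂ) (k : Fin (2 * s + 1)) :
    (DD s).mulVec w k = cn s k * w k +
      (if h : 0 < (k : ℕ) then gg s k * w ⟨k - 1, by omega⟩ else 0) := by
  have h1 := DD_mul_apply (Matrix.of fun l (_ : Fin (2 * s + 1)) => w l) k k
  simp only [Matrix.of_apply] at h1
  rw [← h1, Matrix.mul_apply]
  rfl

lemma DD_transpose_mulVec {s : ℕ} (w : Fin (2 * s + 1) → ℂ) (k : Fin (2 * s + 1)) :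
    (DD s).transpose.mulVec w k = cn s k * w k +
      (if h : (k : ℕ) < 2 * s then gg s (k + 1) * w ⟨k + 1, by omega⟩ else 0) := by
  have h1 := mul_DD_apply (Matrix.of fun (_ : Fin (2 * s + 1)) j => w j) k k
  simp only [Matrix.of_apply] at h1
  rw [← h1, Matrix.mul_apply]
  unfold Matrix.mulVec dotProduct
  refine Finset.sum_congr rfl fun l _ => ?_
  beta_reduce
  rw [Matrix.transpose_apply, Matrix.of_apply]
  ring

theorem crd_L2_cas {s : ℕ} {Y : Arr} (hY : HW s (tt s) Y) :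
    crd s (L2 (cas s (tt s)) Y) = (DD s).transpose.mulVec (crd s Y) := by
  have h := tt_prim s
  funext k
  have hk := k.isLt
  have n0 := qq_ne (s := s) (k := k) (by omega)
  rw [DD_transpose_mulVec]
  unfold crd
  rw [xi_L2_cas h, cc_cn]
  by_cases hk2 : (k : ℕ) < 2 * s
  · rw [dif_pos hk2]
    have n1 := qq_ne (s := s) (k := (k : ℕ) + 1) (by omega)
    have e2 := qq_succ (s := s) (k := k) (by omega)
    have e3 : gg s (k + 1) ≠ 0 := by
      intro hc
      rw [hc, zero_mul] at e2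
      exact n1 e2
    simp only
    rw [e2]
    field_simp
    ring
  · rw [dif_neg hk2]
    have e3 : (k : ℕ) = 2 * s := by omega
    rw [e3]
    have e4 : xi s (tt s) (2 * s + 1) Y = 0 := HH_uu_top h hY
    rw [e4]
    ring

theorem crd_L1_cas (s : ℕ) (Y : Arr) :
    crd s (L1 (cas s (tt s)) Y) = (DD s).mulVec (crd s Y) := by
  have h := tt_prim s
  funext k
  have hk := k.isLt
  have n0 := qq_ne (s := s) (k := k) (by omega)
  rw [DD_mulVec]
  unfold crd
  rw [xi_L1_cas h (by omega), cc_cn, gg_eq]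
  by_cases hk2 : 0 < (k : ℕ)
  · rw [dif_pos hk2]
    have n1 := qq_ne (s := s) (k := (k : ℕ) - 1) (by omega)
    have e2 := qq_succ (s := s) (k := (k : ℕ) - 1) (by omega)
    rw [show (k : ℕ) - 1 + 1 = k by omega] at e2
    have e3 : gg s k ≠ 0 := by
      intro hc
      rw [hc, zero_mul] at e2
      exact n0 e2
    simp only
    rw [e2]
    field_simp
  · rw [dif_neg hk2]
    have e3 : (k : ℕ) = 0 := by omega
    have e4 : gg s k = 0 := by
      rw [← gg_eq, e3]
      simp
    rw [e4]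
    ring

/-! ### the second cup -/

/-- the highest weight vector `(cup) ⊗ e_0` -/
noncomputable def eta' (s : ℕ) : Arr := fun i _ k => if k = 0 then tt s ^ (s * i) else 0

lemma HW_eta' (s : ℕ) : HW s (tt s) (eta' s) := by
  have h := tt_prim s
  intro i j k hs
  have h0 : tt s ≠ 0 := h.ne_zero (by omega)
  unfold TB.EE eta'
  rcases Nat.eq_zero_or_pos k with hk | hk
  · subst hk
    rw [if_pos rfl, if_pos rfl, if_neg (by omega), mul_zero, add_zero]
    have hj : j = 2 * s - 1 - i := by omega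
    have e1 : (tt s)⁻¹ ^ (j + 1) = tt s ^ (i + 1) := inv_pow_eq h (by omega)
    have e2 : tt s ^ ((s : ℤ) - j) * tt s ^ (s * (i + 1)) = tt s ^ (i + 1) * tt s ^ (s * i) := by
      rw [← zpow_natCast, ← zpow_natCast, ← zpow_natCast, ← zpow_add₀ h0, ← zpow_add₀ h0]
      congr 1
      have : (j : ℤ) = 2 * s - 1 - i := by omega
      rw [this]
      push_cast
      ring
    have e3 : (tt s)⁻¹ ^ (i + 1) * tt s ^ (i + 1) = 1 := by
      rw [← mul_pow, inv_mul_cancel₀ h0, one_pow]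
    rw [e1]
    linear_combination ((1 - (tt s)⁻¹ ^ (i + 1)) * tt s ^ ((s : ℤ) - (0 : ℕ))) * e2 -
      (tt s ^ ((s : ℤ) - (0 : ℕ)) * tt s ^ (s * i)) * e3
  · rw [if_neg (by omega), if_neg (by omega), if_neg (by omega)]
    ring

lemma L1_cas_eta' (s : ℕ) (i j k : ℕ) (hs : i + j + k = 2 * s) :
    L1 (cas s (tt s)) (eta' s) i j k = cn s 0 * eta' s i j k := by
  have h := tt_prim s
  by_cases hk : k = 0
  · subst hk
    have h1 := cas_uu_zero h 0 i j (by omega)
    rw [cc_cn] at h1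
    have e1 : L2 (cas s (tt s)) (uu s (tt s) 0) 0 i j = L1 (cas s (tt s)) (eta' s) i j 0 := by
      unfold L1 L2
      congr 1
    have e2 : uu s (tt s) 0 0 i j = eta' s i j 0 := by
      show eta s (tt s) 0 i j = _
      unfold eta eta'
      simp
    rw [← e1, h1, e2]
  · unfold L1 M eta'
    simp [hk]

lemma crd_smul {s : ℕ} {Y Z : Arr} {a : ℂ} (hYZ : ∀ i j k, i + j + k = 2 * s → Y i j k =
    a * Z i j k) : crd s Y = fun k => a * crd s Z k := by
  funext k
  unfold crd xi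
  rw [HH_congr (fun _ _ _ _ => rfl) hYZ, HH_smul_right]
  ring

lemma gg_ne {s k : ℕ} (h0 : 0 < k) (hk : k ≤ 2 * s) : gg s k ≠ 0 := by
  intro hc
  obtain ⟨k, rfl⟩ : ∃ k', k = k' + 1 := ⟨k - 1, by omega⟩
  have h := fS_gg s k
  rw [hc, zero_mul] at h
  have h2 : fS (2 * s + 1) (k + 1) ^ 2 = 0 := by exact_mod_cast h
  exact (fS_sq_pos hk).ne' h2

lemma crd_eta'_lt (s : ℕ) : ∀ d : ℕ, ∀ k : Fin (2 * s + 1), (k : ℕ) + d + 1 = 2 * s →
    crd s (eta' s) k = 0 := by
  have h1 : (DD s).mulVec (crd s (eta' s)) = fun k => cn s 0 * crd s (eta' s) k := by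
    rw [← crd_L1_cas, crd_smul (L1_cas_eta' s)]
  have h2 : ∀ k : Fin (2 * s + 1), cn s k * crd s (eta' s) k +
      (if h : 0 < (k : ℕ) then gg s k * crd s (eta' s) ⟨k - 1, by omega⟩ else 0) =
      cn s 0 * crd s (eta' s) k := by
    intro k
    have h3 := congrFun h1 k
    rw [← h3, DD_mulVec]
  intro d
  induction d with
  | zero =>
    intro k hk
    have h3 := h2 ⟨2 * s, by omega⟩
    simp only at h3
    rw [dif_pos (by omega)] at h3
    have e1 : cn s (2 * s) = cn s 0 := by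
      have := cn_refl (s := s) (k := 0) (by omega)
      rwa [Nat.sub_zero] at this
    rw [e1] at h3
    have e2 : (⟨2 * s - 1, by omega⟩ : Fin (2 * s + 1)) = k := Fin.ext (by simp only; omega)
    rw [e2] at h3
    have h4 : gg s (2 * s) * crd s (eta' s) k = 0 := by linear_combination h3
    rcases mul_eq_zero.mp h4 with h5 | h5
    · exact absurd h5 (gg_ne (by omega) le_rfl)
    · exact h5
  | succ d ih =>
    intro k hk
    have h3 := h2 ⟨k + 1, by omega⟩
    simp only at h3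
    rw [dif_pos (by omega), ih ⟨k + 1, by omega⟩ (by simp only; omega)] at h3
    have e2 : (⟨(k : ℕ) + 1 - 1, by omega⟩ : Fin (2 * s + 1)) = k := Fin.ext (by simp)
    rw [e2] at h3
    have h4 : gg s (k + 1) * crd s (eta' s) k = 0 := by linear_combination h3
    rcases mul_eq_zero.mp h4 with h5 | h5
    · exact absurd h5 (gg_ne (by omega) (by omega))
    · exact h5

lemma uu_coord (s k : ℕ) (hk : k ≤ 2 * s) : uu s (tt s) k k (2 * s - k) 0 =
    qf (tt s) k ^ 2 * tt s ^ (s * (2 * s)) := by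
  have h := tt_prim s
  induction k with
  | zero =>
    show eta s (tt s) 0 (2 * s - 0) 0 = _
    unfold eta
    rw [if_pos rfl, Nat.sub_zero, qf_zero, one_pow, one_mul]
  | succ k ih =>
    rw [uu_coord_succ h hk, ih (by omega), qf_succ]
    ring

theorem crd_eta' (s : ℕ) : crd s (eta' s) = ev s (2 * s) := by
  have h := tt_prim s
  have hlt : ∀ k : Fin (2 * s + 1), (k : ℕ) < 2 * s → crd s (eta' s) k = 0 := fun k hk =>
    crd_eta'_lt s (2 * s - 1 - k) k (by omega)
  -- expansion in the basis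
  have h1 := expand h (HW_eta' s) (2 * s) 0 0 (by omega)
  simp only [lc] at h1
  rw [Finset.sum_eq_single (2 * s)] at h1
  · rw [show (0 : ℕ) = 2 * s - 2 * s by omega] at h1
    have h2 := uu_coord s (2 * s) le_rfl
    rw [show (2 * s - 2 * s : ℕ) = 0 by omega] at h2 h1
    rw [h2, VC.qf_last] at h1
    have e1 : eta' s (2 * s) 0 0 = tt s ^ (s * (2 * s)) := by
      unfold eta'
      rw [if_pos rfl]
    rw [e1] at h1
    have h0 : tt s ^ (s * (2 * s)) ≠ 0 := pow_ne_zero _ (h.ne_zero (by omega))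
    have hn : ((2 * s + 1 : ℕ) : ℂ) ≠ 0 := DT.nn_ne s
    have hq : qq s (2 * s) = ((2 * s + 1 : ℕ) : ℂ) ^ 2 := by
      unfold qq
      rw [VC.qf_last]
      rw [Complex.norm_natCast]
      push_cast
      ring
    have e2 : xi s (tt s) (2 * s) (eta' s) = qq s (2 * s) := by
      rw [NN_qq, hq] at h1
      rw [hq]
      field_simp at h1
      exact h1.symm
    funext k
    unfold ev
    have hk := k.isLt
    by_cases hk2 : (k : ℕ) = 2 * s
    · rw [if_pos hk2]
      unfold crd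
      rw [hk2, e2, div_self (qq_ne (by omega))]
    · rw [if_neg hk2]
      exact hlt k (by omega)
  · intro m hm hm2
    rw [mem_range] at hm
    have h5 := hlt ⟨m, hm⟩ (by simp only; omega)
    unfold crd at h5
    have n1 := qq_ne (s := s) (k := m) (by omega)
    rw [div_eq_zero_iff] at h5
    rcases h5 with h6 | h6
    · rw [h6]
      ring
    · exact absurd h6 n1
  · intro hc
    exact absurd (mem_range.mpr (by omega)) hc

/-- the trace functional -/
theorem trace_crd {s : ℕ} {Y : Arr} (hY : HW s (tt s) Y) :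
    ∑ p ∈ AD (2 * s), star (tt s ^ (s * p.2)) * Y 0 p.1 p.2 = crd s Y (Fin.last (2 * s)) := by
  have h := tt_prim s
  have h1 := parseval h (X := eta' s) hY
  have h2 : HH (2 * s) (eta' s) Y = ∑ p ∈ AD (2 * s), star (tt s ^ (s * p.2)) * Y 0 p.1 p.2 := by
    unfold HH
    rw [Finset.sum_eq_single (0, 2 * s)]
    · refine Finset.sum_congr rfl fun q _ => ?_
      unfold eta'
      rw [if_pos rfl]
    · intro p hp hp2
      rw [mem_AD] at hp
      have hp1 : p.1 ≠ 0 := by
        intro hc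
        apply hp2
        ext
        · exact hc
        · simp only; omega
      refine Finset.sum_eq_zero fun q _ => ?_
      unfold eta'
      rw [if_neg hp1]
      simp
    · intro hc
      exact absurd (mem_AD.mpr (by simp)) hc
  rw [← h2, h1, Finset.sum_eq_single (2 * s)]
  · have e1 := congrFun (crd_eta' s) (Fin.last (2 * s))
    unfold ev crd at e1
    rw [Fin.val_last, if_pos rfl, div_eq_one_iff_eq (qq_ne (by omega))] at e1
    unfold crd
    rw [Fin.val_last, e1, NN_qq, star_qq]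
    have n1 := qq_ne (s := s) (k := 2 * s) (by omega)
    field_simp
  · intro m hm hm2
    rw [mem_range] at hm
    have e1 := congrFun (crd_eta' s) ⟨m, hm⟩
    unfold ev crd at e1
    simp only at e1
    rw [if_neg hm2, div_eq_zero_iff] at e1
    rcases e1 with e2 | e2
    · rw [e2]
      simp
    · exact absurd e2 (qq_ne (by omega))
  · intro hc
    exact absurd (mem_range.mpr (by omega)) hc

end Pool.Agent.Work.MP_b30479_gt.GA
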