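import Pool.Agent.Work.MP_b30479_gt.GA.Lam
import Pool.Agent.Work.MP_b30479_gt.Arbor
import Pool.Agent.Work.MP_b30479_gt.LT.CoreG

/-!
# The integral formula for trees
-/

namespace Pool.Agent.Work.MP_b30479_gt.GA

open Finset VOL AX MeasureTheory
open Pool.Agent.Work.MP_b30479_gt.LT
open Polynomial (X C aeval eval)

/-! ### products over a disjoint union -/

section
variable {α β : Type*} [Fintype α] [Fintype β]

omit [Fintype α] [Fintype β] in
lemma cube_preimage : (MeasurableEquiv.sumPiEquivProdPi fun _ : α ⊕ β => ℝ) ⁻¹'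
    (cube α ×ˢ cube β) = cube (α ⊕ β) := by
  ext σ
  simp only [cube, Set.mem_preimage, Set.mem_prod, Set.mem_pi, Set.mem_univ, forall_true_left,
    Sum.forall]
  rfl

lemma cube_split (F : (α → ℝ) → ℂ) (G : (β → ℝ) → ℂ) :
    ∫ σ in cube (α ⊕ β), F (fun a => σ (Sum.inl a)) * G (fun b => σ (Sum.inr b)) =
      (∫ σ in cube α, F σ) * ∫ σ in cube β, G σ := by
  have h := volume_measurePreserving_sumPiEquivProdPi fun _ : α ⊕ β => ℝ
  have h1 := h.setIntegral_preimage_emb
    (MeasurableEquiv.sumPiEquivProdPi fun _ : α ⊕ β => ℝ).measurableEmbedding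
    (fun p : (α → ℝ) × (β → ℝ) => F p.1 * G p.2) (cube α ×ˢ cube β)
  rw [cube_preimage] at h1
  rw [← setIntegral_prod_mul, ← Measure.volume_eq_prod]
  exact h1

lemma cube_integrable {F : (α → ℝ) → ℂ} {G : (β → ℝ) → ℂ} (hF : IntegrableOn F (cube α))
    (hG : IntegrableOn G (cube β)) :
    IntegrableOn (fun σ => F (fun a => σ (Sum.inl a)) * G (fun b => σ (Sum.inr b)))
      (cube (α ⊕ β)) := by
  have h := volume_measurePreserving_sumPiEquivProdPi fun _ : α ⊕ β => ℝ
  have h1 := h.integrableOn_comp_preimage (f := fun p : (α → ℝ) × (β → ℝ) => F p.1 * G p.2)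
    (s := cube α ×ˢ cube β)
    (MeasurableEquiv.sumPiEquivProdPi fun _ : α ⊕ β => ℝ).measurableEmbedding
  rw [cube_preimage] at h1
  refine h1.mpr ?_
  unfold IntegrableOn
  rw [Measure.volume_eq_prod, ← Measure.prod_restrict]
  exact hF.mul_prod hG

end

/-! ### coordinate vectors of trees -/

/-- the polynomial of a coordinate vector -/
noncomputable def pol (s : ℕ) (w : Fin (2 * s + 1) → ℂ) : Polynomial ℂ :=
  ∑ v : Fin (2 * s + 1), C (w v) * Ny s v

/-- the coordinate vector of a tree -/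
noncomputable def wv (s : ℕ) : ArbTree → (Fin (2 * s + 1) → ℂ)
  | .twist b => (Pb s b).mulVec (ev s 0)
  | .attach T U => (aeval (DD s) (pol s (wv s T))).mulVec (fun k => wv s U (Fin.rev k))

lemma aeval_pol {s : ℕ} (w : Fin (2 * s + 1) → ℂ) :
    (aeval (DD s) (pol s w)).mulVec (ev s 0) = w := by
  unfold pol
  rw [map_sum, Matrix.sum_mulVec]
  funext k
  rw [Finset.sum_apply, Finset.sum_eq_single k]
  · have hk := k.isLt
    rw [map_mul, Polynomial.aeval_C, Algebra.algebraMap_eq_smul_one, smul_mul_assoc, one_mul,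
      Matrix.smul_mulVec, aeval_Ny_ev (by omega)]
    simp [ev]
  · intro v _ hv
    have hv' := v.isLt
    rw [map_mul, Polynomial.aeval_C, Algebra.algebraMap_eq_smul_one, smul_mul_assoc, one_mul,
      Matrix.smul_mulVec, aeval_Ny_ev (by omega)]
    have : (k : ℕ) ≠ v := fun hc => hv (Fin.ext hc.symm)
    simp [ev, this]
  · intro hc
    exact absurd (Finset.mem_univ _) hc

/-- the last entry of `A w` -/
lemma last_coord {s u : ℕ} (hu : u ≤ 2 * s) (w : Fin (2 * s + 1) → ℂ) :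
    (aeval (DD s) (Ny s u)).mulVec w (Fin.last (2 * s)) = w ⟨2 * s - u, by omega⟩ := by
  unfold Matrix.mulVec dotProduct
  beta_reduce
  rw [Finset.sum_eq_single ⟨2 * s - u, by omega⟩]
  · rw [last_Ny hu]
    simp only
    rw [if_pos (by omega), one_mul]
  · intro k _ hk
    have : (k : ℕ) ≠ 2 * s - u := fun hc => hk (Fin.ext hc)
    rw [last_Ny hu, if_neg (by omega), zero_mul]
  · intro hc
    exact absurd (Finset.mem_univ _) hc

/-- the polynomial of the rotated tangle -/
lemma pe_pol_rev {s : ℕ} (w : Fin (2 * s + 1) → ℂ) (z : ℂ) :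
    pe (pol s (fun k => w (Fin.rev k))) z = ∑ y : Fin (2 * s + 1),
      ((1 / fS (2 * s + 1) y ^ 4 : ℝ) : ℂ) * PP (2 * s + 1) y z *
        (aeval (DD s) (Np s y)).mulVec w (Fin.last (2 * s)) := by
  unfold pe pol
  rw [Polynomial.eval_finsetSum]
  refine Finset.sum_congr rfl fun y _ => ?_
  have hy := y.isLt
  have h := fS_sq_pos (s := s) (y := y) (by omega)
  rw [Polynomial.eval_mul, Polynomial.eval_C, Ny, Polynomial.eval_mul, Polynomial.eval_C, Np_eval,
    Np_Ny s y (by omega), map_smul, Matrix.smul_mulVec, Pi.smul_apply, last_coord (by omega),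
    smul_eq_mul]
  have e1 : Fin.rev y = ⟨2 * s - y, by omega⟩ := by
    apply Fin.ext
    rw [Fin.val_rev]
    simp only
    omega
  have e2 : ((1 / fS (2 * s + 1) y ^ 4 : ℝ) : ℂ) * ((fS (2 * s + 1) y ^ 2 : ℝ) : ℂ) =
      ((1 / fS (2 * s + 1) y ^ 2 : ℝ) : ℂ) := by
    rw [← Complex.ofReal_mul]
    congr 1
    field_simp
  beta_reduce
  rw [e1, ← e2]
  ring

lemma SS_eq (s : ℕ) (z z' : ℂ) : SS (2 * s + 1) z z' = ∑ y : Fin (2 * s + 1),
    ((1 / fS (2 * s + 1) y ^ 4 : ℝ) : ℂ) * PP (2 * s + 1) y z * PP (2 * s + 1) y z' := by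
  unfold SS
  rw [← Fin.sum_univ_eq_sum_range (fun y => term (2 * s + 1) y z z')]
  refine Finset.sum_congr rfl fun y _ => ?_
  unfold term
  push_cast
  ring

/-! ### the integrand of a tree -/

/-- the integrand of the tree `T` with the factor `φ` at the root -/
noncomputable def ig (s : ℕ) (T : ArbTree) (ρ : T.V → ℝ) (φ : ℂ → ℂ) (σ : T.V → ℝ) : ℂ :=
  igG (2 * s + 1) T.src T.tgt T.weight (fun v => zt (ρ v)) (fun v => dzt (ρ v)) σ *
    φ (zt (ρ T.root) (σ T.root))

/-- product of the constants -/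
noncomputable def kT (s : ℕ) : ArbTree → ℂ
  | .twist b => kc s b
  | .attach T U => kT s T * kT s U

lemma ig_tw (s : ℕ) (b : ℤ) (ρ : (ArbTree.twist b).V → ℝ) (φ : ℂ → ℂ) (σ : (ArbTree.twist b).V → ℝ) :
    ig s (.twist b) ρ φ σ = EE (2 * s + 1) b (ρ ()) (σ ()) * φ (zt (ρ ()) (σ ())) := by
  unfold ig igG
  have e1 : (∏ v : (ArbTree.twist b).V, Ec (2 * s + 1) ((ArbTree.twist b).weight v) (zt (ρ v) (σ v)) *
      dzt (ρ v) (σ v)) = EE (2 * s + 1) b (ρ ()) (σ ()) :=
    Fintype.prod_unique (ι := Unit) (fun v => Ec (2 * s + 1) b (zt (ρ v) (σ v)) *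
      dzt (ρ v) (σ v))
  have e2 : (∏ e : (ArbTree.twist b).E, SS (2 * s + 1)
      (zt (ρ ((ArbTree.twist b).src e)) (σ ((ArbTree.twist b).src e)))
      (zt (ρ ((ArbTree.twist b).tgt e)) (σ ((ArbTree.twist b).tgt e)))) = 1 :=
    Fintype.prod_empty (ι := Empty) _
  rw [e1, e2, mul_one]
  rfl

lemma ig_att (s : ℕ) (T U : ArbTree) (ρ : (ArbTree.attach T U).V → ℝ) (φ : ℂ → ℂ)
    (σ : (ArbTree.attach T U).V → ℝ) :
    ig s (.attach T U) ρ φ σ = ∑ y : Fin (2 * s + 1), ((1 / fS (2 * s + 1) y ^ 4 : ℝ) : ℂ) *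
      (ig s T (fun v => ρ (Sum.inl v)) (fun z => φ z * PP (2 * s + 1) y z)
        (fun v => σ (Sum.inl v)) *
      ig s U (fun v => ρ (Sum.inr v)) (PP (2 * s + 1) y) (fun v => σ (Sum.inr v))) := by
  unfold ig igG
  have e1 : (∏ v : (ArbTree.attach T U).V, Ec (2 * s + 1) ((ArbTree.attach T U).weight v) (zt (ρ v) (σ v)) *
      dzt (ρ v) (σ v)) =
      (∏ v : T.V, Ec (2 * s + 1) (T.weight v) (zt (ρ (Sum.inl v)) (σ (Sum.inl v))) *
        dzt (ρ (Sum.inl v)) (σ (Sum.inl v))) *
      ∏ v : U.V, Ec (2 * s + 1) (U.weight v) (zt (ρ (Sum.inr v)) (σ (Sum.inr v))) *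
        dzt (ρ (Sum.inr v)) (σ (Sum.inr v)) :=
    Fintype.prod_sum_type (α₁ := T.V) (α₂ := U.V) (fun v =>
      Ec (2 * s + 1) ((ArbTree.attach T U).weight v) (zt (ρ v) (σ v)) * dzt (ρ v) (σ v))
  have e2 : (∏ e : (ArbTree.attach T U).E, SS (2 * s + 1)
      (zt (ρ ((ArbTree.attach T U).src e)) (σ ((ArbTree.attach T U).src e)))
      (zt (ρ ((ArbTree.attach T U).tgt e)) (σ ((ArbTree.attach T U).tgt e)))) =
      SS (2 * s + 1) (zt (ρ (Sum.inl T.root)) (σ (Sum.inl T.root)))
        (zt (ρ (Sum.inr U.root)) (σ (Sum.inr U.root))) *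
      ((∏ e : T.E, SS (2 * s + 1) (zt (ρ (Sum.inl (T.src e))) (σ (Sum.inl (T.src e))))
        (zt (ρ (Sum.inl (T.tgt e))) (σ (Sum.inl (T.tgt e))))) *
      ∏ e : U.E, SS (2 * s + 1) (zt (ρ (Sum.inr (U.src e))) (σ (Sum.inr (U.src e))))
        (zt (ρ (Sum.inr (U.tgt e))) (σ (Sum.inr (U.tgt e))))) := by
    refine (Fintype.prod_option (α := T.E ⊕ U.E) (fun e => SS (2 * s + 1)
      (zt (ρ ((ArbTree.attach T U).src e)) (σ ((ArbTree.attach T U).src e)))
      (zt (ρ ((ArbTree.attach T U).tgt e)) (σ ((ArbTree.attach T U).tgt e))))).trans ?_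
    congr 1
    exact Fintype.prod_sum_type (α₁ := T.E) (α₂ := U.E) (fun e => SS (2 * s + 1)
      (zt (ρ ((ArbTree.attach T U).src (some e))) (σ ((ArbTree.attach T U).src (some e))))
      (zt (ρ ((ArbTree.attach T U).tgt (some e))) (σ ((ArbTree.attach T U).tgt (some e)))))
  rw [e1, e2, SS_eq, Finset.sum_mul, Finset.mul_sum, Finset.sum_mul]
  refine Finset.sum_congr rfl fun y _ => ?_
  rw [show (ArbTree.attach T U).root = Sum.inl T.root from rfl]
  ring

/-! ### one vertex -/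

lemma cube_unit_integral (f : ℝ → ℂ) :
    ∫ σ in cube Unit, f (σ ()) = ∫ x in Set.Icc (-(1 / 2) : ℝ) (1 / 2), f x := by
  have h := volume_preserving_funUnique Unit ℝ
  have h1 := h.setIntegral_preimage_emb (MeasurableEquiv.funUnique Unit ℝ).measurableEmbedding
    f (Set.Icc (-(1 / 2) : ℝ) (1 / 2))
  have e : (MeasurableEquiv.funUnique Unit ℝ) ⁻¹' (Set.Icc (-(1 / 2) : ℝ) (1 / 2)) =
      cube Unit := by
    ext σ
    simp only [cube, Set.mem_preimage, Set.mem_pi, Set.mem_univ, forall_true_left]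
    exact ⟨fun h _ => h, fun h => h ()⟩
  rw [e] at h1
  exact h1

lemma cube_unit_integrable {f : ℝ → ℂ} (hf : IntegrableOn f (Set.Icc (-(1 / 2) : ℝ) (1 / 2))) :
    IntegrableOn (fun σ : Unit → ℝ => f (σ ())) (cube Unit) := by
  have h := volume_preserving_funUnique Unit ℝ
  have h1 := h.integrableOn_comp_preimage (f := f) (s := Set.Icc (-(1 / 2) : ℝ) (1 / 2))
    (MeasurableEquiv.funUnique Unit ℝ).measurableEmbedding
  have e : (MeasurableEquiv.funUnique Unit ℝ) ⁻¹' (Set.Icc (-(1 / 2) : ℝ) (1 / 2)) =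
      cube Unit := by
    ext σ
    simp only [cube, Set.mem_preimage, Set.mem_pi, Set.mem_univ, forall_true_left]
    exact ⟨fun h _ => h, fun h => h ()⟩
  rw [e] at h1
  exact h1.mpr hf

/-! ### the formula -/

lemma ig_integrable (s : ℕ) : ∀ (T : ArbTree) (ρ : T.V → ℝ), (∀ v, 0 < ρ v) → ∀ φ : ℂ → ℂ,
    Continuous φ → IntegrableOn (ig s T ρ φ) (cube T.V)
  | .twist b, ρ, hρ, φ, hφ => by
    have h1 := cube_unit_integrable (EE_integrable (s := s) b (hρ ()) hφ)
    refine h1.congr_fun (fun σ _ => ?_) (measurableSet_cube (V := Unit))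
    exact (ig_tw s b ρ φ σ).symm
  | .attach T U, ρ, hρ, φ, hφ => by
    have h1 : IntegrableOn (fun σ : (T.V ⊕ U.V) → ℝ => ∑ y : Fin (2 * s + 1),
        ((1 / fS (2 * s + 1) y ^ 4 : ℝ) : ℂ) *
      (ig s T (fun v => ρ (Sum.inl v)) (fun z => φ z * PP (2 * s + 1) y z)
        (fun v => σ (Sum.inl v)) *
      ig s U (fun v => ρ (Sum.inr v)) (PP (2 * s + 1) y) (fun v => σ (Sum.inr v))))
        (cube (T.V ⊕ U.V)) := by
      refine integrable_finsetSum _ fun y _ => ?_
      refine Integrable.const_mul ?_ _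
      exact cube_integrable
        (ig_integrable s T (fun v => ρ (Sum.inl v)) (fun v => hρ _) _ (hφ.mul (PP_cont _ _)))
        (ig_integrable s U (fun v => ρ (Sum.inr v)) (fun v => hρ _) _ (PP_cont _ _))
    have h2 : ig s (.attach T U) ρ φ = fun σ : (T.V ⊕ U.V) → ℝ => ∑ y : Fin (2 * s + 1),
        ((1 / fS (2 * s + 1) y ^ 4 : ℝ) : ℂ) *
      (ig s T (fun v => ρ (Sum.inl v)) (fun z => φ z * PP (2 * s + 1) y z)
        (fun v => σ (Sum.inl v)) *
      ig s U (fun v => ρ (Sum.inr v)) (PP (2 * s + 1) y) (fun v => σ (Sum.inr v))) := by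
      funext σ
      exact ig_att s T U ρ φ σ
    rw [h2]
    exact h1

theorem ig_integral (s : ℕ) : ∀ (T : ArbTree) (ρ : T.V → ℝ), (∀ v, 0 < ρ v) →
    ∀ q : Polynomial ℂ, (aeval (DD s) q).mulVec (wv s T) (Fin.last (2 * s)) =
      kT s T * ∫ σ in cube T.V, ig s T ρ (pe q) σ
  | .twist b, ρ, hρ, q => by
    have h1 : ∫ σ in cube (ArbTree.twist b).V, ig s (.twist b) ρ (pe q) σ = Ig s b (ρ ()) (pe q) := by
      have h2 := cube_unit_integral (fun x => EE (2 * s + 1) b (ρ ()) x * pe q (zt (ρ ()) x))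
      unfold Ig
      rw [intervalIntegral.integral_of_le (by norm_num), ← integral_Icc_eq_integral_Ioc, ← h2]
      refine setIntegral_congr_fun (measurableSet_cube (V := Unit)) fun σ _ => ?_
      exact ig_tw s b ρ (pe q) σ
    rw [h1]
    show _ = kc s b * _
    rw [← Lam_path b (hρ ()), Lam_apply]
    have e : wv s (.twist b) = (Pb s b).mulVec (ev s 0) := rfl
    rw [e, Matrix.mulVec_mulVec, mulVec_ev (by omega)]
    rfl
  | .attach T U, ρ, hρ, q => by
    have ihT := ig_integral s T (fun v => ρ (Sum.inl v)) (fun v => hρ _)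
    have ihU := ig_integral s U (fun v => ρ (Sum.inr v)) (fun v => hρ _)
    have h1 : ∫ σ in cube (ArbTree.attach T U).V, ig s (.attach T U) ρ (pe q) σ =
        ∑ y : Fin (2 * s + 1), ((1 / fS (2 * s + 1) y ^ 4 : ℝ) : ℂ) *
        ((∫ σ in cube T.V, ig s T (fun v => ρ (Sum.inl v)) (pe (q * Np s y)) σ) *
        ∫ σ in cube U.V, ig s U (fun v => ρ (Sum.inr v)) (pe (Np s y)) σ) := by
      have h2 : ∫ σ in cube (ArbTree.attach T U).V, ig s (.attach T U) ρ (pe q) σ =
          ∫ σ in cube (T.V ⊕ U.V), ∑ y : Fin (2 * s + 1),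
          ((1 / fS (2 * s + 1) y ^ 4 : ℝ) : ℂ) *
          (ig s T (fun v => ρ (Sum.inl v)) (fun z => pe q z * PP (2 * s + 1) y z)
            (fun v => σ (Sum.inl v)) *
          ig s U (fun v => ρ (Sum.inr v)) (PP (2 * s + 1) y) (fun v => σ (Sum.inr v))) := by
        refine setIntegral_congr_fun (measurableSet_cube (V := T.V ⊕ U.V)) fun σ _ => ?_
        exact ig_att s T U ρ (pe q) σ
      rw [h2, integral_finsetSum]
      · refine Finset.sum_congr rfl fun y _ => ?_
        rw [integral_const_mul, cube_split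
          (ig s T (fun v => ρ (Sum.inl v)) (fun z => pe q z * PP (2 * s + 1) y z))
          (ig s U (fun v => ρ (Sum.inr v)) (PP (2 * s + 1) y))]
        have e1 : pe (q * Np s y) = fun z => pe q z * PP (2 * s + 1) y z := by
          funext z
          unfold pe
          rw [Polynomial.eval_mul, Np_eval]
        have e2 : pe (Np s y) = PP (2 * s + 1) y := by
          funext z
          exact Np_eval s y z
        rw [e1, e2]
      · intro y _
        refine Integrable.const_mul ?_ _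
        exact cube_integrable
          (ig_integrable s T (fun v => ρ (Sum.inl v)) (fun v => hρ _) _
            ((pe_continuous q).mul (PP_cont _ _)))
          (ig_integrable s U (fun v => ρ (Sum.inr v)) (fun v => hρ _) _ (PP_cont _ _))
    rw [h1, Finset.mul_sum]
    have h3 : ∀ y : Fin (2 * s + 1), kT s (.attach T U) * (((1 / fS (2 * s + 1) y ^ 4 : ℝ) : ℂ) *
        ((∫ σ in cube T.V, ig s T (fun v => ρ (Sum.inl v)) (pe (q * Np s y)) σ) *
        ∫ σ in cube U.V, ig s U (fun v => ρ (Sum.inr v)) (pe (Np s y)) σ)) =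
        (aeval (DD s) (q * Ny s y)).mulVec (wv s T) (Fin.last (2 * s)) * wv s U (Fin.rev y) := by
      intro y
      have hy := y.isLt
      have h := fS_sq_pos (s := s) (y := y) (by omega)
      have e1 := ihT (q * Np s y)
      have e2 := ihU (Np s y)
      have e3 : Fin.rev y = ⟨2 * s - y, by omega⟩ := by
        apply Fin.ext
        rw [Fin.val_rev]
        simp only
        omega
      rw [e3, ← last_coord (by omega) (wv s U)]
      have e4 : aeval (DD s) (Np s y) = ((fS (2 * s + 1) y ^ 2 : ℝ) : ℂ) •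
          aeval (DD s) (Ny s y) := by
        rw [Np_Ny s y (by omega), map_smul]
      have e5 : aeval (DD s) (q * Np s y) = ((fS (2 * s + 1) y ^ 2 : ℝ) : ℂ) •
          aeval (DD s) (q * Ny s y) := by
        rw [Np_Ny s y (by omega), mul_smul_comm, map_smul]
      rw [e4, Matrix.smul_mulVec, Pi.smul_apply, smul_eq_mul] at e2
      rw [e5, Matrix.smul_mulVec, Pi.smul_apply, smul_eq_mul] at e1
      have e6 : ((1 / fS (2 * s + 1) y ^ 4 : ℝ) : ℂ) * (((fS (2 * s + 1) y ^ 2 : ℝ) : ℂ) *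
          ((fS (2 * s + 1) y ^ 2 : ℝ) : ℂ)) = 1 := by
        have h' : fS (2 * s + 1) y ≠ 0 := (fS_pos (by omega)).ne'
        rw [← Complex.ofReal_mul, ← Complex.ofReal_mul, ← Complex.ofReal_one]
        congr 1
        field_simp
      have e7 : kT s (.attach T U) = kT s T * kT s U := rfl
      rw [e7]
      calc _ = ((1 / fS (2 * s + 1) y ^ 4 : ℝ) : ℂ) *
          (kT s T * ∫ σ in cube T.V, ig s T (fun v => ρ (Sum.inl v)) (pe (q * Np s y)) σ) *
          (kT s U * ∫ σ in cube U.V, ig s U (fun v => ρ (Sum.inr v)) (pe (Np s y)) σ) := by ring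
        _ = _ := by
          rw [← e1, ← e2]
          linear_combination ((aeval (DD s) (q * Ny s y)).mulVec (wv s T) (Fin.last (2 * s)) *
            (aeval (DD s) (Ny s y)).mulVec (wv s U) (Fin.last (2 * s))) * e6
    rw [Finset.sum_congr rfl fun y _ => h3 y]
    set x : Fin (2 * s + 1) → ℂ := fun k => wv s U (Fin.rev k) with hx
    have e1 : wv s (.attach T U) = (aeval (DD s) (pol s (wv s T))).mulVec x := rfl
    have e2 : (aeval (DD s) (pol s (wv s T))).mulVec x = (aeval (DD s) (pol s x)).mulVec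
        (wv s T) := by
      conv_lhs => rw [← aeval_pol x]
      conv_rhs => rw [← aeval_pol (wv s T)]
      rw [Matrix.mulVec_mulVec, Matrix.mulVec_mulVec, ← map_mul, ← map_mul,
        mul_comm (pol s (wv s T)) (pol s x)]
    rw [e1, e2, Matrix.mulVec_mulVec, ← map_mul, pol, Finset.mul_sum, map_sum,
      Matrix.sum_mulVec, Finset.sum_apply]
    refine Finset.sum_congr rfl fun y _ => ?_
    rw [show q * (C (x y) * Ny s y) = C (x y) * (q * Ny s y) by ring, map_mul,
      Polynomial.aeval_C, Algebra.algebraMap_eq_smul_one, smul_mul_assoc, one_mul,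
      Matrix.smul_mulVec, Pi.smul_apply, smul_eq_mul, mul_comm]

/-- **The integral formula.** -/
theorem tree_integral (s : ℕ) (T : ArbTree) {ρ : T.V → ℝ} (hρ : ∀ v, 0 < ρ v) :
    wv s T (Fin.last (2 * s)) = kT s T *
      IG (2 * s + 1) T.src T.tgt T.weight (fun v => zt (ρ v)) (fun v => dzt (ρ v)) := by
  have h1 := ig_integral s T ρ hρ 1
  rw [map_one, Matrix.one_mulVec] at h1
  rw [h1]
  congr 1
  unfold IG
  congr 1
  funext σ
  unfold ig pe
  rw [Polynomial.eval_one, mul_one]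

/-- the constant -/
theorem kT_eq (s : ℕ) : ∀ T : ArbTree, kT s T =
    Complex.exp (Real.pi * Complex.I * (∑ v, T.weight v : ℤ) * s ^ 2 / ((2 * s + 1 : ℕ) : ℂ)) *
      (Complex.I * ((2 * s + 1 : ℕ) : ℂ) ^ 2 / 2) ^ Fintype.card T.V
  | .twist b => by
    have e1 : (∑ v : (ArbTree.twist b).V, (ArbTree.twist b).weight v : ℤ) = b :=
      Fintype.sum_unique (ι := Unit) fun _ => b
    have e2 : Fintype.card (ArbTree.twist b).V = 1 := Fintype.card_unit
    rw [e1, e2, pow_one]
    rfl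
  | .attach T U => by
    have e1 : (∑ v : (ArbTree.attach T U).V, (ArbTree.attach T U).weight v : ℤ) =
        (∑ v : T.V, T.weight v) + ∑ v : U.V, U.weight v :=
      Fintype.sum_sum_type (α₁ := T.V) (α₂ := U.V) fun v => (ArbTree.attach T U).weight v
    have e2 : Fintype.card (ArbTree.attach T U).V = Fintype.card T.V + Fintype.card U.V :=
      Fintype.card_sum (α := T.V) (β := U.V)
    have e3 : kT s (.attach T U) = kT s T * kT s U := rfl
    rw [e1, e2, e3, kT_eq s T, kT_eq s U, pow_add]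
    push_cast
    rw [show (Real.pi : ℂ) * Complex.I * ((∑ v : T.V, (T.weight v : ℂ)) + ∑ v : U.V, (U.weight v : ℂ)) *
      s ^ 2 / (2 * s + 1) = Real.pi * Complex.I * (∑ v : T.V, (T.weight v : ℂ)) * s ^ 2 /
      (2 * s + 1) + Real.pi * Complex.I * (∑ v : U.V, (U.weight v : ℂ)) * s ^ 2 / (2 * s + 1) by ring,
      Complex.exp_add]
    ring

end Pool.Agent.Work.MP_b30479_gt.GA
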