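import Pool.Agent.Work.MP_b30479_gt.GA.Ratio
import Pool.Agent.Work.MP_b30479_gt.GA.TreeInt
import Pool.Agent.Work.MP_b30479_gt.LT.GLoc

/-!
# The limit of the ratios for weighted trees
-/

namespace Pool.Agent.Work.MP_b30479_gt.GA

open Finset MeasureTheory Filter Topology
open Pool.Agent.Work.MP_b30479_gt.LT

/-- The limit of the ratios, from the value `wv s T (last)` of the tree. -/
theorem main_tree (T : ArbTree) (hB : BigG T.src T.tgt T.weight) {W : ℤ}
    (hW : Even (W - ∑ v, T.weight v)) {J : ℕ → ℂ}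
    (hJ : ∀ s : ℕ, 1 ≤ s → J s = Complex.exp (-(2 * Real.pi * Complex.I * W * (s * (s + 1)) /
      ((2 * s + 1 : ℕ) : ℂ))) * wv s T (Fin.last (2 * s)))
    {y : T.E → ℂ} {ζ : T.V → ℂ} (hc : CritG T.src T.tgt T.weight y ζ) (hd : SadDomG T.weight y ζ) :
    (∀ᶠ s : ℕ in atTop, J s ≠ 0) ∧ Tendsto (fun s : ℕ => J (s + 1) / J s) atTop
      (𝓝 ((-Complex.I) ^ (∑ v, T.weight v) *
        Complex.exp (2 * TG T.src T.tgt T.weight y ζ))) := by
  obtain ⟨him, L, hL, hX⟩ := main_G hB hc hd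
  refine ratio_of_limit (N := Fintype.card T.V) hW (fun s hs => ?_) hL hX
  rw [hJ s hs, tree_integral s T him, kT_eq, phs]
  push_cast
  ring

end Pool.Agent.Work.MP_b30479_gt.GA
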