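import Pool.Agent.Work.MP_b30479_gt.LT.Exact

/-!
# The functional `Lam` and its integral representation
-/

namespace Pool.Agent.Work.MP_b30479_gt.GA

open Finset VOL AX MeasureTheory
open Pool.Agent.Work.MP_b30479_gt.LT
open Polynomial (X C aeval eval)

/-- the eigenvalues of the Casimir operator -/
noncomputable def cn (s l : ℕ) : ℂ :=
  -((2 * Real.cos (2 * Real.pi * (l + 1 / 2) / (2 * s + 1 : ℕ)) : ℝ) : ℂ)

/-- the subdiagonal entries -/
noncomputable def gg (s k : ℕ) : ℂ := (((2 * Real.sin (Real.pi * k / (2 * s + 1 : ℕ))) ^ 2 : ℝ) : ℂ)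

/-- the matrix of the Casimir operator of the first two factors -/
noncomputable def DD (s : ℕ) : Matrix (Fin (2 * s + 1)) (Fin (2 * s + 1)) ℂ := fun k j =>
  if (k : ℕ) = j then cn s k else if (k : ℕ) = j + 1 then gg s k else 0

/-- the node polynomials -/
noncomputable def Np (s y : ℕ) : Polynomial ℂ := ∏ l ∈ range y, (X - C (cn s l))

/-- the normalised node polynomials -/
noncomputable def Ny (s y : ℕ) : Polynomial ℂ := C (((1 / fS (2 * s + 1) y ^ 2 : ℝ)) : ℂ) * Np s y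

lemma Np_succ (s y : ℕ) : Np s (y + 1) = Np s y * (X - C (cn s y)) := by
  unfold Np
  rw [Finset.prod_range_succ]

lemma Np_zero (s : ℕ) : Np s 0 = 1 := by simp [Np]

lemma fS_sq_pos {s y : ℕ} (hy : y ≤ 2 * s) : 0 < fS (2 * s + 1) y ^ 2 :=
  pow_pos (fS_pos (by omega)) 2

lemma fS_gg (s y : ℕ) : ((fS (2 * s + 1) (y + 1) ^ 2 : ℝ) : ℂ) =
    gg s (y + 1) * ((fS (2 * s + 1) y ^ 2 : ℝ) : ℂ) := by
  unfold gg fS
  rw [← Complex.ofReal_mul]
  congr 1
  rw [Finset.prod_range_succ]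
  push_cast
  ring

lemma Np_eval (s y : ℕ) (ζ : ℂ) :
    (Np s y).eval (2 * Complex.cos (2 * Real.pi * ζ)) = PP (2 * s + 1) y ζ := by
  unfold Np PP cn
  rw [Polynomial.eval_prod]
  refine Finset.prod_congr rfl fun l _ => ?_
  rw [Polynomial.eval_sub, Polynomial.eval_X, Polynomial.eval_C, sub_neg_eq_add]

/-! ### the vectors `Np_y(D) e_0` -/

/-- the basis vectors; zero beyond the last one -/
noncomputable def ev (s y : ℕ) : Fin (2 * s + 1) → ℂ := fun k => if (k : ℕ) = y then 1 else 0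

lemma ev_top {s y : ℕ} (hy : 2 * s < y) : ev s y = 0 := by
  funext k
  have := k.isLt
  unfold ev
  rw [if_neg (by omega)]
  rfl

lemma DD_ev {s y : ℕ} (hy : y ≤ 2 * s) :
    (DD s).mulVec (ev s y) = fun k => cn s y * ev s y k + gg s (y + 1) * ev s (y + 1) k := by
  funext k
  have hk := k.isLt
  have e1 : (DD s).mulVec (ev s y) k = DD s k ⟨y, by omega⟩ := by
    unfold Matrix.mulVec dotProduct
    rw [Finset.sum_eq_single ⟨y, by omega⟩]
    · simp [ev]
    · intro j _ hj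
      have : (j : ℕ) ≠ y := fun hc => hj (Fin.ext hc)
      simp [ev, this]
    · intro hc
      exact absurd (Finset.mem_univ _) hc
  rw [e1]
  unfold DD ev
  simp only
  by_cases h1 : (k : ℕ) = y
  · rw [if_pos h1, if_pos h1, if_neg (by omega), h1]
    ring
  · rw [if_neg h1, if_neg h1]
    by_cases h2 : (k : ℕ) = y + 1
    · rw [if_pos h2, if_pos h2, h2]
      ring
    · rw [if_neg h2, if_neg h2]
      ring

lemma aeval_Np_ev {s y : ℕ} (hy : y ≤ 2 * s + 1) :
    (aeval (DD s) (Np s y)).mulVec (ev s 0) = fun k =>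
      ((fS (2 * s + 1) y ^ 2 : ℝ) : ℂ) * ev s y k := by
  induction y with
  | zero =>
    rw [Np_zero, map_one, Matrix.one_mulVec]
    funext k
    simp [fS]
  | succ y ih =>
    rw [Np_succ, mul_comm (Np s y), map_mul, ← Matrix.mulVec_mulVec, ih (by omega)]
    have e1 : (fun k => ((fS (2 * s + 1) y ^ 2 : ℝ) : ℂ) * ev s y k) =
        ((fS (2 * s + 1) y ^ 2 : ℝ) : ℂ) • ev s y := by
      funext k
      simp
    rw [e1, Matrix.mulVec_smul, map_sub, Polynomial.aeval_X, Polynomial.aeval_C,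
      Matrix.sub_mulVec, DD_ev (by omega)]
    funext k
    rw [fS_gg]
    simp only [Pi.smul_apply, Pi.sub_apply, smul_eq_mul]
    rw [Algebra.algebraMap_eq_smul_one, Matrix.smul_mulVec, Matrix.one_mulVec]
    simp only [Pi.smul_apply, smul_eq_mul]
    ring

lemma fS_full (s : ℕ) : fS (2 * s + 1) (2 * s + 1) = 0 := by
  unfold fS
  rw [Finset.prod_range_succ]
  have : Real.sin (Real.pi * (((2 * s : ℕ) : ℝ) + 1) / ((2 * s + 1 : ℕ) : ℝ)) = 0 := by
    have h : ((2 * s + 1 : ℕ) : ℝ) ≠ 0 := by positivity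
    have e : Real.pi * (((2 * s : ℕ) : ℝ) + 1) / ((2 * s + 1 : ℕ) : ℝ) = Real.pi := by
      push_cast at h ⊢
      field_simp
    rw [e, Real.sin_pi]
  rw [this]
  ring

/-- `Ny_y(D) e_0 = e_y` -/
lemma aeval_Ny_ev {s y : ℕ} (hy : y ≤ 2 * s) :
    (aeval (DD s) (Ny s y)).mulVec (ev s 0) = ev s y := by
  unfold Ny
  rw [map_mul, Polynomial.aeval_C, Algebra.algebraMap_eq_smul_one, smul_mul_assoc, one_mul,
    Matrix.smul_mulVec, aeval_Np_ev (by omega)]
  funext k
  have h := fS_sq_pos hy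
  simp only [Pi.smul_apply, smul_eq_mul]
  rw [← mul_assoc, ← Complex.ofReal_mul, one_div, inv_mul_cancel₀ h.ne', Complex.ofReal_one,
    one_mul]

lemma ext_ev {s : ℕ} {A B : Matrix (Fin (2 * s + 1)) (Fin (2 * s + 1)) ℂ}
    (h : ∀ y, y ≤ 2 * s → A.mulVec (ev s y) = B.mulVec (ev s y)) : A = B := by
  ext k j
  have hj := j.isLt
  have h1 := congrFun (h j (by omega)) k
  have e : ∀ M : Matrix (Fin (2 * s + 1)) (Fin (2 * s + 1)) ℂ, M.mulVec (ev s j) k = M k j := by
    intro M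
    unfold Matrix.mulVec dotProduct
    rw [Finset.sum_eq_single j]
    · simp [ev]
    · intro i _ hi
      have : (i : ℕ) ≠ j := fun hc => hi (Fin.ext hc)
      simp [ev, this]
    · intro hc
      exact absurd (Finset.mem_univ _) hc
  rwa [e, e] at h1

/-- the full node polynomial annihilates `D` -/
lemma aeval_Np_full (s : ℕ) : aeval (DD s) (Np s (2 * s + 1)) = 0 := by
  apply ext_ev
  intro y hy
  rw [← aeval_Ny_ev hy, Matrix.mulVec_mulVec, ← map_mul, mul_comm (Np s (2 * s + 1)) (Ny s y),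
    map_mul, ← Matrix.mulVec_mulVec, aeval_Np_ev le_rfl, fS_full]
  have e : (fun k => (((0 : ℝ) ^ 2 : ℝ) : ℂ) * ev s (2 * s + 1) k) = 0 := by
    funext k
    simp
  rw [e, Matrix.mulVec_zero, Matrix.zero_mulVec]

/-! ### persymmetry -/

/-- persymmetric matrices -/
def Persym {s : ℕ} (A : Matrix (Fin (2 * s + 1)) (Fin (2 * s + 1)) ℂ) : Prop :=
  ∀ k j, A k j = A (Fin.rev j) (Fin.rev k)

lemma cn_refl {s k : ℕ} (hk : k ≤ 2 * s) : cn s (2 * s - k) = cn s k := by
  unfold cn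
  congr 3
  have h : ((2 * s + 1 : ℕ) : ℝ) ≠ 0 := by positivity
  have e : 2 * Real.pi * (((2 * s - k : ℕ) : ℝ) + 1 / 2) / ((2 * s + 1 : ℕ) : ℝ) =
      2 * Real.pi - 2 * Real.pi * ((k : ℝ) + 1 / 2) / ((2 * s + 1 : ℕ) : ℝ) := by
    rw [Nat.cast_sub hk]
    push_cast at h ⊢
    field_simp
    ring
  rw [e, Real.cos_two_pi_sub]

lemma gg_refl {s k : ℕ} (hk : k ≤ 2 * s + 1) : gg s (2 * s + 1 - k) = gg s k := by
  unfold gg
  congr 3
  have h : ((2 * s + 1 : ℕ) : ℝ) ≠ 0 := by positivity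
  have e : Real.pi * ((2 * s + 1 - k : ℕ) : ℝ) / ((2 * s + 1 : ℕ) : ℝ) =
      Real.pi - Real.pi * (k : ℝ) / ((2 * s + 1 : ℕ) : ℝ) := by
    rw [Nat.cast_sub hk]
    field_simp
  rw [e, Real.sin_pi_sub]

lemma persym_DD (s : ℕ) : Persym (DD s) := by
  intro k j
  have hk := k.isLt
  have hj := j.isLt
  unfold DD
  simp only [Fin.val_rev]
  by_cases h1 : (k : ℕ) = j
  · have h3 : 2 * s + 1 - ((j : ℕ) + 1) = 2 * s + 1 - ((k : ℕ) + 1) := by omega
    rw [if_pos h1, if_pos h3, h1, show 2 * s + 1 - ((j : ℕ) + 1) = 2 * s - j by omega,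
      cn_refl (by omega)]
  · have h3 : ¬ 2 * s + 1 - ((j : ℕ) + 1) = 2 * s + 1 - ((k : ℕ) + 1) := by omega
    rw [if_neg h1, if_neg h3]
    by_cases h2 : (k : ℕ) = j + 1
    · have h4 : 2 * s + 1 - ((j : ℕ) + 1) = 2 * s + 1 - ((k : ℕ) + 1) + 1 := by omega
      rw [if_pos h2, if_pos h4, h2, gg_refl (by omega)]
    · have h4 : ¬ 2 * s + 1 - ((j : ℕ) + 1) = 2 * s + 1 - ((k : ℕ) + 1) + 1 := by omega
      rw [if_neg h2, if_neg h4]

lemma Persym.aeval {s : ℕ} (p : Polynomial ℂ) : Persym (Polynomial.aeval (DD s) p) := by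
  induction p using Polynomial.induction_on with
  | C a =>
    intro k j
    rw [Polynomial.aeval_C, Matrix.algebraMap_matrix_apply, Matrix.algebraMap_matrix_apply]
    by_cases h : k = j
    · rw [if_pos h, if_pos (by rw [h])]
    · rw [if_neg h, if_neg (fun hc => h (Fin.rev_injective hc).symm)]
  | add p q hp hq =>
    intro k j
    rw [map_add, Matrix.add_apply, Matrix.add_apply, hp k j, hq k j]
  | monomial n a h =>
    intro k j
    rw [pow_succ, ← mul_assoc, map_mul, Polynomial.aeval_X]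
    rw [Matrix.mul_apply]
    have hc : Polynomial.aeval (DD s) (C a * X ^ n) * DD s =
        DD s * Polynomial.aeval (DD s) (C a * X ^ n) := by
      have h1 := map_mul (Polynomial.aeval (DD s)) (C a * X ^ n) X
      have h2 := map_mul (Polynomial.aeval (DD s)) X (C a * X ^ n)
      rw [Polynomial.aeval_X] at h1 h2
      rw [← h1, ← h2, mul_comm X (C a * X ^ n)]
    rw [hc, Matrix.mul_apply]
    refine Fintype.sum_equiv Fin.revPerm _ _ fun l => ?_
    rw [h k l, persym_DD s l j, Fin.revPerm_apply, mul_comm]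

/-- row form of `aeval_Ny_ev` -/
lemma last_Ny {s u : ℕ} (hu : u ≤ 2 * s) (k : Fin (2 * s + 1)) :
    aeval (DD s) (Ny s u) (Fin.last (2 * s)) k = if (k : ℕ) + u = 2 * s then 1 else 0 := by
  rw [Persym.aeval (Ny s u) (Fin.last (2 * s)) k, Fin.rev_last]
  have h1 := congrFun (aeval_Ny_ev hu) (Fin.rev k)
  have e : ∀ M : Matrix (Fin (2 * s + 1)) (Fin (2 * s + 1)) ℂ, M.mulVec (ev s 0) (Fin.rev k) =
      M (Fin.rev k) 0 := by
    intro M
    unfold Matrix.mulVec dotProduct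
    rw [Finset.sum_eq_single 0]
    · simp [ev]
    · intro i _ hi
      have : (i : ℕ) ≠ 0 := fun hc => hi (Fin.ext hc)
      simp [ev, this]
    · intro hc
      exact absurd (Finset.mem_univ _) hc
  rw [e] at h1
  rw [h1]
  unfold ev
  have hk := k.isLt
  rw [Fin.val_rev]
  by_cases h : (k : ℕ) + u = 2 * s
  · rw [if_pos h, if_pos (by omega)]
  · rw [if_neg h, if_neg (by omega)]

/-! ### the integral -/

/-- the integral along the trapezoid -/
noncomputable def Ig (s : ℕ) (b : ℤ) (ρ : ℝ) (G : ℂ → ℂ) : ℂ :=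
  ∫ σ in (-(1 / 2) : ℝ)..(1 / 2), EE (2 * s + 1) b ρ σ * G (zt ρ σ)

lemma EE_integrable {s : ℕ} (b : ℤ) {ρ : ℝ} (hρ : 0 < ρ) {G : ℂ → ℂ} (hG : Continuous G) :
    IntegrableOn (fun σ : ℝ => EE (2 * s + 1) b ρ σ * G (zt ρ σ)) (Set.Icc (-(1 / 2)) (1 / 2)) := by
  have hzc := zt_cont ρ
  have h1 : ContinuousOn (fun σ : ℝ => Complex.exp (Real.pi * Complex.I * b *
      ((2 * s + 1 : ℕ) : ℂ) * zt ρ σ ^ 2) * Complex.sin (2 * Real.pi * zt ρ σ) /
      Complex.sin (Real.pi * ((2 * s + 1 : ℕ) : ℂ) * zt ρ σ) ^ 2 * G (zt ρ σ))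
      (Set.Icc (-(1 / 2)) (1 / 2)) := by
    have h2 := hG.comp hzc
    refine ContinuousOn.mul (ContinuousOn.div (by fun_prop) (by fun_prop) ?_) h2.continuousOn
    intro σ hσ
    have := path_sin_ne (s := s) hρ hσ
    rw [← mul_assoc] at this
    exact pow_ne_zero _ this
  have h4 : IntegrableOn (dzt ρ) (Set.Icc (-(1 / 2)) (1 / 2)) :=
    Measure.integrableOn_of_bounded (M := 1 + |ρ| * 4) (by simp)
      (dzt_measurable ρ).aestronglyMeasurable (Filter.Eventually.of_forall (dzt_bound ρ))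
  have h5 := h4.continuousOn_mul h1 isCompact_Icc
  refine h5.congr_fun (fun σ _ => ?_) measurableSet_Icc
  unfold EE
  ring

lemma EE_interval {s : ℕ} (b : ℤ) {ρ : ℝ} (hρ : 0 < ρ) {G : ℂ → ℂ} (hG : Continuous G) :
    IntervalIntegrable (fun σ : ℝ => EE (2 * s + 1) b ρ σ * G (zt ρ σ)) volume (-(1 / 2))
      (1 / 2) := by
  rw [intervalIntegrable_iff_integrableOn_Icc_of_le (by norm_num)]
  exact EE_integrable b hρ hG

lemma Ig_add {s : ℕ} (b : ℤ) {ρ : ℝ} (hρ : 0 < ρ) {G H : ℂ → ℂ} (hG : Continuous G)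
    (hH : Continuous H) : Ig s b ρ (fun z => G z + H z) = Ig s b ρ G + Ig s b ρ H := by
  unfold Ig
  rw [← intervalIntegral.integral_add (EE_interval b hρ hG) (EE_interval b hρ hH)]
  refine intervalIntegral.integral_congr fun σ _ => ?_
  ring

lemma Ig_smul (s : ℕ) (b : ℤ) (ρ : ℝ) (G : ℂ → ℂ) (a : ℂ) :
    Ig s b ρ (fun z => a * G z) = a * Ig s b ρ G := by
  unfold Ig
  rw [← intervalIntegral.integral_const_mul]
  refine intervalIntegral.integral_congr fun σ _ => ?_
  ring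

/-- an entire odd function integrates to `0` along the trapezoid -/
lemma zt_odd {F : ℂ → ℂ} (hF : Differentiable ℂ F) (hodd : ∀ z, F (-z) = -F z) {ρ : ℝ}
    (hρ : 0 < ρ) : ∫ σ in (-(1 / 2) : ℝ)..(1 / 2), F (zt ρ σ) * dzt ρ σ = 0 := by
  have hzc := zt_cont ρ
  have h1 := VC.path_eq (F := F) (b := 1 / 2) (by norm_num) (fun z _ => hF z) (hF _) (hF _)
    hF.continuous.continuousOn (γ := zt ρ) (γ' := dzt ρ) (u := -(1 / 2)) (v := 1 / 2)
    (by norm_num) hzc.continuousOn (by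
      simp only [zt, th_neg, th_half, mul_zero, Complex.ofReal_zero, zero_mul, add_zero]) (by
      simp only [zt, th_half, mul_zero, Complex.ofReal_zero, zero_mul, add_zero]) (by
      intro x hx
      rw [zt_im]
      have := th_pos (abs_lt.mpr hx)
      positivity) (s := {-(1 / 4), 0, 1 / 4}) (by simp) (by
      intro x hx
      have h2 := hx.2
      simp only [Set.mem_insert_iff, Set.mem_singleton_iff, not_or] at h2
      refine zt_deriv ?_ h2.2.1
      intro h3
      rcases (abs_eq (by norm_num)).mp h3 with h4 | h4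
      · exact h2.2.2 h4
      · exact h2.1 h4) (by
      have h3 : ContinuousOn (fun σ => F (zt ρ σ)) (Set.uIcc (-(1 / 2) : ℝ) (1 / 2)) :=
        (hF.continuous.comp hzc).continuousOn
      exact (dzt_integrable ρ).continuousOn_mul h3) (x₁ := -(1 / 2)) (h₁ := 1) (h₂ := 1)
      one_pos one_pos
  rw [h1, VC.pathInt_entire (by norm_num) hF hodd, neg_zero]

lemma PP_full (s : ℕ) (ζ : ℂ) : PP (2 * s + 1) (2 * s + 1) ζ =
    -4 * Complex.sin (Real.pi * ((2 * s + 1 : ℕ) : ℂ) * ζ) ^ 2 := by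
  rw [← pY_PP, VC.pY_full, mul_assoc]

/-- the integral of a multiple of the full node polynomial -/
lemma Ig_full {s : ℕ} (b : ℤ) {ρ : ℝ} (hρ : 0 < ρ) {G : ℂ → ℂ} (hG : Differentiable ℂ G)
    (heven : ∀ z, G (-z) = G z) :
    Ig s b ρ (fun z => PP (2 * s + 1) (2 * s + 1) z * G z) = 0 := by
  have h1 := zt_odd (F := fun z => -4 * (Complex.exp (Real.pi * Complex.I * b *
      ((2 * s + 1 : ℕ) : ℂ) * z ^ 2) * Complex.sin (2 * Real.pi * z)) * G z) (by fun_prop) (by
      intro z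
      rw [heven, neg_sq, show (2 * (Real.pi : ℂ) * -z) = -(2 * Real.pi * z) by ring,
        Complex.sin_neg]
      ring) hρ
  rw [← h1]
  unfold Ig
  refine intervalIntegral.integral_congr fun σ hσ => ?_
  rw [Set.uIcc_of_le (by norm_num)] at hσ
  have h2 := path_sin_ne (s := s) hρ hσ
  rw [← mul_assoc] at h2
  simp only
  rw [PP_full]
  unfold EE
  field_simp

/-- the constant -/
noncomputable def kc (s : ℕ) (b : ℤ) : ℂ :=
  Complex.exp (Real.pi * Complex.I * b * s ^ 2 / ((2 * s + 1 : ℕ) : ℂ)) *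
    (Complex.I * ((2 * s + 1 : ℕ) : ℂ) ^ 2 / 2)

lemma KK_Ig {s u v : ℕ} (b : ℤ) (hu : u ≤ 2 * s) {ρ : ℝ} (hρ : 0 < ρ) :
    KK s b u v = kc s b * ((1 / (fS (2 * s + 1) u ^ 2 * fS (2 * s + 1) v ^ 2) : ℝ) : ℂ) *
      Ig s b ρ (fun z => PP (2 * s + 1) u z * PP (2 * s + 1) v z) := KK_path b hu hρ

lemma PP_succ (s u : ℕ) (z : ℂ) : PP (2 * s + 1) (u + 1) z =
    PP (2 * s + 1) u z * (2 * Complex.cos (2 * Real.pi * z) - cn s u) := by
  rw [← Np_eval, Np_succ, Polynomial.eval_mul, Np_eval, Polynomial.eval_sub, Polynomial.eval_X,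
    Polynomial.eval_C]

lemma PP_continuous (n y : ℕ) : Continuous (PP n y) := PP_cont n y

/-- the two-sided recursion -/
lemma Ig_rec {s : ℕ} (b : ℤ) {ρ : ℝ} (hρ : 0 < ρ) (u v : ℕ) :
    Ig s b ρ (fun z => PP (2 * s + 1) (u + 1) z * PP (2 * s + 1) v z) +
      cn s u * Ig s b ρ (fun z => PP (2 * s + 1) u z * PP (2 * s + 1) v z) =
    Ig s b ρ (fun z => PP (2 * s + 1) u z * PP (2 * s + 1) (v + 1) z) +
      cn s v * Ig s b ρ (fun z => PP (2 * s + 1) u z * PP (2 * s + 1) v z) := by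
  have hc : ∀ w, Continuous (PP (2 * s + 1) w) := fun w => PP_cont _ w
  have h1 := Ig_add (s := s) b hρ (G := fun z => PP (2 * s + 1) (u + 1) z * PP (2 * s + 1) v z)
    (H := fun z => cn s u * (PP (2 * s + 1) u z * PP (2 * s + 1) v z)) ((hc _).mul (hc _))
    (((hc _).mul (hc _)).const_mul _)
  have h2 := Ig_add (s := s) b hρ (G := fun z => PP (2 * s + 1) u z * PP (2 * s + 1) (v + 1) z)
    (H := fun z => cn s v * (PP (2 * s + 1) u z * PP (2 * s + 1) v z)) ((hc _).mul (hc _))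
    (((hc _).mul (hc _)).const_mul _)
  rw [← Ig_smul, ← Ig_smul, ← h1, ← h2]
  congr 1
  funext z
  rw [PP_succ, PP_succ]
  ring

lemma PP_even (n y : ℕ) (z : ℂ) : PP n y (-z) = PP n y z := PP_neg n y z

lemma PP_diff (n y : ℕ) : Differentiable ℂ (PP n y) := by
  unfold PP
  intro z
  refine DifferentiableAt.fun_finsetProd fun l _ => ?_
  fun_prop

lemma Ig_left_full {s : ℕ} (b : ℤ) {ρ : ℝ} (hρ : 0 < ρ) (v : ℕ) :
    Ig s b ρ (fun z => PP (2 * s + 1) (2 * s + 1) z * PP (2 * s + 1) v z) = 0 :=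
  Ig_full b hρ (PP_diff _ _) (PP_even _ _)

lemma Ig_right_full {s : ℕ} (b : ℤ) {ρ : ℝ} (hρ : 0 < ρ) (u : ℕ) :
    Ig s b ρ (fun z => PP (2 * s + 1) u z * PP (2 * s + 1) (2 * s + 1) z) = 0 := by
  have := Ig_left_full (s := s) b hρ u
  rw [← this]
  congr 1
  funext z
  ring

/-! ### `D` commutes with the twist matrices -/

lemma fS_prod {s k : ℕ} (hk : k ≤ 2 * s) :
    fS (2 * s + 1) k * fS (2 * s + 1) (2 * s - k) = ((2 * s + 1 : ℕ) : ℝ) := by
  have h1 := fS_refl (n := 2 * s + 1) (m := k) (by omega)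
  rwa [show 2 * s + 1 - 1 - k = 2 * s - k by omega] at h1

/-- the entries of the twist matrices -/
lemma Pb_Ig {s : ℕ} (b : ℤ) {ρ : ℝ} (hρ : 0 < ρ) (k j : Fin (2 * s + 1)) :
    Pb s b k j = kc s b / ((2 * s + 1 : ℕ) : ℂ) ^ 2 *
      (((fS (2 * s + 1) k ^ 2 / fS (2 * s + 1) j ^ 2 : ℝ)) : ℂ) *
      Ig s b ρ (fun z => PP (2 * s + 1) (2 * s - k) z * PP (2 * s + 1) j z) := by
  have hk := k.isLt
  rw [Pb_KK, KK_Ig b (by omega) hρ]
  have h1 := fS_prod (s := s) (k := k) (by omega)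
  have h2 : 0 < fS (2 * s + 1) (2 * s - k) := fS_pos (by omega)
  have h3 : 0 < fS (2 * s + 1) k := fS_pos (by omega)
  have h4 : ((1 / (fS (2 * s + 1) (2 * s - k) ^ 2 * fS (2 * s + 1) j ^ 2) : ℝ) : ℂ) =
      1 / ((2 * s + 1 : ℕ) : ℂ) ^ 2 *
      (((fS (2 * s + 1) k ^ 2 / fS (2 * s + 1) j ^ 2 : ℝ)) : ℂ) := by
    have h5 : ((2 * s + 1 : ℕ) : ℂ) = (((2 * s + 1 : ℕ) : ℝ) : ℂ) := by push_cast; rfl
    rw [h5, ← h1, ← Complex.ofReal_pow]
    norm_cast
    field_simp
  rw [h4]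
  ring

lemma DD_mul_apply {s : ℕ} (A : Matrix (Fin (2 * s + 1)) (Fin (2 * s + 1)) ℂ)
    (k j : Fin (2 * s + 1)) : (DD s * A) k j = cn s k * A k j +
      (if h : 0 < (k : ℕ) then gg s k * A ⟨k - 1, by omega⟩ j else 0) := by
  have hk := k.isLt
  rw [Matrix.mul_apply]
  have e1 : ∀ l : Fin (2 * s + 1), DD s k l * A l j =
      (if l = k then cn s k * A k j else 0) +
      (if h : 0 < (k : ℕ) then (if l = ⟨k - 1, by omega⟩ then gg s k * A ⟨k - 1, by omega⟩ j
        else 0) else 0) := by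
    intro l
    unfold DD
    by_cases h1 : (k : ℕ) = l
    · have h2 : l = k := Fin.ext h1.symm
      subst h2
      rw [if_pos rfl, if_pos rfl]
      by_cases h3 : 0 < (l : ℕ)
      · rw [dif_pos h3, if_neg (fun hc => by
          have := congrArg Fin.val hc
          simp only at this
          omega), add_zero]
      · rw [dif_neg h3, add_zero]
    · have h2 : l ≠ k := fun hc => h1 (by rw [hc])
      rw [if_neg h1, if_neg h2, zero_add]
      by_cases h3 : (k : ℕ) = l + 1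
      · rw [if_pos h3, dif_pos (by omega)]
        have h4 : l = ⟨k - 1, by omega⟩ := Fin.ext (by simp only; omega)
        rw [if_pos h4, ← h4]
      · rw [if_neg h3, zero_mul]
        by_cases h5 : 0 < (k : ℕ)
        · rw [dif_pos h5, if_neg (fun hc => by
            have := congrArg Fin.val hc
            simp only at this
            omega)]
        · rw [dif_neg h5]
  rw [Finset.sum_congr rfl fun l _ => e1 l, Finset.sum_add_distrib, Finset.sum_ite_eq']
  rw [if_pos (Finset.mem_univ _)]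
  congr 1
  by_cases h5 : 0 < (k : ℕ)
  · simp only [dif_pos h5]
    rw [Finset.sum_ite_eq', if_pos (Finset.mem_univ _)]
  · simp only [dif_neg h5]
    simp

lemma mul_DD_apply {s : ℕ} (A : Matrix (Fin (2 * s + 1)) (Fin (2 * s + 1)) ℂ)
    (k j : Fin (2 * s + 1)) : (A * DD s) k j = cn s j * A k j +
      (if h : (j : ℕ) < 2 * s then gg s (j + 1) * A k ⟨j + 1, by omega⟩ else 0) := by
  have hj := j.isLt
  rw [Matrix.mul_apply]
  have e1 : ∀ l : Fin (2 * s + 1), A k l * DD s l j =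
      (if l = j then cn s j * A k j else 0) +
      (if h : (j : ℕ) < 2 * s then (if l = ⟨j + 1, by omega⟩ then
        gg s (j + 1) * A k ⟨j + 1, by omega⟩ else 0) else 0) := by
    intro l
    have hl := l.isLt
    unfold DD
    by_cases h1 : (l : ℕ) = j
    · have h2 : l = j := Fin.ext h1
      subst h2
      rw [if_pos rfl, if_pos rfl]
      by_cases h3 : (l : ℕ) < 2 * s
      · rw [dif_pos h3, if_neg (fun hc => by
          have := congrArg Fin.val hc
          simp only at this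
          omega), add_zero, mul_comm]
      · rw [dif_neg h3, add_zero, mul_comm]
    · have h2 : l ≠ j := fun hc => h1 (by rw [hc])
      rw [if_neg h1, if_neg h2, zero_add]
      by_cases h3 : (l : ℕ) = j + 1
      · rw [if_pos h3, dif_pos (by omega)]
        have h4 : l = ⟨j + 1, by omega⟩ := Fin.ext h3
        rw [if_pos h4, ← h4, h3, mul_comm]
      · rw [if_neg h3, mul_zero]
        by_cases h5 : (j : ℕ) < 2 * s
        · rw [dif_pos h5, if_neg (fun hc => h3 (by
            have := congrArg Fin.val hc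
            simpa using this))]
        · rw [dif_neg h5]
  rw [Finset.sum_congr rfl fun l _ => e1 l, Finset.sum_add_distrib, Finset.sum_ite_eq']
  rw [if_pos (Finset.mem_univ _)]
  congr 1
  by_cases h5 : (j : ℕ) < 2 * s
  · simp only [dif_pos h5]
    rw [Finset.sum_ite_eq', if_pos (Finset.mem_univ _)]
  · simp only [dif_neg h5]
    simp

theorem DD_comm (s : ℕ) (b : ℤ) : DD s * Pb s b = Pb s b * DD s := by
  ext k j
  have hk := k.isLt
  have hj := j.isLt
  rw [DD_mul_apply, mul_DD_apply]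
  set ρ : ℝ := 1 with hρ0
  have hρ : 0 < ρ := one_pos
  have hrec := Ig_rec (s := s) b hρ (2 * s - k) j
  have hcn : cn s (2 * s - k) = cn s k := cn_refl (by omega)
  rw [hcn] at hrec
  have hfk : 0 < fS (2 * s + 1) k := fS_pos (by omega)
  have hfj : 0 < fS (2 * s + 1) j := fS_pos (by omega)
  set I0 := Ig s b ρ (fun z => PP (2 * s + 1) (2 * s - k) z * PP (2 * s + 1) j z) with hI0
  have eL : (if h : 0 < (k : ℕ) then gg s k * Pb s b ⟨k - 1, by omega⟩ j else 0) =
      kc s b / ((2 * s + 1 : ℕ) : ℂ) ^ 2 *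
      (((fS (2 * s + 1) k ^ 2 / fS (2 * s + 1) j ^ 2 : ℝ)) : ℂ) *
      Ig s b ρ (fun z => PP (2 * s + 1) (2 * s - k + 1) z * PP (2 * s + 1) j z) := by
    by_cases h : 0 < (k : ℕ)
    · rw [dif_pos h, Pb_Ig b hρ]
      simp only
      rw [show 2 * s - ((k : ℕ) - 1) = 2 * s - k + 1 by omega]
      have h1 := fS_gg s (k - 1)
      rw [show (k : ℕ) - 1 + 1 = k by omega] at h1
      have h2 : (((fS (2 * s + 1) k ^ 2 / fS (2 * s + 1) j ^ 2 : ℝ)) : ℂ) =
          gg s k * (((fS (2 * s + 1) (k - 1) ^ 2 / fS (2 * s + 1) j ^ 2 : ℝ)) : ℂ) := by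
        rw [Complex.ofReal_div, h1, Complex.ofReal_div]
        ring
      rw [h2]
      ring
    · rw [dif_neg h, show 2 * s - (k : ℕ) + 1 = 2 * s + 1 by omega, Ig_left_full b hρ, mul_zero]
  have eR : (if h : (j : ℕ) < 2 * s then gg s (j + 1) * Pb s b k ⟨j + 1, by omega⟩ else 0) =
      kc s b / ((2 * s + 1 : ℕ) : ℂ) ^ 2 *
      (((fS (2 * s + 1) k ^ 2 / fS (2 * s + 1) j ^ 2 : ℝ)) : ℂ) *
      Ig s b ρ (fun z => PP (2 * s + 1) (2 * s - k) z * PP (2 * s + 1) (j + 1) z) := by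
    by_cases h : (j : ℕ) < 2 * s
    · rw [dif_pos h, Pb_Ig b hρ]
      simp only
      have h1 := fS_gg s j
      have h3 : 0 < fS (2 * s + 1) (j + 1) := fS_pos (by omega)
      have h2 : (((fS (2 * s + 1) k ^ 2 / fS (2 * s + 1) j ^ 2 : ℝ)) : ℂ) =
          gg s (j + 1) * (((fS (2 * s + 1) k ^ 2 / fS (2 * s + 1) (j + 1) ^ 2 : ℝ)) : ℂ) := by
        rw [Complex.ofReal_div, Complex.ofReal_div, h1]
        have h4 : gg s (j + 1) ≠ 0 := by
          intro hc
          rw [hc, zero_mul] at h1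
          have : fS (2 * s + 1) (j + 1) ^ 2 = 0 := by exact_mod_cast h1
          exact (pow_pos h3 2).ne' this
        have h5 : ((fS (2 * s + 1) j ^ 2 : ℝ) : ℂ) ≠ 0 := by
          exact_mod_cast (pow_pos hfj 2).ne'
        field_simp
      rw [h2]
      ring
    · rw [dif_neg h, show (j : ℕ) + 1 = 2 * s + 1 by omega, Ig_right_full b hρ, mul_zero]
  rw [eL, eR, Pb_Ig b hρ k j, ← hI0]
  linear_combination (kc s b / ((2 * s + 1 : ℕ) : ℂ) ^ 2 *
      (((fS (2 * s + 1) k ^ 2 / fS (2 * s + 1) j ^ 2 : ℝ)) : ℂ)) * hrec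

lemma aeval_comm (s : ℕ) (b : ℤ) (p : Polynomial ℂ) :
    aeval (DD s) p * Pb s b = Pb s b * aeval (DD s) p := by
  induction p using Polynomial.induction_on with
  | C a =>
    rw [Polynomial.aeval_C, Algebra.algebraMap_eq_smul_one, smul_mul_assoc, one_mul,
      mul_smul_comm, mul_one]
  | add p q hp hq => rw [map_add, add_mul, mul_add, hp, hq]
  | monomial n a h =>
    rw [pow_succ, ← mul_assoc, map_mul, Polynomial.aeval_X, mul_assoc, DD_comm, ← mul_assoc, h,
      mul_assoc]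

/-! ### the functional -/

/-- the functional: the corner entry of `g(D) · Pb` -/
noncomputable def Lam (s : ℕ) (b : ℤ) : Polynomial ℂ →ₗ[ℂ] ℂ where
  toFun g := (aeval (DD s) g * Pb s b) (Fin.last (2 * s)) 0
  map_add' g h := by rw [map_add, add_mul, Matrix.add_apply]
  map_smul' a g := by
    rw [map_smul, smul_mul_assoc, Matrix.smul_apply, RingHom.id_apply]

lemma Lam_apply (s : ℕ) (b : ℤ) (g : Polynomial ℂ) :
    Lam s b g = (aeval (DD s) g * Pb s b) (Fin.last (2 * s)) 0 := rfl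

lemma mulVec_ev {s y : ℕ} (hy : y < 2 * s + 1) (A : Matrix (Fin (2 * s + 1)) (Fin (2 * s + 1)) ℂ)
    (k : Fin (2 * s + 1)) : A.mulVec (ev s y) k = A k ⟨y, hy⟩ := by
  unfold Matrix.mulVec dotProduct
  rw [Finset.sum_eq_single ⟨y, hy⟩]
  · simp [ev]
  · intro i _ hi
    have : (i : ℕ) ≠ y := fun hc => hi (Fin.ext hc)
    simp [ev, this]
  · intro hc
    exact absurd (Finset.mem_univ _) hc

/-- the entries of `g(D) · Pb` -/
theorem entry_Lam (s : ℕ) (b : ℤ) (g : Polynomial ℂ) (k j : Fin (2 * s + 1)) :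
    (aeval (DD s) g * Pb s b) k j = Lam s b (g * (Ny s (2 * s - k) * Ny s j)) := by
  have hk := k.isLt
  have hj := j.isLt
  rw [Lam_apply]
  have e1 : aeval (DD s) (g * (Ny s (2 * s - k) * Ny s j)) * Pb s b =
      aeval (DD s) (Ny s (2 * s - k)) * (aeval (DD s) g * Pb s b) * aeval (DD s) (Ny s j) := by
    rw [show g * (Ny s (2 * s - k) * Ny s j) = Ny s (2 * s - k) * g * Ny s j by ring, map_mul,
      map_mul, mul_assoc _ _ (Pb s b), aeval_comm]
    simp only [mul_assoc]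
  have e2 := mulVec_ev (s := s) (y := 0) (by omega) (aeval (DD s) (Ny s (2 * s - k)) *
    (aeval (DD s) g * Pb s b) * aeval (DD s) (Ny s j)) (Fin.last (2 * s))
  rw [← Matrix.mulVec_mulVec, aeval_Ny_ev (by omega), mulVec_ev (y := j) (by omega)] at e2
  rw [e1]
  refine Eq.trans ?_ e2
  have e3 : ∀ B : Matrix (Fin (2 * s + 1)) (Fin (2 * s + 1)) ℂ,
      (aeval (DD s) (Ny s (2 * s - k)) * B) (Fin.last (2 * s)) ⟨j, hj⟩ = B k j := by
    intro B
    rw [Matrix.mul_apply, Finset.sum_eq_single k]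
    · rw [last_Ny (by omega), if_pos (by omega), one_mul]
    · intro l _ hl
      have hl' := l.isLt
      have : (l : ℕ) ≠ k := fun hc => hl (Fin.ext hc)
      rw [last_Ny (by omega), if_neg (by omega), zero_mul]
    · intro hc
      exact absurd (Finset.mem_univ _) hc
  exact (e3 _).symm

lemma Lam_Np_full (s : ℕ) (b : ℤ) (g : Polynomial ℂ) : Lam s b (Np s (2 * s + 1) * g) = 0 := by
  rw [Lam_apply, map_mul, aeval_Np_full, zero_mul, zero_mul]
  rfl

lemma Np_Ny (s u : ℕ) (hu : u ≤ 2 * s) :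
    Np s u = ((fS (2 * s + 1) u ^ 2 : ℝ) : ℂ) • Ny s u := by
  have h := fS_sq_pos hu
  unfold Ny
  rw [Polynomial.smul_eq_C_mul, ← mul_assoc, ← Polynomial.C_mul, ← Complex.ofReal_mul, one_div,
    mul_inv_cancel₀ h.ne', Complex.ofReal_one, Polynomial.C_1, one_mul]

lemma Lam_Np {s u : ℕ} (b : ℤ) (hu : u ≤ 2 * s) {ρ : ℝ} (hρ : 0 < ρ) :
    Lam s b (Np s u) = kc s b * Ig s b ρ (PP (2 * s + 1) u) := by
  have h := fS_sq_pos hu
  have h1 := entry_Lam s b 1 ⟨2 * s - u, by omega⟩ 0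
  rw [map_one, one_mul, one_mul, Pb_KK] at h1
  simp only at h1
  rw [show 2 * s - (2 * s - u) = u by omega, show ((0 : Fin (2 * s + 1)) : ℕ) = 0 from rfl,
    KK_Ig b hu hρ] at h1
  have h2 : Ny s 0 = 1 := by
    unfold Ny
    rw [Np_zero, fS_zero]
    simp
  rw [h2, mul_one] at h1
  rw [Np_Ny s u hu, map_smul, ← h1, fS_zero, smul_eq_mul]
  have h3 : (fun z => PP (2 * s + 1) u z * PP (2 * s + 1) 0 z) = PP (2 * s + 1) u := by
    funext z
    rw [PP_zero, mul_one]
  rw [h3]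
  have h4 : ((fS (2 * s + 1) u ^ 2 : ℝ) : ℂ) * ((1 / (fS (2 * s + 1) u ^ 2 * 1 ^ 2) : ℝ) : ℂ) =
      1 := by
    rw [← Complex.ofReal_mul, one_pow, mul_one, mul_one_div_cancel h.ne', Complex.ofReal_one]
  linear_combination (kc s b * Ig s b ρ (PP (2 * s + 1) u)) * h4

/-- the value of a polynomial at `2 cos 2πz` -/
noncomputable def pe (g : Polynomial ℂ) (z : ℂ) : ℂ := g.eval (2 * Complex.cos (2 * Real.pi * z))

lemma pe_continuous (g : Polynomial ℂ) : Continuous (pe g) := by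
  unfold pe
  exact g.continuous.comp (by fun_prop)

lemma pe_diff (g : Polynomial ℂ) : Differentiable ℂ (pe g) := by
  unfold pe
  exact g.differentiable.comp (by fun_prop)

lemma pe_even (g : Polynomial ℂ) (z : ℂ) : pe g (-z) = pe g z := by
  unfold pe
  rw [show (2 * (Real.pi : ℂ) * -z) = -(2 * Real.pi * z) by ring, Complex.cos_neg]

/-- **Integral representation of the functional.** -/
theorem Lam_path {s : ℕ} (b : ℤ) {ρ : ℝ} (hρ : 0 < ρ) (g : Polynomial ℂ) :
    Lam s b g = kc s b * Ig s b ρ (pe g) := by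
  have key : ∀ d u, u + d = 2 * s + 1 → ∀ q : Polynomial ℂ,
      Lam s b (Np s u * q) = kc s b * Ig s b ρ (pe (Np s u * q)) := by
    intro d
    induction d with
    | zero =>
      intro u hu q
      rw [Nat.add_zero] at hu
      subst hu
      rw [Lam_Np_full]
      have e : pe (Np s (2 * s + 1) * q) = fun z => PP (2 * s + 1) (2 * s + 1) z * pe q z := by
        funext z
        unfold pe
        rw [Polynomial.eval_mul, Np_eval]
      rw [e, Ig_full b hρ (pe_diff q) (pe_even q), mul_zero]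
    | succ d ih =>
      intro u hu q
      have h1 := Polynomial.modByMonic_add_div q (X - C (cn s u))
      rw [Polynomial.modByMonic_X_sub_C_eq_C_eval] at h1
      set q' := q /ₘ (X - C (cn s u)) with hq'
      set a := Polynomial.eval (cn s u) q with ha
      have e1 : Np s u * q = a • Np s u + Np s (u + 1) * q' := by
        rw [Np_succ, Polynomial.smul_eq_C_mul]
        conv_lhs => rw [← h1]
        ring
      have e2 : pe (Np s u * q) = fun z => a * PP (2 * s + 1) u z + pe (Np s (u + 1) * q') z := by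
        funext z
        rw [e1]
        unfold pe
        rw [Polynomial.eval_add, Polynomial.eval_smul, Np_eval, smul_eq_mul]
      rw [e2, e1, map_add, map_smul, smul_eq_mul, ih (u + 1) (by omega) q',
        Lam_Np b (by omega) hρ, Ig_add b hρ ((PP_cont _ _).const_mul a) (pe_continuous _),
        Ig_smul]
      ring
  have := key (2 * s + 1) 0 (by omega) g
  rwa [Np_zero, one_mul] at this

end Pool.Agent.Work.MP_b30479_gt.GA
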