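import Pool.Agent.Work.MP_b30479_gt.AX.PolyEx

/-!
# Matrices commuting with `E` are polynomials in the Casimir operator
-/

namespace Pool.Agent.Work.MP_b30479_gt.GA

open Finset Polynomial TB AX

section
variable {s : ℕ} {u : ℂˣ} (h : IsPrimitiveRoot (u : ℂ) (2 * s + 1))
  {T : Matrix (I2 s) (I2 s) ℂ}

lemma commute_poly (hC : Commute T (Cm s (u : ℂ))) (f : ℂ[X]) :
    Commute T (aeval (Cm s (u : ℂ)) f) := by
  induction f using Polynomial.induction_on' with
  | add f g hf hg =>
    rw [map_add]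
    exact hf.add_right hg
  | monomial n a =>
    rw [← C_mul_X_pow_eq_monomial, map_mul, aeval_C, map_pow, aeval_X]
    have h3 : Commute T (algebraMap ℂ _ a) := (Algebra.commutes a _).symm
    exact h3.mul_right (hC.pow_right n)

include h

/-- agreement on the middle level -/
theorem mid_poly (hL : ∀ p q : I2 s, (p.1 : ℕ) + p.2 ≠ (q.1 : ℕ) + q.2 → T p q = 0)
    (hC : Commute T (Cm s (u : ℂ))) : ∃ P : ℂ[X], ∀ p q : I2 s, (q.1 : ℕ) + q.2 = 2 * s →
    T p q = (aeval (Cm s (u : ℂ)) P) p q := by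
  choose f hf using fun i : Fin (2 * s + 1) => PolyEx_cyclic h i i le_rfl
  set P : ℂ[X] := ∑ i : Fin (2 * s + 1), C (T (i, Fin.rev i) (0, Fin.rev 0)) * f i
    with hP
  have h0 : ∀ p : I2 s, (aeval (Cm s (u : ℂ)) P) p (0, Fin.rev 0) =
      T p (0, Fin.rev 0) := by
    intro p
    rw [hP, map_sum, Matrix.sum_apply]
    have e1 : ∀ i : Fin (2 * s + 1), (aeval (Cm s (u : ℂ))
        (C (T (i, Fin.rev i) (0, Fin.rev 0)) * f i)) p (0, Fin.rev 0) =
        if p = (i, Fin.rev i) then T (i, Fin.rev i) (0, Fin.rev 0) else 0 := by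
      intro i
      rw [map_mul, aeval_C, Algebra.algebraMap_eq_smul_one, smul_mul_assoc, one_mul,
        Matrix.smul_apply, hf i p, smul_eq_mul, mul_ite, mul_one, mul_zero]
    rw [Finset.sum_congr rfl fun i _ => e1 i]
    by_cases hl : (p.1 : ℕ) + p.2 = 2 * s
    · have hp : p = (p.1, Fin.rev p.1) := Prod.ext rfl (Fin.ext (by
        simp only [Fin.val_rev]
        omega))
      rw [Finset.sum_eq_single p.1]
      · rw [if_pos hp, ← hp]
      · intro i _ hi
        rw [if_neg]
        intro h2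
        apply hi
        rw [h2]
      · intro hc
        exact absurd (Finset.mem_univ _) hc
    · rw [hL p ((0, Fin.rev 0) : I2 s) (by
        simp only [Fin.val_rev, Fin.val_zero]
        omega)]
      apply Finset.sum_eq_zero
      intro i _
      rw [if_neg]
      intro h2
      apply hl
      rw [h2]
      simp only [Fin.val_rev]
      omega
  refine ⟨P, fun p q hq => ?_⟩
  have hq' : q = (q.1, Fin.rev q.1) := Prod.ext rfl (Fin.ext (by
    simp only [Fin.val_rev]
    omega))
  have hfq := hf q.1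
  rw [← hq'] at hfq
  have e1 : ∀ T : Matrix (I2 s) (I2 s) ℂ,
      (T * aeval (Cm s (u : ℂ)) (f q.1)) p (0, Fin.rev 0) = T p q := by
    intro T
    rw [Matrix.mul_apply, Finset.sum_eq_single q]
    · rw [hfq, if_pos rfl, mul_one]
    · intro r _ hr
      rw [hfq, if_neg hr, mul_zero]
    · intro hc
      exact absurd (Finset.mem_univ _) hc
  rw [← e1 T, ← e1 (aeval (Cm s (u : ℂ)) P),
    (commute_poly hC (f q.1)).eq, ← map_mul, mul_comm P, map_mul,
    Matrix.mul_apply, Matrix.mul_apply]
  apply Finset.sum_congr rfl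
  intro r _
  rw [h0]

/-- agreement on the lower levels -/
theorem low_poly (hE : Commute T (Em s (u : ℂ))) {P : ℂ[X]}
    (hP : ∀ p q : I2 s, (q.1 : ℕ) + q.2 = 2 * s →
    T p q = (aeval (Cm s (u : ℂ)) P) p q) : ∀ (d : ℕ) (p q : I2 s),
      (q.1 : ℕ) + q.2 + d = 2 * s → T p q = (aeval (Cm s (u : ℂ)) P) p q := by
  have hinv : IsPrimitiveRoot (u : ℂ)⁻¹ (2 * s + 1) := h.inv
  have h0 : (u : ℂ) ≠ 0 := u.ne_zero
  have hcomm : Em s (u : ℂ) * aeval (Cm s (u : ℂ)) P = aeval (Cm s (u : ℂ)) P * Em s (u : ℂ) := by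
    have h1 : Commute (Em s (u : ℂ)) (Cm s (u : ℂ)) := Em_comm_Cm h
    exact (commute_poly h1 P).eq
  set D := T - aeval (Cm s (u : ℂ)) P with hD
  have hDE : ∀ p q : I2 s, (q.1 : ℕ) + q.2 ≤ 2 * s →
      (Em s (u : ℂ) * D) p q = (D * Em s (u : ℂ)) p q := by
    intro p q hq
    rw [hD, mul_sub, sub_mul, Matrix.sub_apply, Matrix.sub_apply, hE.eq, hcomm]
  suffices hmain : ∀ (d : ℕ) (p q : I2 s), (q.1 : ℕ) + q.2 + d = 2 * s → D p q = 0 by
    intro d p q hq
    have := hmain d p q hq
    rw [hD, Matrix.sub_apply, sub_eq_zero] at this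
    exact this
  intro d
  induction d with
  | zero =>
    intro p q hq
    rw [hD, Matrix.sub_apply, sub_eq_zero]
    exact hP p q (by omega)
  | succ d ih =>
    -- induction on the second index
    have key : ∀ (b : ℕ) (p q : I2 s), (q.2 : ℕ) = b → (q.1 : ℕ) + q.2 + (d + 1) = 2 * s →
        D p q = 0 := by
      intro b
      induction b with
      | zero =>
        intro p q hb hq
        have hlt : (q.1 : ℕ) + 1 < 2 * s + 1 := by omega
        have e1 := hDE p (⟨q.1 + 1, hlt⟩, q.2) (by simp only; omega)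
        have e2 : (Em s (u : ℂ) * D) p (⟨q.1 + 1, hlt⟩, q.2) = 0 := by
          rw [Matrix.mul_apply]
          apply Finset.sum_eq_zero
          intro r _
          rw [ih r (⟨q.1 + 1, hlt⟩, q.2) (by simp only; omega), mul_zero]
        have e3 : (D * Em s (u : ℂ)) p (⟨q.1 + 1, hlt⟩, q.2) =
            D p q * ((1 - (u : ℂ)⁻¹ ^ ((q.1 : ℕ) + 1)) * (u : ℂ) ^ ((s : ℤ) - (q.2 : ℕ))) := by
          rw [Matrix.mul_apply, Finset.sum_eq_single q]
          · unfold Em
            simp only
            rw [if_pos ⟨trivial, trivial⟩, if_neg (by omega), add_zero]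
          · intro r _ hr
            unfold Em
            simp only
            rw [if_neg, if_neg, add_zero, mul_zero]
            · omega
            · rintro ⟨h1, h2⟩
              apply hr
              rw [Prod.ext_iff, Fin.ext_iff]
              exact ⟨by omega, h2.symm⟩
          · intro hc
            exact absurd (Finset.mem_univ _) hc
        rw [e2, e3] at e1
        have hne : (1 - (u : ℂ)⁻¹ ^ ((q.1 : ℕ) + 1)) * (u : ℂ) ^ ((s : ℤ) - (q.2 : ℕ)) ≠ 0 :=
          mul_ne_zero (one_sub_pow_ne hinv (by omega) (by omega)) (zpow_ne_zero _ h0)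
        exact (mul_eq_zero.1 e1.symm).resolve_right hne
      | succ b ihb =>
        intro p q hb hq
        have hlt : (q.1 : ℕ) + 1 < 2 * s + 1 := by omega
        have e1 := hDE p (⟨q.1 + 1, hlt⟩, q.2) (by simp only; omega)
        have e2 : (Em s (u : ℂ) * D) p (⟨q.1 + 1, hlt⟩, q.2) = 0 := by
          rw [Matrix.mul_apply]
          apply Finset.sum_eq_zero
          intro r _
          rw [ih r (⟨q.1 + 1, hlt⟩, q.2) (by simp only; omega), mul_zero]
        have e3 : (D * Em s (u : ℂ)) p (⟨q.1 + 1, hlt⟩, q.2) =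
            D p q * ((1 - (u : ℂ)⁻¹ ^ ((q.1 : ℕ) + 1)) * (u : ℂ) ^ ((s : ℤ) - (q.2 : ℕ))) := by
          rw [Matrix.mul_apply, Finset.sum_eq_single q]
          · unfold Em
            simp only
            rw [if_pos ⟨trivial, trivial⟩, if_neg (by omega), add_zero]
          · intro r _ hr
            by_cases hc2 : ((⟨q.1 + 1, hlt⟩ : Fin (2 * s + 1)) = r.1 ∧ (q.2 : ℕ) = r.2 + 1)
            · rw [ihb p r (by omega) (by
                have := congrArg Fin.val hc2.1
                simp only at this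
                omega), zero_mul]
            · unfold Em
              simp only
              rw [if_neg, if_neg hc2, add_zero, mul_zero]
              rintro ⟨h1, h2⟩
              apply hr
              rw [Prod.ext_iff, Fin.ext_iff]
              exact ⟨by omega, h2.symm⟩
          · intro hc
            exact absurd (Finset.mem_univ _) hc
        rw [e2, e3] at e1
        have hne : (1 - (u : ℂ)⁻¹ ^ ((q.1 : ℕ) + 1)) * (u : ℂ) ^ ((s : ℤ) - (q.2 : ℕ)) ≠ 0 :=
          mul_ne_zero (one_sub_pow_ne hinv (by omega) (by omega)) (zpow_ne_zero _ h0)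
        exact (mul_eq_zero.1 e1.symm).resolve_right hne
    intro p q hq
    exact key q.2 p q rfl hq

theorem poly_of_commute (hL : ∀ p q : I2 s, (p.1 : ℕ) + p.2 ≠ (q.1 : ℕ) + q.2 → T p q = 0)
    (hC : Commute T (Cm s (u : ℂ))) (hE : Commute T (Em s (u : ℂ)))
    (hO : ∀ p q, T (PolyEx_om s p) (PolyEx_om s q) = T p q) :
    ∃ p : ℂ[X], T = aeval (Cm s (u : ℂ)) p := by
  obtain ⟨P, hP⟩ := mid_poly h hL hC
  refine ⟨P, ?_⟩
  ext p q
  by_cases hq : (q.1 : ℕ) + q.2 ≤ 2 * s
  · exact low_poly h hE hP (2 * s - (q.1 + q.2)) p q (by omega)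
  · have h1 := PolyEx_om_poly h P p q
    have h2 := hO p q
    rw [← h1, ← h2]
    apply low_poly h hE hP (2 * s - ((PolyEx_om s q).1 + (PolyEx_om s q).2)) (PolyEx_om s p)
      (PolyEx_om s q)
    have e : ((PolyEx_om s q).1 : ℕ) + (PolyEx_om s q).2 ≤ 2 * s := by
      simp only [PolyEx_om, Equiv.coe_fn_mk, Fin.val_rev]
      omega
    omega

end

end Pool.Agent.Work.MP_b30479_gt.GA
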