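import Pool.Agent.Work.MP_b30479_gt.Arbor
import Pool.Agent.Work.MP_b30479_gt.LT.PubG

/-!
# Degrees of the vertices of a tree
-/

namespace Pool.Agent.Work.MP_b30479_gt.GA

open Finset LT

theorem ends_or_root : ∀ (T : ArbTree) (v : T.V), v = T.root ∨ ∃ e : T.E, T.src e = v ∨ T.tgt e = v
  | .twist _ => fun _ => Or.inl rfl
  | .attach T U => by
    rintro (v | v)
    · rcases ends_or_root T v with h | ⟨e, h⟩
      · left
        rw [h]
        rfl
      · right
        refine ⟨some (Sum.inl e), ?_⟩
        rcases h with h | h
        · left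
          rw [← h]
          rfl
        · right
          rw [← h]
          rfl
    · right
      rcases ends_or_root U v with h | ⟨e, h⟩
      · refine ⟨none, Or.inr ?_⟩
        rw [h]
        rfl
      · refine ⟨some (Sum.inr e), ?_⟩
        rcases h with h | h
        · left
          rw [← h]
          rfl
        · right
          rw [← h]
          rfl

theorem exists_end (T : ArbTree) (hE : Nonempty T.E) (v : T.V) :
    ∃ e : T.E, T.src e = v ∨ T.tgt e = v := by
  rcases ends_or_root T v with h | h
  · cases T with
    | twist b => exact hE.elim Empty.elim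
    | attach T U =>
      refine ⟨none, Or.inl ?_⟩
      rw [h]
      rfl
  · exact h

theorem degG_eq (T : ArbTree) (v : T.V) : degG T.src T.tgt v = T.deg v := by
  unfold degG ArbTree.deg
  rw [Finset.sum_add_distrib, Finset.card_filter, Finset.card_filter]

theorem bigG_of (T : ArbTree) (hE : Nonempty T.E)
    (hb : ∀ v, 50 ≤ |T.weight v| ∧ 25 * (T.deg v : ℤ) ≤ |T.weight v|) :
    BigG T.src T.tgt T.weight := by
  refine ⟨fun v => ?_, fun v => (hb v).1, fun v => ?_⟩
  · obtain ⟨e, he⟩ := exists_end T hE v
    unfold degG
    refine le_trans ?_ (Finset.single_le_sum (f := fun e => (if T.src e = v then 1 else 0) +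
      (if T.tgt e = v then 1 else 0)) (fun _ _ => Nat.zero_le _) (mem_univ e))
    rcases he with h | h <;> simp [h]
  · rw [degG_eq]
    exact (hb v).2

end Pool.Agent.Work.MP_b30479_gt.GA
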