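import Pool.Agent.Work.MP_b30479_gt.GA.Rot
import Pool.Agent.Work.MP_b30479_gt.GA.Coord
import Pool.Agent.Work.MP_b30479_gt.GA.TreeInt

/-!
# The value of a tree
-/

namespace Pool.Agent.Work.MP_b30479_gt.GA

open Finset AX TB
open Pool.Agent.Work.MP_b30479_gt.LT
open Polynomial (X C aeval eval)

/-! ### matrices as operators on arrays -/

/-- level preserving -/
def Lev {s : ℕ} (T : Matrix (I2 s) (I2 s) ℂ) : Prop :=
  ∀ p q : I2 s, (p.1 : ℕ) + p.2 ≠ (q.1 : ℕ) + q.2 → T p q = 0

lemma M_en_mul {s : ℕ} {A B : Matrix (I2 s) (I2 s) ℂ} (hA : Lev A) (Z : ℕ → ℕ → ℂ) {a b : ℕ}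
    (hab : a + b ≤ 2 * s) : M (en (A * B)) Z a b = M (en A) (M (en B) Z) a b := by
  unfold M
  have e1 : ∀ p ∈ AD (a + b), en (A * B) p.1 p.2 a b * Z p.1 p.2 =
      ∑ q ∈ AD (a + b), en A q.1 q.2 a b * (en B p.1 p.2 q.1 q.2 * Z p.1 p.2) := by
    intro p hp
    rw [mem_AD] at hp
    have hp1 : p.1 < 2 * s + 1 := by omega
    have hp2 : p.2 < 2 * s + 1 := by omega
    have ha : a < 2 * s + 1 := by omega
    have hb : b < 2 * s + 1 := by omega
    have h1 : en (A * B) p.1 p.2 a b = ∑ r : I2 s, en A r.1 r.2 a b * en B p.1 p.2 r.1 r.2 := by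
      have h2 := en_fin (A * B) ((⟨a, ha⟩, ⟨b, hb⟩) : I2 s) (⟨p.1, hp1⟩, ⟨p.2, hp2⟩)
      simp only at h2
      rw [h2, Matrix.mul_apply]
      apply Finset.sum_congr rfl
      intro r _
      have h3 := en_fin A ((⟨a, ha⟩, ⟨b, hb⟩) : I2 s) r
      have h4 := en_fin B r ((⟨p.1, hp1⟩, ⟨p.2, hp2⟩) : I2 s)
      simp only at h3 h4
      rw [h3, h4]
    rw [h1, Fintype.sum_prod_type]
    rw [sum_sq (N := 2 * s + 1) (m := a + b) (by omega)
      (fun x y => en A x y a b * en B p.1 p.2 x y) (fun x y hxy => by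
        rw [en_level hA hxy, zero_mul]), Finset.sum_mul]
    apply Finset.sum_congr rfl
    intro q _
    ring
  have e2 : ∀ q ∈ AD (a + b), en A q.1 q.2 a b * ∑ p ∈ AD (q.1 + q.2),
      en B p.1 p.2 q.1 q.2 * Z p.1 p.2 =
      ∑ p ∈ AD (a + b), en A q.1 q.2 a b * (en B p.1 p.2 q.1 q.2 * Z p.1 p.2) := by
    intro q hq
    rw [mem_AD] at hq
    rw [hq, Finset.mul_sum]
  rw [Finset.sum_congr rfl e1, Finset.sum_congr rfl e2, Finset.sum_comm]

lemma M_en_one {s : ℕ} (Z : ℕ → ℕ → ℂ) {a b : ℕ} (hab : a + b ≤ 2 * s) :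
    M (en (1 : Matrix (I2 s) (I2 s) ℂ)) Z a b = Z a b := by
  unfold M
  have e1 : ∀ p ∈ AD (a + b), en (1 : Matrix (I2 s) (I2 s) ℂ) p.1 p.2 a b * Z p.1 p.2 =
      if p = (a, b) then Z a b else 0 := by
    intro p hp
    rw [mem_AD] at hp
    have h2 := en_fin (1 : Matrix (I2 s) (I2 s) ℂ) ((⟨a, by omega⟩, ⟨b, by omega⟩) : I2 s)
      (⟨p.1, by omega⟩, ⟨p.2, by omega⟩)
    simp only at h2
    rw [h2, Matrix.one_apply]
    by_cases hpa : p = (a, b)
    · subst hpa
      rw [if_pos rfl, if_pos rfl, one_mul]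
    · rw [if_neg hpa, if_neg, zero_mul]
      intro hc
      apply hpa
      rw [Prod.ext_iff, Fin.ext_iff, Fin.ext_iff] at hc
      exact Prod.ext hc.1.symm hc.2.symm
  rw [Finset.sum_congr rfl e1, Finset.sum_ite_eq']
  exact if_pos (mem_AD.mpr rfl)

lemma M_congr_lev {e : Ent} {Z Z' : ℕ → ℕ → ℂ} {a b : ℕ}
    (hZ : ∀ x y, x + y = a + b → Z x y = Z' x y) : M e Z a b = M e Z' a b := by
  unfold M
  apply Finset.sum_congr rfl
  intro p hp
  rw [mem_AD] at hp
  rw [hZ _ _ hp]

lemma M_congr_ent {e e' : Ent} {Z : ℕ → ℕ → ℂ} {a b : ℕ}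
    (he : ∀ x y, x + y = a + b → e x y a b = e' x y a b) : M e Z a b = M e' Z a b := by
  unfold M
  apply Finset.sum_congr rfl
  intro p hp
  rw [mem_AD] at hp
  rw [he _ _ hp]

/-- equality on the weight space -/
def Eqw (s : ℕ) (Y Z : Arr) : Prop := ∀ i j k, i + j + k = 2 * s → Y i j k = Z i j k

lemma L1_mul {s : ℕ} {A B : Matrix (I2 s) (I2 s) ℂ} (hA : Lev A) (Y : Arr) :
    Eqw s (L1 (en (A * B)) Y) (L1 (en A) (L1 (en B) Y)) := by
  intro i j k hijk
  exact M_en_mul hA (fun a b => Y a b k) (by omega)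

lemma L2_mul {s : ℕ} {A B : Matrix (I2 s) (I2 s) ℂ} (hA : Lev A) (Y : Arr) :
    Eqw s (L2 (en (A * B)) Y) (L2 (en A) (L2 (en B) Y)) := by
  intro i j k hijk
  exact M_en_mul hA (fun a b => Y i a b) (by omega)

lemma L1_Eqw {s : ℕ} (e : Ent) {Y Z : Arr} (h : Eqw s Y Z) : Eqw s (L1 e Y) (L1 e Z) := by
  intro i j k hijk
  exact M_congr_lev fun x y hxy => h x y k (by omega)

lemma L2_Eqw {s : ℕ} (e : Ent) {Y Z : Arr} (h : Eqw s Y Z) : Eqw s (L2 e Y) (L2 e Z) := by
  intro i j k hijk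
  exact M_congr_lev fun x y hxy => h i x y (by omega)

lemma en_Cm {s : ℕ} (t : ℂ) {i j a b : ℕ} (h1 : i + j ≤ 2 * s) (h2 : i + j = a + b) :
    en (Cm s t) i j a b = cas s t i j a b := by
  have h := en_fin (Cm s t) ((⟨a, by omega⟩, ⟨b, by omega⟩) : I2 s) (⟨i, by omega⟩, ⟨j, by omega⟩)
  exact h

lemma L1_Cm {s : ℕ} (t : ℂ) (Y : Arr) : Eqw s (L1 (en (Cm s t)) Y) (L1 (cas s t) Y) := by
  intro i j k hijk
  exact M_congr_ent fun x y hxy => en_Cm t (by omega) hxy

lemma L2_Cm {s : ℕ} (t : ℂ) (Y : Arr) : Eqw s (L2 (en (Cm s t)) Y) (L2 (cas s t) Y) := by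
  intro i j k hijk
  exact M_congr_ent fun x y hxy => en_Cm t (by omega) hxy

lemma lev_poly {s : ℕ} {t : ℂ} (f : Polynomial ℂ) : Lev (aeval (Cm s t) f) := PolyEx_level f

lemma lev_Cm {s : ℕ} (t : ℂ) : Lev (Cm s t) := fun _ _ h => Cm_level h

lemma en_add {s : ℕ} (A B : Matrix (I2 s) (I2 s) ℂ) (i j a b : ℕ) :
    en (A + B) i j a b = en A i j a b + en B i j a b := by
  unfold en
  split_ifs
  · rfl
  · ring

lemma en_smul {s : ℕ} (c : ℂ) (A : Matrix (I2 s) (I2 s) ℂ) (i j a b : ℕ) :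
    en (c • A) i j a b = c * en A i j a b := by
  unfold en
  split_ifs
  · rfl
  · ring

lemma crd_add {s : ℕ} {W Y Z : Arr} (h : Eqw s W (fun i j k => Y i j k + Z i j k)) :
    crd s W = crd s Y + crd s Z := by
  funext k
  unfold crd xi
  rw [HH_congr (fun _ _ _ _ => rfl) h, Pi.add_apply, HH_add_right, add_div]

/-- operators of polynomials in the Casimir operator, first two factors -/
theorem crd_L1_poly {s : ℕ} (f : Polynomial ℂ) : ∀ Y : Arr,
    crd s (L1 (en (aeval (Cm s (tt s)) f)) Y) = (aeval (DD s) f).mulVec (crd s Y) := by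
  induction f using Polynomial.induction_on' with
  | add f g hf hg =>
    intro Y
    rw [map_add, map_add, Matrix.add_mulVec, ← hf, ← hg]
    apply crd_add
    intro i j k _
    unfold L1 M
    beta_reduce
    rw [← Finset.sum_add_distrib]
    apply Finset.sum_congr rfl
    intro p _
    rw [en_add]
    ring
  | monomial n a =>
    have h1 : ∀ (n : ℕ) (Y : Arr), crd s (L1 (en (Cm s (tt s) ^ n)) Y) =
        (DD s ^ n).mulVec (crd s Y) := by
      intro n
      induction n with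
      | zero =>
        intro Y
        rw [pow_zero, pow_zero, Matrix.one_mulVec]
        exact crd_congr fun i j k hijk => M_en_one (fun a b => Y a b k) (by omega)
      | succ n ih =>
        intro Y
        rw [pow_succ', pow_succ', ← Matrix.mulVec_mulVec, ← ih, ← crd_L1_cas]
        refine crd_congr ?_
        intro i j k hijk
        rw [L1_mul (lev_Cm _) Y i j k hijk, L1_Cm _ _ i j k hijk]
    intro Y
    rw [← Polynomial.C_mul_X_pow_eq_monomial, map_mul, map_mul, Polynomial.aeval_C,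
      Polynomial.aeval_C, map_pow, map_pow, Polynomial.aeval_X, Polynomial.aeval_X,
      Algebra.algebraMap_eq_smul_one, Algebra.algebraMap_eq_smul_one, smul_mul_assoc,
      smul_mul_assoc, one_mul, one_mul, Matrix.smul_mulVec, ← h1]
    refine crd_smul ?_
    intro i j k _
    unfold L1 M
    rw [Finset.mul_sum]
    apply Finset.sum_congr rfl
    intro p _
    rw [en_smul]
    ring

/-- operators of polynomials in the Casimir operator, last two factors -/
theorem crd_L2_poly {s : ℕ} (f : Polynomial ℂ) : ∀ Y : Arr, HW s (tt s) Y →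
    crd s (L2 (en (aeval (Cm s (tt s)) f)) Y) = (aeval (DD s) f).transpose.mulVec (crd s Y) := by
  have h := tt_prim s
  have h0 : tt s ≠ 0 := h.ne_zero (by omega)
  induction f using Polynomial.induction_on' with
  | add f g hf hg =>
    intro Y hY
    rw [map_add, map_add, Matrix.transpose_add, Matrix.add_mulVec, ← hf Y hY, ← hg Y hY]
    apply crd_add
    intro i j k _
    unfold L2 M
    beta_reduce
    rw [← Finset.sum_add_distrib]
    apply Finset.sum_congr rfl
    intro p _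
    rw [en_add]
    ring
  | monomial n a =>
    have h1 : ∀ (n : ℕ) (Y : Arr), HW s (tt s) Y → ∃ Y' : Arr, HW s (tt s) Y' ∧
        Eqw s (L2 (en (Cm s (tt s) ^ n)) Y) Y' ∧
        crd s Y' = (DD s ^ n).transpose.mulVec (crd s Y) := by
      intro n
      induction n with
      | zero =>
        intro Y hY
        rw [pow_zero, pow_zero, Matrix.transpose_one, Matrix.one_mulVec]
        exact ⟨Y, hY, fun i j k hijk => M_en_one (fun a b => Y i a b) (by omega), rfl⟩
      | succ n ih =>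
        intro Y hY
        obtain ⟨Y', hY', h2, h3⟩ := ih Y hY
        refine ⟨L2 (cas s (tt s)) Y', HW_L2 h0 (commC_cas h) hY', ?_, ?_⟩
        · intro i j k hijk
          rw [pow_succ', L2_mul (lev_Cm _) Y i j k hijk, L2_Eqw _ h2 i j k hijk,
            L2_Cm _ _ i j k hijk]
        · rw [crd_L2_cas hY', h3, Matrix.mulVec_mulVec, ← Matrix.transpose_mul, ← pow_succ]
    intro Y hY
    obtain ⟨Y', hY', h2, h3⟩ := h1 n Y hY
    rw [← Polynomial.C_mul_X_pow_eq_monomial, map_mul, map_mul, Polynomial.aeval_C,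
      Polynomial.aeval_C, map_pow, map_pow, Polynomial.aeval_X, Polynomial.aeval_X,
      Algebra.algebraMap_eq_smul_one, Algebra.algebraMap_eq_smul_one, smul_mul_assoc,
      smul_mul_assoc, one_mul, one_mul, Matrix.transpose_smul, Matrix.smul_mulVec, ← h3]
    refine crd_smul ?_
    intro i j k hijk
    rw [← h2 i j k hijk]
    unfold L2 M
    rw [Finset.mul_sum]
    apply Finset.sum_congr rfl
    intro p _
    rw [en_smul]
    ring

/-! ### the twist regions -/

lemma crd_eta (s : ℕ) : crd s (eta s (tt s)) = ev s 0 := by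
  funext k
  have hk := k.isLt
  unfold crd ev
  have e1 : xi s (tt s) k (eta s (tt s)) = if (k : ℕ) = 0 then qq s 0 ^ 2 else 0 := by
    rw [← uu_crd (k := 0) (j := k) (by omega) (by omega)]
    rfl
  rw [e1]
  by_cases hk0 : (k : ℕ) = 0
  · rw [if_pos hk0, if_pos hk0, hk0, qq_zero]
    norm_num
  · rw [if_neg hk0, if_neg hk0, zero_div]

lemma en_Rm {s : ℕ} (u : ℂˣ) (c : Bool) {i j a b : ℕ} (h1 : i + j ≤ 2 * s) (h2 : i + j = a + b) :
    en (Rm s u c) i j a b = entry s u c i j a b := by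
  have h := en_fin (Rm s u c) ((⟨a, by omega⟩, ⟨b, by omega⟩) : I2 s)
    (⟨i, by omega⟩, ⟨j, by omega⟩)
  exact h

lemma twist_vec {s : ℕ} {u : ℂˣ} (hu : (u : ℂ) = tt s) (c : Bool) (m : ℕ) :
    ∃ Y : Arr, HW s u Y ∧ Eqw s (L1 (en (Rm s u c ^ m)) (eta s u)) Y ∧
      crd s Y = ((if c then AA s else AC s) ^ m).mulVec (ev s 0) := by
  have h : IsPrimitiveRoot (u : ℂ) (2 * s + 1) := by rw [hu]; exact tt_prim s
  induction m with
  | zero =>
    refine ⟨eta s u, HW_eta h, ?_, ?_⟩
    · intro i j k hijk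
      rw [pow_zero]
      exact M_en_one (fun a b => eta s u a b k) (by omega)
    · rw [pow_zero, Matrix.one_mulVec, hu, crd_eta]
  | succ m ih =>
    obtain ⟨Y, hY, h2, h3⟩ := ih
    have hlev : Lev (Rm s u c) := fun _ _ hpq => Rm_level hpq
    refine ⟨L1 (entry s u c) Y, ?_, ?_, ?_⟩
    · cases c
      · exact HW_L1 (commC_false h) hY
      · exact HW_L1 (commC_true h) hY
    · intro i j k hijk
      rw [pow_succ', L1_mul hlev _ i j k hijk, L1_Eqw _ h2 i j k hijk]
      exact M_congr_ent fun x y hxy => en_Rm u c (by omega) hxy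
    · rw [pow_succ', ← Matrix.mulVec_mulVec, ← h3]
      cases c
      · exact crd_zero_false hu hY
      · exact crd_zero_true hu hY

lemma twist_crd {s : ℕ} {u : ℂˣ} (hu : (u : ℂ) = tt s) (b : ℤ) :
    crd s (L1 (en ((ArbTree.twist b).op s u)) (eta s u)) = (Pb s b).mulVec (ev s 0) := by
  obtain ⟨Y, -, h2, h3⟩ := twist_vec hu (decide (0 ≤ b)) b.natAbs
  have e1 : (ArbTree.twist b).op s u = Rm s u (decide (0 ≤ b)) ^ b.natAbs := rfl
  rw [e1, crd_congr h2, h3]
  unfold Pb
  by_cases hb : 0 ≤ b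
  · simp [hb]
  · simp [hb]

/-! ### the quarter turn -/

lemma L1_rot {s : ℕ} {u : ℂˣ} (hu : (u : ℂ) = tt s) (A : Matrix (I2 s) (I2 s) ℂ) :
    Eqw s (L1 (en (rotateOp s u A)) (eta s u)) (L2 (en A) (eta' s)) := by
  have h0 : (u : ℂ) ≠ 0 := u.ne_zero
  intro i j k hijk
  have e1 : L1 (en (rotateOp s u A)) (eta s u) i j k =
      en (rotateOp s u A) 0 (i + j) i j * (u : ℂ) ^ (s * (i + j)) := by
    unfold L1 M
    rw [Finset.sum_eq_single (0, i + j)]
    · simp [eta]
    · intro p hp hne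
      rw [mem_AD] at hp
      have hp0 : p.1 ≠ 0 := by
        intro hc
        apply hne
        exact Prod.ext hc (by simp only; omega)
      simp [eta, hp0]
    · intro hc
      exact absurd (mem_AD.mpr (by simp)) hc
  have e2 : L2 (en A) (eta' s) i j k = en A (j + k) 0 j k * (u : ℂ) ^ (s * i) := by
    unfold L2 M
    rw [Finset.sum_eq_single (j + k, 0)]
    · simp [eta', hu]
    · intro p hp hne
      rw [mem_AD] at hp
      have hp0 : p.2 ≠ 0 := by
        intro hc
        apply hne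
        exact Prod.ext (by simp only; omega) hc
      simp [eta', hp0]
    · intro hc
      exact absurd (mem_AD.mpr (by simp)) hc
  rw [e1, e2, en_rot u A (by omega) (by omega), show 2 * s - i = j + k by omega,
    show 2 * s - (i + j) = k by omega]
  have e3 : (u : ℂ) ^ ((s : ℤ) * ((i : ℤ) - ((i + j : ℕ) : ℤ))) * (u : ℂ) ^ (s * (i + j)) =
      (u : ℂ) ^ (s * i) := by
    rw [← zpow_natCast, ← zpow_natCast, ← zpow_add₀ h0]
    congr 1
    push_cast
    ring
  linear_combination (en A (j + k) 0 j k) * e3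

/-- polynomials in `DD` are determined by the first column -/
lemma aeval_of_vec {s : ℕ} {p q : Polynomial ℂ}
    (h : (aeval (DD s) p).mulVec (ev s 0) = (aeval (DD s) q).mulVec (ev s 0))
    (x : Fin (2 * s + 1) → ℂ) : (aeval (DD s) p).mulVec x = (aeval (DD s) q).mulVec x := by
  rw [← aeval_pol x, Matrix.mulVec_mulVec, Matrix.mulVec_mulVec, ← map_mul, ← map_mul,
    mul_comm p, mul_comm q, map_mul, map_mul, ← Matrix.mulVec_mulVec, ← Matrix.mulVec_mulVec, h]

lemma transpose_last {s : ℕ} (q : Polynomial ℂ) :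
    (aeval (DD s) q).transpose.mulVec (ev s (2 * s)) =
      fun k => (aeval (DD s) q).mulVec (ev s 0) (Fin.rev k) := by
  have hp := Persym.aeval (s := s) q
  have h0 : (Fin.last (2 * s) : Fin (2 * s + 1)) = Fin.rev 0 := by simp
  have e1 : ev s (2 * s) = Pi.single (Fin.last (2 * s)) 1 := by
    funext k
    unfold ev
    by_cases hk : k = Fin.last (2 * s)
    · subst hk
      simp
    · rw [Pi.single_eq_of_ne hk, if_neg]
      intro hc
      exact hk (Fin.ext hc)
  have e2 : ev s 0 = Pi.single (0 : Fin (2 * s + 1)) 1 := by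
    funext k
    unfold ev
    by_cases hk : k = 0
    · subst hk
      simp
    · rw [Pi.single_eq_of_ne hk, if_neg]
      intro hc
      exact hk (Fin.ext hc)
  funext k
  rw [e1, e2, Matrix.mulVec_single_one, Matrix.mulVec_single_one]
  show (aeval (DD s) q) (Fin.last (2 * s)) k = (aeval (DD s) q) (Fin.rev k) 0
  rw [h0]
  have := hp (Fin.rev k) 0
  rw [Fin.rev_rev] at this
  exact this.symm

/-! ### the tree -/

theorem crd_tree {s : ℕ} {u : ℂˣ} (hu : (u : ℂ) = tt s) : ∀ T : ArbTree,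
    crd s (L1 (en (T.op s u)) (eta s u)) = wv s T
  | .twist b => twist_crd hu b
  | .attach T U => by
    have h : IsPrimitiveRoot (u : ℂ) (2 * s + 1) := by rw [hu]; exact tt_prim s
    have ihT := crd_tree hu T
    have ihU := crd_tree hu U
    obtain ⟨p, hp⟩ := op_poly h T
    obtain ⟨q, hq⟩ := op_poly h U
    have hlev : Lev (T.op s u) := by
      rw [hp]
      exact lev_poly p
    have e0 : (ArbTree.attach T U).op s u = T.op s u * rotateOp s u (U.op s u) := rfl
    rw [e0, crd_congr (L1_mul hlev (eta s u))]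
    rw [hu] at hp hq
    have e1 : ∀ Y : Arr, crd s (L1 (en (T.op s u)) Y) = (aeval (DD s) p).mulVec (crd s Y) := by
      intro Y
      rw [hp]
      exact crd_L1_poly p Y
    have e2 : crd s (L1 (en (rotateOp s u (U.op s u))) (eta s u)) =
        fun k => wv s U (Fin.rev k) := by
      rw [crd_congr (L1_rot hu (U.op s u)), hq, crd_L2_poly q (eta' s) (HW_eta' s), crd_eta',
        transpose_last]
      funext k
      rw [← ihU, hq, crd_L1_poly, hu, crd_eta]
    rw [e1, e2]
    show _ = (aeval (DD s) (pol s (wv s T))).mulVec (fun k => wv s U (Fin.rev k))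
    apply aeval_of_vec
    rw [aeval_pol, ← ihT, e1, hu, crd_eta]

/-- the right closure -/
theorem closure_crd {s : ℕ} {u : ℂˣ} (hu : (u : ℂ) = tt s) (f : Polynomial ℂ) :
    ∑ j : Fin (2 * s + 1), (u : ℂ) ^ ((s : ℤ) - ((j : ℕ) : ℤ)) *
      (aeval (Cm s (u : ℂ)) f) (0, j) (0, j) =
      crd s (L1 (en (aeval (Cm s (u : ℂ)) f)) (eta s u)) (Fin.last (2 * s)) := by
  have h : IsPrimitiveRoot (u : ℂ) (2 * s + 1) := by rw [hu]; exact tt_prim s
  have h0 : (u : ℂ) ≠ 0 := u.ne_zero
  set A := aeval (Cm s (u : ℂ)) f with hA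
  have hE : Commute A (Em s (u : ℂ)) := by
    have h1 : Commute (Em s (u : ℂ)) (Cm s (u : ℂ)) := Em_comm_Cm h
    exact (commute_poly h1 f).symm
  have hc : CommC s (u : ℂ) (en A) := by
    intro i j a b hij hS
    exact (commute_Em_iff h A).1 hE i j a b (by omega) (by omega) (by omega) (by omega)
  have hHW : HW s (tt s) (L1 (en A) (eta s u)) := by
    rw [← hu]
    exact HW_L1 hc (HW_eta h)
  rw [← trace_crd hHW]
  have e1 : ∀ p ∈ AD (2 * s), star (tt s ^ (s * p.2)) * L1 (en A) (eta s u) 0 p.1 p.2 =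
      (u : ℂ) ^ ((s : ℤ) - (p.1 : ℤ)) * en A 0 p.1 0 p.1 := by
    intro p hp
    rw [mem_AD] at hp
    have e2 : L1 (en A) (eta s u) 0 p.1 p.2 = en A 0 p.1 0 p.1 * (u : ℂ) ^ (s * p.1) := by
      unfold L1 M
      rw [Finset.sum_eq_single (0, p.1)]
      · simp [eta]
      · intro q hq hne
        rw [mem_AD] at hq
        have hq0 : q.1 ≠ 0 := by
          intro hc
          apply hne
          exact Prod.ext hc (by simp only; omega)
        simp [eta, hq0]
      · intro hc
        exact absurd (mem_AD.mpr (by simp)) hc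
    have e3 : star (tt s ^ (s * p.2)) * (u : ℂ) ^ (s * p.1) = (u : ℂ) ^ ((s : ℤ) - (p.1 : ℤ)) := by
      have hn : (u : ℂ) ^ (2 * (s : ℤ) + 1) = 1 := by
        have := h.pow_eq_one
        rw [← zpow_natCast] at this
        push_cast at this
        exact this
      rw [star_pow, ← hu, star_root h, inv_pow, ← zpow_natCast, ← zpow_natCast, ← zpow_neg,
        ← zpow_add₀ h0]
      have e4 : -((s * p.2 : ℕ) : ℤ) + ((s * p.1 : ℕ) : ℤ) = ((s : ℤ) - p.1) +
          (2 * (s : ℤ) + 1) * ((p.1 : ℤ) - s) := by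
        have : (p.2 : ℤ) = 2 * s - p.1 := by omega
        push_cast
        rw [this]
        ring
      rw [e4, zpow_add₀ h0, zpow_mul, hn, one_zpow, mul_one]
    rw [e2, ← e3]
    ring
  rw [Finset.sum_congr rfl e1]
  unfold AD
  rw [Finset.Nat.sum_antidiagonal_eq_sum_range_succ_mk,
    ← Fin.sum_univ_eq_sum_range (fun j => (u : ℂ) ^ ((s : ℤ) - (j : ℤ)) * en A 0 j 0 j)]
  apply Finset.sum_congr rfl
  intro j _
  have h3 := en_fin A ((0, j) : I2 s) (0, j)
  simp only [Fin.val_zero] at h3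
  rw [h3]

/-- the value of a tree -/
theorem val (T : ArbTree) (W : ℤ) {s : ℕ} (_hs : 1 ≤ s) :
    arbKashaev T W (2 * s + 1) =
      Complex.exp (-(2 * Real.pi * Complex.I * W * (s * (s + 1)) / ((2 * s + 1 : ℕ) : ℂ))) *
        wv s T (Fin.last (2 * s)) := by
  have e1 : (2 * s + 1 - 1) / 2 = s := by omega
  unfold arbKashaev
  rw [e1]
  set u : ℂˣ := Units.mk0 (Complex.exp (2 * Real.pi * Complex.I / ((2 * s + 1 : ℕ) : ℂ)))
    (Complex.exp_ne_zero _) with hu0
  have hu : (u : ℂ) = tt s := rfl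
  have h : IsPrimitiveRoot (u : ℂ) (2 * s + 1) := by rw [hu]; exact tt_prim s
  unfold arbJones
  congr 1
  · rw [Units.val_zpow_eq_zpow_val, hu]
    unfold tt
    rw [← Complex.exp_int_mul]
    congr 1
    push_cast
    ring
  · obtain ⟨f, hf⟩ := op_poly h T
    rw [← crd_tree hu T, hf, ← closure_crd hu f]
    apply Finset.sum_congr rfl
    intro j _
    rw [Units.val_zpow_eq_zpow_val]

end Pool.Agent.Work.MP_b30479_gt.GA
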