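import Pool.Agent.Work.MP_b30479_gt.Arbor

/-!
# Orientations and writhe of the tangle of a weighted tree

`ArbTree.Oriented` of `Arbor.lean`: the signs of the ends are `1` or `-1`, the writhe and the sum of
the weights have the same parity, and the closure of the tangle has an orientation.
-/

namespace Pool.Agent.Work.MP_b30479_gt

namespace GA

theorem sign_mul {a b : ℤ} (ha : a = 1 ∨ a = -1) (hb : b = 1 ∨ b = -1) :
    a * b = 1 ∨ a * b = -1 := by
  rcases ha with rfl | rfl <;> rcases hb with rfl | rfl <;> simp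

theorem neg_sign {a : ℤ} (h : a = 1 ∨ a = -1) : -a = 1 ∨ -a = -1 := by
  rcases h with rfl | rfl <;> simp

theorem weight_sum_twist (b : ℤ) :
    ∑ v : (ArbTree.twist b).V, (ArbTree.twist b).weight v = b := by
  change ∑ v : Unit, b = b
  simp

theorem weight_sum_attach (T U : ArbTree) :
    ∑ v : (ArbTree.attach T U).V, (ArbTree.attach T U).weight v =
      ∑ v : T.V, T.weight v + ∑ v : U.V, U.weight v := by
  exact Fintype.sum_sum_type (α₁ := T.V) (α₂ := U.V) fun v => (ArbTree.attach T U).weight v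

end GA

open GA

/-- the signs at the ends are `1` or `-1` -/
theorem ArbTree.Oriented.signs {T : ArbTree} {bl br tl tr w : ℤ}
    (h : ArbTree.Oriented T bl br tl tr w) :
    (bl = 1 ∨ bl = -1) ∧ (br = 1 ∨ br = -1) ∧ (tl = 1 ∨ tl = -1) ∧ (tr = 1 ∨ tr = -1) := by
  induction h with
  | twist b x y hx hy =>
    refine ⟨hx, hy, ?_, ?_⟩
    · split_ifs <;> assumption
    · split_ifs <;> assumption
  | attach hU hT ihU ihT =>
    obtain ⟨-, a2, -, a4⟩ := ihU
    obtain ⟨-, -, b3, b4⟩ := ihT
    refine ⟨a2, ?_, b3, b4⟩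
    omega

/-- the writhe and the sum of the weights have the same parity -/
theorem ArbTree.Oriented.parity {T : ArbTree} {bl br tl tr w : ℤ}
    (h : ArbTree.Oriented T bl br tl tr w) : Even (w - ∑ v : T.V, T.weight v) := by
  induction h with
  | twist b x y hx hy =>
    rw [weight_sum_twist]
    rcases sign_mul hx hy with h | h
    · rw [h]
      simp
    · rw [h]
      exact ⟨-b, by ring⟩
  | @attach T U x y m₁ m₂ z₁ z₂ w₁ w₂ hU hT ihU ihT =>
    rw [weight_sum_attach]
    have e2 : w₁ + w₂ - (∑ v : T.V, T.weight v + ∑ v : U.V, U.weight v) =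
        (w₁ - ∑ v : U.V, U.weight v) + (w₂ - ∑ v : T.V, T.weight v) := by ring
    rw [e2]
    exact ihU.add ihT

theorem ArbTree.IsWrithe.parity {T : ArbTree} {W : ℤ} (h : T.IsWrithe W) :
    Even (W - ∑ v : T.V, T.weight v) := by
  obtain ⟨δ, h⟩ := h
  exact h.parity

namespace GA

/-- the three connectivity types -/
def Conn (T : ArbTree) : Prop :=
  (∀ a b : ℤ, (a = 1 ∨ a = -1) → (b = 1 ∨ b = -1) → ∃ w, T.Oriented a b a b w) ∨
  (∀ a b : ℤ, (a = 1 ∨ a = -1) → (b = 1 ∨ b = -1) → ∃ w, T.Oriented a b b a w) ∨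
  (∀ a b : ℤ, (a = 1 ∨ a = -1) → (b = 1 ∨ b = -1) → ∃ w, T.Oriented a (-a) b (-b) w)

theorem conn : ∀ T : ArbTree, Conn T
  | .twist b => by
    rcases Int.even_or_odd b with h | h
    · left
      intro x y hx hy
      have := ArbTree.Oriented.twist b x y hx hy
      rw [if_pos h, if_pos h] at this
      exact ⟨_, this⟩
    · right; left
      intro x y hx hy
      have := ArbTree.Oriented.twist b x y hx hy
      rw [if_neg (by simpa using h), if_neg (by simpa using h)] at this
      exact ⟨_, this⟩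
  | .attach T U => by
    rcases conn U with hU | hU | hU
    · -- `U` vertical: the rotated tangle is horizontal, `m2 = -m1`, `br = -bl`
      have key : ∀ a m : ℤ, (a = 1 ∨ a = -1) → (m = 1 ∨ m = -1) →
          ∃ w, U.Oriented (-m) a (-m) (-(-a)) w := by
        intro a m ha hm
        obtain ⟨w, hw⟩ := hU (-m) a (neg_sign hm) ha
        exact ⟨w, by rwa [neg_neg]⟩
      right; right
      intro a b ha hb
      rcases conn T with hT | hT | hT
      · obtain ⟨w2, h2⟩ := key a b ha hb
        obtain ⟨w1, h1⟩ := hT b (-b) hb (neg_sign hb)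
        exact ⟨_, .attach h2 h1⟩
      · obtain ⟨w2, h2⟩ := key a (-b) ha (neg_sign hb)
        obtain ⟨w1, h1⟩ := hT (-b) b (neg_sign hb) hb
        rw [neg_neg b] at h2
        exact ⟨_, .attach (by rw [neg_neg b]; exact h2) h1⟩
      · obtain ⟨w2, h2⟩ := key a 1 ha (Or.inl rfl)
        obtain ⟨w1, h1⟩ := hT 1 b (Or.inl rfl) hb
        exact ⟨_, .attach h2 h1⟩
    · -- `U` crossed: `m2 = bl`, `m1 = br`
      have key : ∀ a b : ℤ, (a = 1 ∨ a = -1) → (b = 1 ∨ b = -1) →
          ∃ w, U.Oriented (-b) a a (-b) w := by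
        intro a b ha hb
        exact hU (-b) a (neg_sign hb) ha
      rcases conn T with hT | hT | hT
      · right; left
        intro a b ha hb
        obtain ⟨w2, h2⟩ := key a b ha hb
        obtain ⟨w1, h1⟩ := hT b a hb ha
        exact ⟨_, .attach h2 h1⟩
      · left
        intro a b ha hb
        obtain ⟨w2, h2⟩ := key a b ha hb
        obtain ⟨w1, h1⟩ := hT b a hb ha
        exact ⟨_, .attach h2 h1⟩
      · right; right
        intro a b ha hb
        obtain ⟨w2, h2⟩ := key a (-a) ha (neg_sign ha)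
        obtain ⟨w1, h1⟩ := hT (-a) b (neg_sign ha) hb
        rw [neg_neg] at h1
        exact ⟨_, .attach h2 h1⟩
    · -- `U` horizontal: the rotated tangle is vertical
      have key : ∀ a b : ℤ, (a = 1 ∨ a = -1) → (b = 1 ∨ b = -1) →
          ∃ w, U.Oriented (-a) a b (-b) w := by
        intro a b ha hb
        obtain ⟨w, hw⟩ := hU (-a) b (neg_sign ha) hb
        exact ⟨w, by rwa [neg_neg] at hw⟩
      rcases conn T with hT | hT | hT
      · left
        intro a b ha hb
        obtain ⟨w2, h2⟩ := key a b ha hb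
        obtain ⟨w1, h1⟩ := hT a b ha hb
        exact ⟨_, .attach h2 h1⟩
      · right; left
        intro a b ha hb
        obtain ⟨w2, h2⟩ := key a b ha hb
        obtain ⟨w1, h1⟩ := hT a b ha hb
        exact ⟨_, .attach h2 h1⟩
      · right; right
        intro a b ha hb
        obtain ⟨w2, h2⟩ := key a (-a) ha (neg_sign ha)
        obtain ⟨w1, h1⟩ := hT a b ha hb
        exact ⟨_, .attach h2 h1⟩

end GA

/-- the closure has an orientation -/
theorem ArbTree.exists_isWrithe (T : ArbTree) : ∃ W : ℤ, T.IsWrithe W := by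
  rcases conn T with h | h | h
  · obtain ⟨w, hw⟩ := h 1 1 (Or.inl rfl) (Or.inl rfl)
    exact ⟨w, 1, hw⟩
  · obtain ⟨w, hw⟩ := h 1 1 (Or.inl rfl) (Or.inl rfl)
    exact ⟨w, 1, hw⟩
  · obtain ⟨w, hw⟩ := h 1 1 (Or.inl rfl) (Or.inl rfl)
    exact ⟨w, -1, hw⟩

end Pool.Agent.Work.MP_b30479_gt
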