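import Pool.Agent.Work.MP_b30479_gt.GA.GMain
import Pool.Agent.Work.MP_b30479_gt.GA.Wr
import Pool.Agent.Work.MP_b30479_gt.GA.TreeDeg
import Pool.Agent.Work.MP_b30479_gt.GA.Val
import Pool.Agent.Work.MP_b30479_gt.LT.Rogers

/-!
# The public statement for arborescent links
-/

namespace Pool.Agent.Work.MP_b30479_gt.GA

open Finset VOL Filter Topology LT

/-- the limit of the ratios and the growth rate -/
theorem pub_tree (T : ArbTree) (hE : Nonempty T.E)
    (hb : ∀ v, 50 ≤ |T.weight v| ∧ 25 * (T.deg v : ℤ) ≤ |T.weight v|) :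
    ∃ (y : T.E → ℂ) (ζ : T.V → ℂ),
      (GeomG T.src T.tgt T.weight y ζ ∧
        ∀ y' ζ', GeomG T.src T.tgt T.weight y' ζ' → y' = y ∧ ζ' = ζ) ∧
      0 < volG T.src T.tgt y ζ ∧ (volCS T.src T.tgt T.weight y ζ).re = volG T.src T.tgt y ζ ∧
      (∃ W, T.IsWrithe W) ∧
      ∀ W, T.IsWrithe W →
        (∀ᶠ s : ℕ in atTop, arbKashaev T W (2 * s + 1) ≠ 0) ∧
        Tendsto (fun s : ℕ => arbKashaev T W (2 * s + 3) / arbKashaev T W (2 * s + 1)) atTop
          (𝓝 (Complex.exp (volCS T.src T.tgt T.weight y ζ / Real.pi))) ∧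
        Tendsto (fun s : ℕ => Real.pi *
          Real.log ‖arbKashaev T W (2 * s + 3) / arbKashaev T W (2 * s + 1)‖) atTop
          (𝓝 (volG T.src T.tgt y ζ)) := by
  have hB := bigG_of T hE hb
  obtain ⟨y, ζ, hg, hv0, -, hc, hd⟩ := geom_G hB
  refine ⟨y, ζ, hg, hv0, re_volCS hg.1, T.exists_isWrithe, fun W hW => ?_⟩
  obtain ⟨hne, hlim⟩ := main_tree T hB hW.parity (J := fun s => arbKashaev T W (2 * s + 1))
    (fun _ hs => val T W hs) hc hd
  rw [limit_eq hg.1] at hlim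
  refine ⟨hne, hlim, ?_⟩
  have h1 := ((hlim.norm).log (norm_ne_zero_iff.mpr (Complex.exp_ne_zero _))).const_mul Real.pi
  have e : Real.pi * Real.log ‖Complex.exp (volCS T.src T.tgt T.weight y ζ / Real.pi)‖ =
      volG T.src T.tgt y ζ := by
    have hpi : (Real.pi : ℝ) ≠ 0 := Real.pi_ne_zero
    rw [Complex.norm_exp, Real.log_exp, Complex.div_ofReal_re, re_volCS hg.1]
    field_simp
  rw [e] at h1
  exact h1

end Pool.Agent.Work.MP_b30479_gt.GA
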