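import Pool.Agent.Work.MP_b30479_gt.LT.Main

/-!
# From the limit of the integral to the limit of the ratios
-/

namespace Pool.Agent.Work.MP_b30479_gt.GA

open Finset MeasureTheory Filter Topology
open Pool.Agent.Work.MP_b30479_gt.LT

theorem ratio_of_limit {J Y : ℕ → ℂ} {W e : ℤ} {T L : ℂ} {N : ℕ} {a : ℝ} (hpar : Even (W - e))
    (hJ : ∀ s : ℕ, 1 ≤ s → J s = phs W e s *
      (Complex.I * ((2 * s + 1 : ℕ) : ℂ) ^ 2 / 2) ^ N * Y s) (hL : L ≠ 0)
    (hX : Tendsto (fun s : ℕ => ((((2 * s + 1 : ℕ) : ℝ) ^ a : ℝ) : ℂ) *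
      Complex.exp (-(((2 * s + 1 : ℕ) : ℂ) * T)) * Y s) atTop (𝓝 L)) :
    (∀ᶠ s : ℕ in atTop, J s ≠ 0) ∧ Tendsto (fun s : ℕ => J (s + 1) / J s) atTop
      (𝓝 ((-Complex.I) ^ e * Complex.exp (2 * T))) := by
  set X : ℕ → ℂ := fun s : ℕ => ((((2 * s + 1 : ℕ) : ℝ) ^ a : ℝ) : ℂ) *
      Complex.exp (-(((2 * s + 1 : ℕ) : ℂ) * T)) * Y s with hXd
  set F : ℕ → ℂ := fun s : ℕ => ((((2 * s + 1 : ℕ) : ℝ) ^ a : ℝ) : ℂ) with hF
  have hn : ∀ s : ℕ, 0 < ((2 * s + 1 : ℕ) : ℝ) := fun s => by positivity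
  have hnc : ∀ s : ℕ, ((2 * s + 1 : ℕ) : ℂ) ≠ 0 := fun s => by
    exact_mod_cast (by omega : 2 * s + 1 ≠ 0)
  have hF0 : ∀ s, F s ≠ 0 := fun s => by
    have := Real.rpow_pos_of_pos (hn s) a
    exact Complex.ofReal_ne_zero.mpr this.ne'
  have hform : ∀ s : ℕ, 1 ≤ s → J s =
      phs W e s * (Complex.I * ((2 * s + 1 : ℕ) : ℂ) ^ 2 / 2) ^ N *
        (X s * (F s)⁻¹ * Complex.exp (((2 * s + 1 : ℕ) : ℂ) * T)) := by
    intro s hs
    rw [hJ s hs]
    congr 1
    have h1 := hF0 s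
    have h2 : Complex.exp (-(((2 * s + 1 : ℕ) : ℂ) * T)) *
        Complex.exp (((2 * s + 1 : ℕ) : ℂ) * T) = 1 := by
      rw [← Complex.exp_add, neg_add_cancel, Complex.exp_zero]
    have h3 : X s = F s * Complex.exp (-(((2 * s + 1 : ℕ) : ℂ) * T)) * Y s := rfl
    rw [h3]
    calc Y s = (Complex.exp (-(((2 * s + 1 : ℕ) : ℂ) * T)) *
          Complex.exp (((2 * s + 1 : ℕ) : ℂ) * T)) * (F s * (F s)⁻¹) * Y s := by
          rw [h2, mul_inv_cancel₀ h1, one_mul, one_mul]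
      _ = _ := by ring
  have hphs : ∀ s, phs W e s ≠ 0 := fun s => mul_ne_zero (Complex.exp_ne_zero _)
    (Complex.exp_ne_zero _)
  have hX0 : ∀ᶠ s in atTop, X s ≠ 0 := hX.eventually_ne hL
  have hG0 : ∀ s : ℕ, (Complex.I * ((2 * s + 1 : ℕ) : ℂ) ^ 2 / 2) ^ N ≠ 0 := fun s =>
    pow_ne_zero _ (div_ne_zero (mul_ne_zero Complex.I_ne_zero (pow_ne_zero _ (hnc s)))
      two_ne_zero)
  refine ⟨?_, ?_⟩
  · filter_upwards [hX0, eventually_ge_atTop 1] with s hs hs1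
    rw [hform s hs1]
    exact mul_ne_zero (mul_ne_zero (hphs s) (hG0 s)) (mul_ne_zero (mul_ne_zero hs
      (inv_ne_zero (hF0 s))) (Complex.exp_ne_zero _))
  · have l1 := phs_ratio W e
    have l2 := ratio_lim hL hX
    have l3 : Tendsto (fun s : ℕ => (((((2 * (s + 1) + 1 : ℕ) : ℝ) / ((2 * s + 1 : ℕ) : ℝ)) ^
        (2 * N) : ℝ) : ℂ)) atTop (𝓝 1) := by
      have h := ratio_nn.pow (2 * N)
      rw [one_pow] at h
      have h2 := (Complex.continuous_ofReal.tendsto _).comp h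
      rw [Complex.ofReal_one] at h2
      exact h2
    have l4 : Tendsto (fun s : ℕ => (((((2 * (s + 1) + 1 : ℕ) : ℝ) / ((2 * s + 1 : ℕ) : ℝ)) ^
        (-a) : ℝ) : ℂ)) atTop (𝓝 1) := by
      have h := ratio_nn.rpow_const (p := -a) (Or.inl one_ne_zero)
      rw [Real.one_rpow] at h
      have h2 := (Complex.continuous_ofReal.tendsto _).comp h
      rw [Complex.ofReal_one] at h2
      exact h2
    have l5 := (((l1.mul l2).mul l3).mul l4).mul_const (Complex.exp (2 * T))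
    rw [mul_one, mul_one, mul_one] at l5
    have hsgn : ((-1 : ℂ)) ^ W * Complex.I ^ e = (-Complex.I) ^ e := by
      obtain ⟨k, hk⟩ := hpar
      have h1 : W = e + (k + k) := by
        rw [← hk]
        ring
      rw [h1, zpow_add₀ (by norm_num), zpow_add₀ (by norm_num)]
      have h2 : ((-1 : ℂ)) ^ k * (-1) ^ k = 1 := by
        rw [← mul_zpow]
        norm_num
      rw [h2, mul_one, ← mul_zpow]
      congr 1
      ring
    rw [hsgn] at l5
    refine l5.congr' ?_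
    filter_upwards [hX0, eventually_ge_atTop 1] with s hs hs1
    rw [hform s hs1, hform (s + 1) (by omega)]
    have h1 := hphs s
    have h2 := hG0 s
    have h3 := hF0 s
    have h4 := hF0 (s + 1)
    have h5 := hnc s
    have e1 : (((((2 * (s + 1) + 1 : ℕ) : ℝ) / ((2 * s + 1 : ℕ) : ℝ)) ^
        (2 * N) : ℝ) : ℂ) = (Complex.I * ((2 * (s + 1) + 1 : ℕ) : ℂ) ^ 2 / 2) ^ N /
        (Complex.I * ((2 * s + 1 : ℕ) : ℂ) ^ 2 / 2) ^ N := by
      rw [← div_pow, pow_mul, Complex.ofReal_pow]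
      congr 1
      rw [Complex.ofReal_pow, Complex.ofReal_div, Complex.ofReal_natCast, Complex.ofReal_natCast]
      have := Complex.I_ne_zero
      field_simp
    have e2 : (((((2 * (s + 1) + 1 : ℕ) : ℝ) / ((2 * s + 1 : ℕ) : ℝ)) ^
        (-a) : ℝ) : ℂ) = F s / F (s + 1) := by
      rw [Real.rpow_neg (by positivity), Real.div_rpow (hn _).le (hn _).le, inv_div,
        Complex.ofReal_div]
    have e3 : Complex.exp (2 * T) = Complex.exp (((2 * (s + 1) + 1 : ℕ) : ℂ) * T) /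
        Complex.exp (((2 * s + 1 : ℕ) : ℂ) * T) := by
      rw [← Complex.exp_sub]
      congr 1
      push_cast
      ring
    rw [e1, e2, e3]
    have h6 := Complex.exp_ne_zero (((2 * s + 1 : ℕ) : ℂ) * T)
    have h7 := hG0 (s + 1)
    generalize (Complex.I * ((2 * s + 1 : ℕ) : ℂ) ^ 2 / 2) ^ N = G at *
    generalize (Complex.I * ((2 * (s + 1) + 1 : ℕ) : ℂ) ^ 2 / 2) ^ N = G' at *
    generalize Complex.exp (((2 * s + 1 : ℕ) : ℂ) * T) = E at *
    generalize Complex.exp (((2 * (s + 1) + 1 : ℕ) : ℂ) * T) = E' at *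
    generalize phs W e s = P at *
    generalize phs W e (s + 1) = P' at *
    generalize F s = f at *
    generalize F (s + 1) = f' at *
    have h8 : X s ≠ 0 := hs
    generalize X s = x at *
    generalize X (s + 1) = x' at *
    field_simp

end Pool.Agent.Work.MP_b30479_gt.GA
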