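import Pool.Agent.Work.MP_b30479_gt.GA.PolyG
import Pool.Agent.Work.MP_b30479_gt.Arbor

/-!
# The quarter turn preserves the polynomials in the Casimir operator
-/

namespace Pool.Agent.Work.MP_b30479_gt.GA

open Finset Polynomial TB AX

/-- matrix entries, extended by zero -/
noncomputable def en {s : ℕ} (T : Matrix (I2 s) (I2 s) ℂ) : Ent := fun i j a b =>
  if h : (i < 2 * s + 1 ∧ j < 2 * s + 1) ∧ (a < 2 * s + 1 ∧ b < 2 * s + 1) then
    T (⟨a, h.2.1⟩, ⟨b, h.2.2⟩) (⟨i, h.1.1⟩, ⟨j, h.1.2⟩) else 0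

lemma en_fin {s : ℕ} (T : Matrix (I2 s) (I2 s) ℂ) (p q : I2 s) : en T q.1 q.2 p.1 p.2 = T p q := by
  unfold en
  rw [dif_pos ⟨⟨q.1.isLt, q.2.isLt⟩, ⟨p.1.isLt, p.2.isLt⟩⟩]

lemma en_out {s : ℕ} (T : Matrix (I2 s) (I2 s) ℂ) {i j a b : ℕ}
    (h : ¬ ((i < 2 * s + 1 ∧ j < 2 * s + 1) ∧ (a < 2 * s + 1 ∧ b < 2 * s + 1))) :
    en T i j a b = 0 := by
  unfold en
  rw [dif_neg h]

lemma sum_Em {s : ℕ} {t : ℂ} (q : I2 s) (f : ℕ → ℕ → ℂ) :
    ∑ r : I2 s, f r.1 r.2 * Em s t r q =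
      (1 - t⁻¹ ^ (q.1 : ℕ)) * t ^ ((s : ℤ) - (q.2 : ℕ)) * f (q.1 - 1) q.2 +
      (1 - t⁻¹ ^ (q.2 : ℕ)) * f q.1 (q.2 - 1) := by
  unfold Em
  simp only [mul_add, Finset.sum_add_distrib]
  congr 1
  · by_cases hq1 : 1 ≤ (q.1 : ℕ)
    · rw [Finset.sum_eq_single ((⟨q.1 - 1, by omega⟩, q.2) : I2 s)]
      · rw [if_pos ⟨by simp only; omega, rfl⟩]
        simp only
        rw [Nat.sub_add_cancel hq1]
        ring
      · intro r _ hr
        rw [if_neg, mul_zero]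
        rintro ⟨h1, h2⟩
        apply hr
        rw [Prod.ext_iff, Fin.ext_iff]
        exact ⟨by simp only; omega, h2.symm⟩
      · intro hc
        exact absurd (Finset.mem_univ _) hc
    · have hq0 : (q.1 : ℕ) = 0 := by omega
      rw [hq0, pow_zero, sub_self, zero_mul, zero_mul]
      apply Finset.sum_eq_zero
      intro r _
      rw [if_neg, mul_zero]
      rintro ⟨h1, h2⟩
      omega
  · by_cases hq1 : 1 ≤ (q.2 : ℕ)
    · rw [Finset.sum_eq_single ((q.1, ⟨q.2 - 1, by omega⟩) : I2 s)]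
      · rw [if_pos ⟨rfl, by simp only; omega⟩]
        simp only
        rw [Nat.sub_add_cancel hq1]
        ring
      · intro r _ hr
        rw [if_neg, mul_zero]
        rintro ⟨h1, h2⟩
        apply hr
        rw [Prod.ext_iff, Fin.ext_iff (a := r.2)]
        exact ⟨h1.symm, by simp only; omega⟩
      · intro hc
        exact absurd (Finset.mem_univ _) hc
    · have hq0 : (q.2 : ℕ) = 0 := by omega
      rw [hq0, pow_zero, sub_self, zero_mul]
      apply Finset.sum_eq_zero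
      intro r _
      rw [if_neg, mul_zero]
      rintro ⟨h1, h2⟩
      omega

lemma Em_sum {s : ℕ} {t : ℂ} (h : IsPrimitiveRoot t (2 * s + 1)) (p : I2 s) (f : ℕ → ℕ → ℂ) :
    ∑ r : I2 s, Em s t p r * f r.1 r.2 =
      (1 - t⁻¹ ^ ((p.1 : ℕ) + 1)) * t ^ ((s : ℤ) - (p.2 : ℕ)) * f (p.1 + 1) p.2 +
      (1 - t⁻¹ ^ ((p.2 : ℕ) + 1)) * f p.1 (p.2 + 1) := by
  unfold Em
  simp only [add_mul, Finset.sum_add_distrib]
  congr 1
  · by_cases hp : (p.1 : ℕ) + 1 ≤ 2 * s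
    · rw [Finset.sum_eq_single ((⟨p.1 + 1, by omega⟩, p.2) : I2 s)]
      · rw [if_pos ⟨rfl, rfl⟩]
      · intro r _ hr
        rw [if_neg, zero_mul]
        rintro ⟨h1, h2⟩
        apply hr
        rw [Prod.ext_iff, Fin.ext_iff]
        exact ⟨h1, h2⟩
      · intro hc
        exact absurd (Finset.mem_univ _) hc
    · have hp2 : (p.1 : ℕ) + 1 = 2 * s + 1 := by have := p.1.2; omega
      rw [hp2, CmF_inv_root h, sub_self, zero_mul, zero_mul]
      apply Finset.sum_eq_zero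
      intro r _
      rw [if_neg, zero_mul]
      rintro ⟨h1, h2⟩
      have := r.1.2
      omega
  · by_cases hp : (p.2 : ℕ) + 1 ≤ 2 * s
    · rw [Finset.sum_eq_single ((p.1, ⟨p.2 + 1, by omega⟩) : I2 s)]
      · rw [if_pos ⟨rfl, rfl⟩]
      · intro r _ hr
        rw [if_neg, zero_mul]
        rintro ⟨h1, h2⟩
        apply hr
        rw [Prod.ext_iff, Fin.ext_iff (a := r.2)]
        exact ⟨h1, h2⟩
      · intro hc
        exact absurd (Finset.mem_univ _) hc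
    · have hp2 : (p.2 : ℕ) + 1 = 2 * s + 1 := by have := p.2.2; omega
      rw [hp2, CmF_inv_root h, sub_self, zero_mul]
      apply Finset.sum_eq_zero
      intro r _
      rw [if_neg, zero_mul]
      rintro ⟨h1, h2⟩
      have := r.2.2
      omega

/-- the pointwise form of the commutation with `E` -/
def CommE (s : ℕ) (t : ℂ) (e : Ent) : Prop :=
  ∀ i j a b : ℕ, i ≤ 2 * s → j ≤ 2 * s → a ≤ 2 * s → b ≤ 2 * s →
    (1 - t⁻¹ ^ (a + 1)) * t ^ ((s : ℤ) - b) * e i j (a + 1) b +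
      (1 - t⁻¹ ^ (b + 1)) * e i j a (b + 1)
      = (1 - t⁻¹ ^ i) * t ^ ((s : ℤ) - j) * e (i - 1) j a b + (1 - t⁻¹ ^ j) * e i (j - 1) a b

lemma commute_Em_iff {s : ℕ} {t : ℂ} (h : IsPrimitiveRoot t (2 * s + 1))
    (T : Matrix (I2 s) (I2 s) ℂ) : Commute T (Em s t) ↔ CommE s t (en T) := by
  have key : ∀ p q : I2 s, ((T * Em s t) p q = (Em s t * T) p q) ↔
      ((1 - t⁻¹ ^ ((p.1 : ℕ) + 1)) * t ^ ((s : ℤ) - (p.2 : ℕ)) * en T q.1 q.2 (p.1 + 1) p.2 +
      (1 - t⁻¹ ^ ((p.2 : ℕ) + 1)) * en T q.1 q.2 p.1 (p.2 + 1)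
      = (1 - t⁻¹ ^ (q.1 : ℕ)) * t ^ ((s : ℤ) - (q.2 : ℕ)) * en T (q.1 - 1) q.2 p.1 p.2 +
        (1 - t⁻¹ ^ (q.2 : ℕ)) * en T q.1 (q.2 - 1) p.1 p.2) := by
    intro p q
    rw [Matrix.mul_apply, Matrix.mul_apply]
    have e1 : ∀ r : I2 s, T p r * Em s t r q = en T r.1 r.2 p.1 p.2 * Em s t r q := by
      intro r
      rw [en_fin]
    have e2 : ∀ r : I2 s, Em s t p r * T r q = Em s t p r * en T q.1 q.2 r.1 r.2 := by
      intro r
      rw [en_fin]
    rw [Finset.sum_congr rfl fun r _ => e1 r, Finset.sum_congr rfl fun r _ => e2 r,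
      sum_Em q (fun x y => en T x y p.1 p.2), Em_sum h p (fun x y => en T q.1 q.2 x y)]
    exact eq_comm
  constructor
  · intro hc i j a b hi hj ha hb
    have h1 := (key (⟨a, by omega⟩, ⟨b, by omega⟩) (⟨i, by omega⟩, ⟨j, by omega⟩)).1
      (by rw [hc.eq])
    exact h1
  · intro hc
    ext p q
    have := hc q.1 q.2 p.1 p.2 (by omega) (by omega) (by omega) (by omega)
    exact (key p q).2 this

/-! ### the Casimir operator -/

lemma Cm_symm {s : ℕ} {t : ℂ} (ht : t ≠ 0) (p q : I2 s) : Cm s t p q = Cm s t q p := by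
  unfold Cm
  rcases lt_trichotomy (p.1 : ℕ) q.1 with hlt | heq | hgt
  · by_cases h1 : (q.1 : ℕ) = p.1 + 1 ∧ (p.2 : ℕ) = q.2 + 1
    · obtain ⟨h1, h2⟩ := h1
      rw [h1, h2, cas_dn, cas_up]
      simp only [inv_pow]
      have nx : t ^ ((p.1 : ℕ) + 1) ≠ 0 := pow_ne_zero _ ht
      have ny : t ^ ((q.2 : ℕ) + 1) ≠ 0 := pow_ne_zero _ ht
      generalize t ^ ((p.1 : ℕ) + 1) = x at *
      generalize t ^ ((q.2 : ℕ) + 1) = y at *
      field_simp
      ring
    · unfold cas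
      rw [if_neg (by omega), if_neg (by omega), if_neg (by omega), if_neg (by omega),
        if_neg (by omega), if_neg (by omega)]
  · by_cases h2 : (p.2 : ℕ) = q.2
    · rw [heq, h2]
    · unfold cas
      rw [if_neg (by omega), if_neg (by omega), if_neg (by omega), if_neg (by omega),
        if_neg (by omega), if_neg (by omega)]
  · by_cases h1 : (p.1 : ℕ) = q.1 + 1 ∧ (q.2 : ℕ) = p.2 + 1
    · obtain ⟨h1, h2⟩ := h1
      rw [h1, h2, cas_dn, cas_up]
      simp only [inv_pow]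
      have nx : t ^ ((q.1 : ℕ) + 1) ≠ 0 := pow_ne_zero _ ht
      have ny : t ^ ((p.2 : ℕ) + 1) ≠ 0 := pow_ne_zero _ ht
      generalize t ^ ((q.1 : ℕ) + 1) = x at *
      generalize t ^ ((p.2 : ℕ) + 1) = y at *
      field_simp
      ring
    · unfold cas
      rw [if_neg (by omega), if_neg (by omega), if_neg (by omega), if_neg (by omega),
        if_neg (by omega), if_neg (by omega)]

lemma poly_symm {s : ℕ} {t : ℂ} (ht : t ≠ 0) (f : ℂ[X]) :
    (aeval (Cm s t) f).transpose = aeval (Cm s t) f := by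
  have h0 : (Cm s t).transpose = Cm s t := by
    ext p q
    exact Cm_symm ht q p
  have h1 : ∀ n : ℕ, (Cm s t ^ n).transpose = Cm s t ^ n := by
    intro n
    rw [Matrix.transpose_pow, h0]
  induction f using Polynomial.induction_on' with
  | add f g hf hg => rw [map_add, Matrix.transpose_add, hf, hg]
  | monomial n a =>
    rw [← C_mul_X_pow_eq_monomial, map_mul, aeval_C, map_pow, aeval_X,
      Algebra.algebraMap_eq_smul_one, smul_mul_assoc, one_mul, Matrix.transpose_smul, h1]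

/-- level part -/
noncomputable def lev1 (s : ℕ) (t : ℂ) (m : ℕ) : ℂ := t ^ s * t⁻¹ ^ m + t ^ (s + 1) * t ^ m

/-- level part -/
noncomputable def lev2 (s : ℕ) (t : ℂ) (m : ℕ) : ℂ := t⁻¹ ^ s * t ^ m

/-- the Casimir operator in terms of `E` and its transpose -/
lemma Cm_eq {s : ℕ} {t : ℂ} (h : IsPrimitiveRoot t (2 * s + 1)) (p q : I2 s) :
    Cm s t p q = (if p = q then lev1 s t (p.1 + p.2) else 0) -
      lev2 s t (p.1 + p.2) * ((Em s t).transpose * Em s t) p q := by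
  have h0 : t ≠ 0 := h.ne_zero (by omega)
  have hV := sq_mul h
  have e1 : ((Em s t).transpose * Em s t) p q = ∑ r : I2 s,
      ((if (q.1 : ℕ) = r.1 + 1 ∧ (q.2 : ℕ) = r.2 then
        (1 - t⁻¹ ^ ((r.1 : ℕ) + 1)) * t ^ ((s : ℤ) - (r.2 : ℕ)) else 0) +
      (if (q.1 : ℕ) = r.1 ∧ (q.2 : ℕ) = r.2 + 1 then 1 - t⁻¹ ^ ((r.2 : ℕ) + 1) else 0)) *
      Em s t r p := by
    rw [Matrix.mul_apply]
    apply Finset.sum_congr rfl
    intro r _
    rw [Matrix.transpose_apply, mul_comm]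
    congr 1
    unfold Em
    simp only [Fin.ext_iff]
  rw [e1, sum_Em p (fun x y => (if (q.1 : ℕ) = x + 1 ∧ (q.2 : ℕ) = y then
        (1 - t⁻¹ ^ (x + 1)) * t ^ ((s : ℤ) - (y : ℕ)) else 0) +
      (if (q.1 : ℕ) = x ∧ (q.2 : ℕ) = y + 1 then 1 - t⁻¹ ^ (y + 1) else 0))]
  have e2 : (if p = q then lev1 s t (p.1 + p.2) else 0) =
      if (p.1 : ℕ) = q.1 ∧ (p.2 : ℕ) = q.2 then lev1 s t (p.1 + p.2) else 0 := by
    by_cases hpq : p = q
    · rw [if_pos hpq, if_pos (by rw [hpq]; exact ⟨rfl, rfl⟩)]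
    · rw [if_neg hpq, if_neg]
      rintro ⟨h1, h2⟩
      exact hpq (Prod.ext (Fin.ext h1) (Fin.ext h2))
  rw [e2]
  have e3 : Cm s t p q = cas s t q.1 q.2 p.1 p.2 := rfl
  rw [e3]
  unfold lev1 lev2
  generalize (p.1 : ℕ) = i
  generalize (p.2 : ℕ) = j
  generalize (q.1 : ℕ) = k
  generalize (q.2 : ℕ) = l
  rw [zp h0, zp h0]
  by_cases c1 : i = k ∧ j = l
  · obtain ⟨rfl, rfl⟩ := c1
    rw [if_pos ⟨rfl, rfl⟩, cas_diag]
    have z1 : (1 - t⁻¹ ^ i) * (t ^ s * t⁻¹ ^ j) *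
        ((if i = i - 1 + 1 ∧ j = j then (1 - t⁻¹ ^ (i - 1 + 1)) * (t ^ s * t⁻¹ ^ j) else 0) +
        (if i = i - 1 ∧ j = j + 1 then 1 - t⁻¹ ^ (j + 1) else 0)) =
        ((1 - t⁻¹ ^ i) * (t ^ s * t⁻¹ ^ j)) ^ 2 := by
      rcases Nat.eq_zero_or_pos i with h1 | h1
      · subst h1
        simp
      · rw [if_pos (by omega), if_neg (by omega), show i - 1 + 1 = i by omega]
        ring
    have z2 : (1 - t⁻¹ ^ j) *
        ((if i = i + 1 ∧ j = j - 1 then (1 - t⁻¹ ^ (i + 1)) * (t ^ s * t⁻¹ ^ (j - 1))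
          else 0) +
        (if i = i ∧ j = j - 1 + 1 then 1 - t⁻¹ ^ (j - 1 + 1) else 0)) = (1 - t⁻¹ ^ j) ^ 2 := by
      rcases Nat.eq_zero_or_pos j with h1 | h1
      · subst h1
        simp
      · rw [if_neg (by omega), if_pos (by omega), show j - 1 + 1 = j by omega]
        ring
    rw [z1, z2]
    unfold dg
    rw [pow_add t i j, pow_add t⁻¹ i j, pow_succ t s, inv_pow, inv_pow, inv_pow]
    have nx : t ^ i ≠ 0 := pow_ne_zero _ h0
    have ny : t ^ j ≠ 0 := pow_ne_zero _ h0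
    generalize t ^ s = V at *
    generalize t ^ i = x at *
    generalize t ^ j = y at *
    obtain ⟨ht, hV0⟩ := eq_inv_sq hV
    rw [ht]
    field_simp
    ring
  · rw [if_neg c1, zero_sub]
    by_cases c2 : k = i + 1 ∧ j = l + 1
    · obtain ⟨rfl, rfl⟩ := c2
      rw [cas_dn, if_neg (by omega), if_neg (by omega), if_pos (by omega), if_neg (by omega),
        Nat.add_sub_cancel]
      rw [show i + (l + 1) = i + 1 + l by ring, pow_add t (i + 1) l, pow_succ t⁻¹ l, pow_succ t l]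
      simp only [inv_pow]
      have nx : t ^ (i + 1) ≠ 0 := pow_ne_zero _ h0
      have ny : t ^ l ≠ 0 := pow_ne_zero _ h0
      have nV : t ^ s ≠ 0 := pow_ne_zero _ h0
      generalize t ^ s = V at *
      generalize t ^ (i + 1) = x at *
      generalize t ^ l = y at *
      field_simp
      ring
    · by_cases c3 : i = k + 1 ∧ l = j + 1
      · obtain ⟨rfl, rfl⟩ := c3
        rw [cas_up, if_neg (by omega), if_pos (by omega), if_neg (by omega), if_neg (by omega)]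
        rw [pow_add t (k + 1) j, pow_succ t⁻¹ j]
        simp only [inv_pow]
        have nx : t ^ (k + 1) ≠ 0 := pow_ne_zero _ h0
        have ny : t ^ j ≠ 0 := pow_ne_zero _ h0
        have nV : t ^ s ≠ 0 := pow_ne_zero _ h0
        generalize t ^ s = V at *
        generalize t ^ (k + 1) = x at *
        generalize t ^ j = y at *
        field_simp
        ring
      · have z0 : cas s t k l i j = 0 := by
          unfold cas
          rw [if_neg (by omega), if_neg (by omega), if_neg (by omega)]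
        rw [z0]
        have z1 : (1 - t⁻¹ ^ i) * (t ^ s * t⁻¹ ^ j) *
            ((if k = i - 1 + 1 ∧ l = j then (1 - t⁻¹ ^ (i - 1 + 1)) * (t ^ s * t⁻¹ ^ j) else 0) +
            (if k = i - 1 ∧ l = j + 1 then 1 - t⁻¹ ^ (j + 1) else 0)) = 0 := by
          rcases Nat.eq_zero_or_pos i with h1 | h1
          · subst h1
            simp
          · rw [if_neg (by omega), if_neg (by omega)]
            ring
        have z2 : (1 - t⁻¹ ^ j) *
            ((if k = i + 1 ∧ l = j - 1 then (1 - t⁻¹ ^ (i + 1)) * (t ^ s * t⁻¹ ^ (j - 1))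
              else 0) +
            (if k = i ∧ l = j - 1 + 1 then 1 - t⁻¹ ^ (j - 1 + 1) else 0)) = 0 := by
          rcases Nat.eq_zero_or_pos j with h1 | h1
          · subst h1
            simp
          · rw [if_neg (by omega), if_neg (by omega)]
            ring
        rw [z1, z2]
        ring

/-- a symmetric level preserving matrix commuting with `E` commutes with the Casimir operator -/
lemma commute_Cm {s : ℕ} {t : ℂ} (h : IsPrimitiveRoot t (2 * s + 1)) {T : Matrix (I2 s) (I2 s) ℂ}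
    (hL : ∀ p q : I2 s, (p.1 : ℕ) + p.2 ≠ (q.1 : ℕ) + q.2 → T p q = 0)
    (hE : Commute T (Em s t)) (hS : T.transpose = T) : Commute T (Cm s t) := by
  have hE' : Commute T (Em s t).transpose := by
    have h1 := congrArg Matrix.transpose hE.eq
    rw [Matrix.transpose_mul, Matrix.transpose_mul, hS] at h1
    exact h1.symm
  have hEE : Commute T ((Em s t).transpose * Em s t) := hE'.mul_right hE
  have e0 : Cm s t = Matrix.diagonal (fun p : I2 s => lev1 s t (p.1 + p.2)) -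
      Matrix.diagonal (fun p : I2 s => lev2 s t (p.1 + p.2)) *
        ((Em s t).transpose * Em s t) := by
    ext p q
    rw [Cm_eq h, Matrix.sub_apply, Matrix.diagonal_mul, Matrix.diagonal_apply]
  have e1 : ∀ f : ℕ → ℂ, Commute T (Matrix.diagonal (fun p : I2 s => f (p.1 + p.2))) := by
    intro f
    ext p q
    rw [Matrix.mul_diagonal, Matrix.diagonal_mul]
    by_cases hpq : (p.1 : ℕ) + p.2 = q.1 + q.2
    · rw [hpq, mul_comm]
    · rw [hL p q hpq]
      ring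
  rw [e0]
  exact (e1 _).sub_right ((e1 _).mul_right hEE)

/-! ### the quarter turn -/

lemma rot_apply {s : ℕ} (u : ℂˣ) (T : Matrix (I2 s) (I2 s) ℂ) (p q : I2 s) :
    rotateOp s u T p q = (u : ℂ) ^ ((s : ℤ) * (((p.1 : ℕ) : ℤ) - ((q.2 : ℕ) : ℤ))) *
      T (p.2, Fin.rev q.2) (Fin.rev p.1, q.1) := by
  unfold rotateOp
  rw [Units.val_zpow_eq_zpow_val]

lemma en_rot {s : ℕ} (u : ℂˣ) (T : Matrix (I2 s) (I2 s) ℂ) {i j a b : ℕ} (ha : a ≤ 2 * s)
    (hj : j ≤ 2 * s) :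
    en (rotateOp s u T) i j a b = (u : ℂ) ^ ((s : ℤ) * ((a : ℤ) - (j : ℤ))) *
      en T (2 * s - a) i b (2 * s - j) := by
  by_cases hib : i < 2 * s + 1 ∧ b < 2 * s + 1
  · obtain ⟨hi, hb⟩ := hib
    have e1 := en_fin (rotateOp s u T) (⟨a, by omega⟩, ⟨b, hb⟩) (⟨i, hi⟩, ⟨j, by omega⟩)
    have e2 := en_fin T (⟨b, hb⟩, Fin.rev ⟨j, by omega⟩) (Fin.rev ⟨a, by omega⟩, ⟨i, hi⟩)
    rw [rot_apply, ← e2] at e1
    simp only [Fin.val_rev] at e1
    rw [show 2 * s + 1 - (a + 1) = 2 * s - a by omega,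
      show 2 * s + 1 - (j + 1) = 2 * s - j by omega] at e1
    exact e1
  · rw [en_out _ (by tauto), en_out _ (by tauto), mul_zero]

lemma commE_rot {s : ℕ} {u : ℂˣ} (h : IsPrimitiveRoot (u : ℂ) (2 * s + 1))
    {T : Matrix (I2 s) (I2 s) ℂ} (hE : CommE s (u : ℂ) (en T)) (hL : ∀ i j a b, i + j ≠ a + b →
      en T i j a b = 0) :
    CommE s (u : ℂ) (en (rotateOp s u T)) := by
  have h0 : (u : ℂ) ≠ 0 := u.ne_zero
  have hn : (u : ℂ) ^ (2 * (s : ℤ) + 1) = 1 := by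
    have := h.pow_eq_one
    rw [← zpow_natCast] at this
    push_cast at this
    exact this
  intro i j a b hi hj ha hb
  have key := hE (2 * s - a) i b (2 * s - j) (by omega) hi hb (by omega)
  -- the four terms
  have t1 : (1 - (u : ℂ)⁻¹ ^ (a + 1)) * en (rotateOp s u T) i j (a + 1) b =
      (1 - (u : ℂ)⁻¹ ^ (a + 1)) * ((u : ℂ) ^ ((s : ℤ) * ((a : ℤ) - (j : ℤ))) * (u : ℂ) ^ s *
        en T (2 * s - a - 1) i b (2 * s - j)) := by
    rcases Nat.lt_or_ge a (2 * s) with h1 | h1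
    · rw [en_rot u T (by omega) hj, show 2 * s - (a + 1) = 2 * s - a - 1 by omega]
      congr 2
      rw [← zpow_natCast, ← zpow_add₀ h0]
      congr 1
      push_cast
      ring
    · have ha2 : a = 2 * s := by omega
      rw [ha2, CmF_inv_root h, sub_self, zero_mul, zero_mul]
  have t2 : en (rotateOp s u T) i j a (b + 1) = (u : ℂ) ^ ((s : ℤ) * ((a : ℤ) - (j : ℤ))) *
        en T (2 * s - a) i (b + 1) (2 * s - j) := en_rot u T ha hj
  have t3 : en (rotateOp s u T) (i - 1) j a b = (u : ℂ) ^ ((s : ℤ) * ((a : ℤ) - (j : ℤ))) *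
        en T (2 * s - a) (i - 1) b (2 * s - j) := en_rot u T ha hj
  have t4 : (1 - (u : ℂ)⁻¹ ^ j) * en (rotateOp s u T) i (j - 1) a b =
      (1 - (u : ℂ)⁻¹ ^ j) * ((u : ℂ) ^ ((s : ℤ) * ((a : ℤ) - (j : ℤ))) * (u : ℂ) ^ s *
        en T (2 * s - a) i b (2 * s - j + 1)) := by
    rcases Nat.eq_zero_or_pos j with h1 | h1
    · subst h1
      simp
    · rw [en_rot u T ha (by omega), show 2 * s - (j - 1) = 2 * s - j + 1 by omega]
      congr 2
      rw [← zpow_natCast, ← zpow_add₀ h0]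
      congr 1
      push_cast [Nat.cast_sub h1]
      ring
  -- the powers
  have p1 : (u : ℂ)⁻¹ ^ (2 * s - j + 1) = (u : ℂ) ^ j := by
    rw [inv_pow]
    symm
    apply eq_inv_of_mul_eq_one_left
    rw [← pow_add, show j + (2 * s - j + 1) = 2 * s + 1 by omega, h.pow_eq_one]
  have p2 : (u : ℂ)⁻¹ ^ (2 * s - a) = (u : ℂ) ^ (a + 1) := by
    rw [inv_pow]
    symm
    apply eq_inv_of_mul_eq_one_left
    rw [← pow_add, show a + 1 + (2 * s - a) = 2 * s + 1 by omega, h.pow_eq_one]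
  have p3 : (u : ℂ) ^ ((s : ℤ) - ((2 * s - j : ℕ) : ℤ)) = (u : ℂ)⁻¹ ^ s * (u : ℂ) ^ j := by
    rw [inv_pow, ← zpow_natCast, ← zpow_natCast, ← zpow_neg, ← zpow_add₀ h0]
    congr 1
    have : ((2 * s - j : ℕ) : ℤ) = 2 * s - j := by omega
    rw [this]
    ring
  rw [p1, p2, p3, zp h0] at key
  rw [zp h0, zp h0]
  by_cases hlev : i + (2 * s - a) = b + (2 * s - j) + 1
  swap
  · -- all terms vanish
    have z1 : (1 - (u : ℂ)⁻¹ ^ (a + 1)) * ((u : ℂ) ^ ((s : ℤ) * ((a : ℤ) - (j : ℤ))) * (u : ℂ) ^ s *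
        en T (2 * s - a - 1) i b (2 * s - j)) = 0 := by
      rcases Nat.lt_or_ge a (2 * s) with h1 | h1
      · rw [hL _ _ _ _ (by omega)]
        ring
      · have ha2 : a = 2 * s := by omega
        rw [ha2, CmF_inv_root h, sub_self, zero_mul]
    have z3 : (1 - (u : ℂ)⁻¹ ^ i) * en T (2 * s - a) (i - 1) b (2 * s - j) = 0 := by
      rcases Nat.eq_zero_or_pos i with h1 | h1
      · subst h1
        simp
      · rw [hL _ _ _ _ (by omega)]
        ring
    have z2 := hL (2 * s - a) i (b + 1) (2 * s - j) (by omega)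
    have z4 := hL (2 * s - a) i b (2 * s - j + 1) (by omega)
    rw [z1] at t1
    rw [z2] at t2
    rw [z4] at t4
    rw [t3]
    linear_combination ((u : ℂ) ^ s * (u : ℂ)⁻¹ ^ b) * t1 + (1 - (u : ℂ)⁻¹ ^ (b + 1)) * t2 - t4 -
      ((u : ℂ) ^ s * (u : ℂ)⁻¹ ^ j * (u : ℂ) ^ ((s : ℤ) * ((a : ℤ) - (j : ℤ)))) * z3
  · -- relation between the powers
    have hx : (u : ℂ)⁻¹ ^ b * (u : ℂ) ^ i = (u : ℂ) ^ (a + 1) * (u : ℂ)⁻¹ ^ j := by
      have e1 : (u : ℂ) ^ (i + j) = (u : ℂ) ^ (a + 1 + b) := by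
        congr 1
        omega
      rw [pow_add, pow_add (u : ℂ) (a + 1) b] at e1
      rw [inv_pow, inv_pow]
      have nx : (u : ℂ) ^ b ≠ 0 := pow_ne_zero _ h0
      have ny : (u : ℂ) ^ j ≠ 0 := pow_ne_zero _ h0
      field_simp
      linear_combination e1
    have hi1 : (u : ℂ)⁻¹ ^ i * (u : ℂ) ^ i = 1 := by rw [← mul_pow, inv_mul_cancel₀ h0, one_pow]
    have hj1 : (u : ℂ)⁻¹ ^ j * (u : ℂ) ^ j = 1 := by rw [← mul_pow, inv_mul_cancel₀ h0, one_pow]
    have ha1 : (u : ℂ)⁻¹ ^ (a + 1) * (u : ℂ) ^ (a + 1) = 1 := by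
      rw [← mul_pow, inv_mul_cancel₀ h0, one_pow]
    have hs1 : (u : ℂ) ^ s * (u : ℂ)⁻¹ ^ s = 1 := by
      rw [← mul_pow, mul_inv_cancel₀ h0, one_pow]
    have hb1 : (u : ℂ)⁻¹ ^ b = (u : ℂ) ^ (a + 1) * (u : ℂ)⁻¹ ^ j * (u : ℂ)⁻¹ ^ i := by
      calc (u : ℂ)⁻¹ ^ b = (u : ℂ)⁻¹ ^ b * ((u : ℂ)⁻¹ ^ i * (u : ℂ) ^ i) := by rw [hi1, mul_one]
        _ = (u : ℂ)⁻¹ ^ b * (u : ℂ) ^ i * (u : ℂ)⁻¹ ^ i := by ring
        _ = _ := by rw [hx]
    generalize en T (2 * s - a - 1) i b (2 * s - j) = A1 at *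
    generalize en T (2 * s - a) i (b + 1) (2 * s - j) = A2 at *
    generalize en T (2 * s - a) (i - 1) b (2 * s - j) = A3 at *
    generalize en T (2 * s - a) i b (2 * s - j + 1) = A4 at *
    generalize (u : ℂ) ^ ((s : ℤ) * ((a : ℤ) - (j : ℤ))) = Z at *
    generalize (u : ℂ)⁻¹ ^ (b + 1) = q' at *
    generalize (u : ℂ)⁻¹ ^ b = b' at *
    generalize (u : ℂ)⁻¹ ^ (a + 1) = x' at *
    generalize (u : ℂ) ^ (a + 1) = x at *
    generalize (u : ℂ)⁻¹ ^ j = y' at *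
    generalize (u : ℂ) ^ j = y at *
    generalize (u : ℂ)⁻¹ ^ i = w' at *
    generalize (u : ℂ) ^ s = V at *
    generalize (u : ℂ)⁻¹ ^ s = V' at *
    linear_combination (V * b') * t1 + (1 - q') * t2 - ((1 - w') * (V * y')) * t3 - t4 +
      (Z * V * y') * key + (A1 * Z * V ^ 2 * (1 - x')) * hb1 - (A1 * Z * V ^ 2 * y' * w') * ha1 -
      (A2 * (1 - q') * Z) * hs1 - (A2 * (1 - q') * Z * V * V') * hj1 + (A4 * Z * V) * hj1

lemma en_level {s : ℕ} {T : Matrix (I2 s) (I2 s) ℂ}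
    (hL : ∀ p q : I2 s, (p.1 : ℕ) + p.2 ≠ (q.1 : ℕ) + q.2 → T p q = 0) {i j a b : ℕ}
    (h : i + j ≠ a + b) : en T i j a b = 0 := by
  unfold en
  split_ifs with hr
  · exact hL _ _ (by simp only; omega)
  · rfl

/-- the quarter turn of a polynomial in the Casimir operator is one -/
theorem rot_poly {s : ℕ} {u : ℂˣ} (h : IsPrimitiveRoot (u : ℂ) (2 * s + 1)) (f : ℂ[X]) :
    ∃ g : ℂ[X], rotateOp s u (aeval (Cm s (u : ℂ)) f) = aeval (Cm s (u : ℂ)) g := by
  have h0 : (u : ℂ) ≠ 0 := u.ne_zero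
  set T := aeval (Cm s (u : ℂ)) f with hT
  have hL : ∀ p q : I2 s, (p.1 : ℕ) + p.2 ≠ (q.1 : ℕ) + q.2 → T p q = 0 := PolyEx_level f
  have hS : ∀ p q, T p q = T q p := by
    intro p q
    have := congrFun (congrFun (poly_symm (s := s) h0 f) q) p
    exact this
  have hO : ∀ p q, T (PolyEx_om s p) (PolyEx_om s q) = T p q := PolyEx_om_poly h f
  have hE : Commute T (Em s (u : ℂ)) := by
    have h1 : Commute (Em s (u : ℂ)) (Cm s (u : ℂ)) := Em_comm_Cm h
    exact (commute_poly h1 f).symm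
  have hL' : ∀ p q : I2 s, (p.1 : ℕ) + p.2 ≠ (q.1 : ℕ) + q.2 → rotateOp s u T p q = 0 := by
    intro p q hpq
    rw [rot_apply, hL _ _ (by simp only [Fin.val_rev]; omega), mul_zero]
  have hS' : (rotateOp s u T).transpose = rotateOp s u T := by
    ext p q
    rw [Matrix.transpose_apply]
    by_cases hpq : (p.1 : ℕ) + p.2 = (q.1 : ℕ) + q.2
    · rw [rot_apply, rot_apply]
      have e1 := hO (p.2, Fin.rev q.2) (Fin.rev p.1, q.1)
      have e2 : PolyEx_om s (p.2, Fin.rev q.2) = (q.2, Fin.rev p.2) := by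
        simp [PolyEx_om]
      have e3 : PolyEx_om s (Fin.rev p.1, q.1) = (Fin.rev q.1, p.1) := by
        simp [PolyEx_om]
      rw [e2, e3] at e1
      rw [e1]
      congr 2
      have : ((p.1 : ℕ) : ℤ) + (p.2 : ℕ) = (q.1 : ℕ) + (q.2 : ℕ) := by exact_mod_cast hpq
      congr 1
      linarith
    · rw [hL' p q hpq, hL' q p (Ne.symm hpq)]
  have hO' : ∀ p q, rotateOp s u T (PolyEx_om s p) (PolyEx_om s q) = rotateOp s u T p q := by
    intro p q
    by_cases hpq : (p.1 : ℕ) + p.2 = (q.1 : ℕ) + q.2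
    · rw [rot_apply, rot_apply]
      have e1 : (PolyEx_om s p).1 = Fin.rev p.2 := rfl
      have e2 : (PolyEx_om s p).2 = Fin.rev p.1 := rfl
      have e3 : (PolyEx_om s q).1 = Fin.rev q.2 := rfl
      have e4 : (PolyEx_om s q).2 = Fin.rev q.1 := rfl
      rw [e1, e2, e3, e4, Fin.rev_rev, Fin.rev_rev, hS]
      congr 2
      rw [Fin.val_rev, Fin.val_rev]
      have h1 : ((2 * s + 1 - ((p.2 : ℕ) + 1) : ℕ) : ℤ) = 2 * s - (p.2 : ℕ) := by omega
      have h2 : ((2 * s + 1 - ((q.1 : ℕ) + 1) : ℕ) : ℤ) = 2 * s - (q.1 : ℕ) := by omega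
      have : ((p.1 : ℕ) : ℤ) + (p.2 : ℕ) = (q.1 : ℕ) + (q.2 : ℕ) := by exact_mod_cast hpq
      rw [h1, h2]
      congr 1
      linarith
    · rw [hL' p q hpq, hL']
      simp only [PolyEx_om, Equiv.coe_fn_mk, Fin.val_rev]
      omega
  have hE' : Commute (rotateOp s u T) (Em s (u : ℂ)) := by
    rw [commute_Em_iff h]
    exact commE_rot h ((commute_Em_iff h T).1 hE) fun i j a b hij => en_level hL hij
  exact poly_of_commute h hL' (commute_Cm h hL' hE' hS') hE' hO'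

lemma braiding_eq (s : ℕ) (u : ℂˣ) (c : Bool) : braiding s u c = Rm s u c := rfl

/-- the operator of an arborescent tangle is a polynomial in the Casimir operator -/
theorem op_poly {s : ℕ} {u : ℂˣ} (h : IsPrimitiveRoot (u : ℂ) (2 * s + 1)) :
    ∀ T : ArbTree, ∃ f : ℂ[X], T.op s u = aeval (Cm s (u : ℂ)) f
  | .twist b => by
    obtain ⟨p, hp⟩ := exists_poly h
    by_cases hb : 0 ≤ b
    · refine ⟨p ^ b.natAbs, ?_⟩
      show braiding s u (decide (0 ≤ b)) ^ b.natAbs = _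
      rw [decide_eq_true hb, braiding_eq, hp, map_pow]
    · refine ⟨(pbar p) ^ b.natAbs, ?_⟩
      show braiding s u (decide (0 ≤ b)) ^ b.natAbs = _
      rw [decide_eq_false hb, braiding_eq, poly_false h hp, map_pow]
  | .attach T U => by
    obtain ⟨p, hp⟩ := op_poly h T
    obtain ⟨q, hq⟩ := op_poly h U
    obtain ⟨g, hg⟩ := rot_poly h q
    refine ⟨p * g, ?_⟩
    show T.op s u * rotateOp s u (U.op s u) = _
    rw [hp, hq, hg, map_mul]

end Pool.Agent.Work.MP_b30479_gt.GA
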